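import Mathlib

/-!
Basic tools for Lipschitz free p-spaces at the level of finitely supported functions.
`PSN p q` says that `q` is the p-th power of a p-seminorm.
`Q p c K` is the largest such function with `q (δ x - δ y) ≤ c x y` vanishing on `δ z`, `z ∈ K`.
-/

namespace Pool.Agent.H13Z.FreeP

open Finsupp

/-- the p-th power of a p-seminorm -/
structure PSN (𝕜 : Type) [RCLike 𝕜] (p : ℝ) {V : Type*} [AddCommGroup V] [Module 𝕜 V]
    (q : V → ℝ) : Prop where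
  nonneg : ∀ x, 0 ≤ q x
  add : ∀ x y, q (x + y) ≤ q x + q y
  smul : ∀ (c : 𝕜) x, q (c • x) = ‖c‖ ^ p * q x

section PSN

variable {𝕜 : Type} [RCLike 𝕜] {p : ℝ} {V : Type*} [AddCommGroup V] [Module 𝕜 V] {q : V → ℝ}

theorem PSN.of_le (hp : 0 < p) (h0 : ∀ x, 0 ≤ q x) (ha : ∀ x y, q (x + y) ≤ q x + q y)
    (hs : ∀ (c : 𝕜) x, q (c • x) ≤ ‖c‖ ^ p * q x) : PSN 𝕜 p q := by
  refine ⟨h0, ha, fun c x => le_antisymm (hs c x) ?_⟩
  by_cases hc : c = 0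
  · subst hc
    simp [Real.zero_rpow hp.ne', h0]
  · have h1 := hs c⁻¹ (c • x)
    rw [smul_smul, inv_mul_cancel₀ hc, one_smul, norm_inv,
      Real.inv_rpow (norm_nonneg _)] at h1
    have h2 : 0 < ‖c‖ ^ p := Real.rpow_pos_of_pos (norm_pos_iff.2 hc) p
    calc ‖c‖ ^ p * q x ≤ ‖c‖ ^ p * ((‖c‖ ^ p)⁻¹ * q (c • x)) := by gcongr
      _ = q (c • x) := by field_simp

theorem PSN.zero (h : PSN 𝕜 p q) (hp : 0 < p) : q 0 = 0 := by
  have := h.smul 0 0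
  simpa [Real.zero_rpow hp.ne'] using this

theorem PSN.neg (h : PSN 𝕜 p q) (x : V) : q (-x) = q x := by
  have := h.smul (-1) x
  simpa using this

theorem PSN.sub_comm (h : PSN 𝕜 p q) (x y : V) : q (x - y) = q (y - x) := by
  rw [← h.neg, neg_sub]

theorem PSN.sub (h : PSN 𝕜 p q) (x y : V) : q (x - y) ≤ q x + q y := by
  rw [sub_eq_add_neg]
  exact (h.add _ _).trans (by rw [h.neg])

theorem PSN.le_add_sub (h : PSN 𝕜 p q) (x y : V) : q x ≤ q y + q (x - y) := by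
  have := h.add y (x - y)
  rwa [add_sub_cancel] at this

theorem PSN.sum_le (h : PSN 𝕜 p q) (hp : 0 < p) {ι : Type*} (s : Finset ι) (f : ι → V) :
    q (∑ i ∈ s, f i) ≤ ∑ i ∈ s, q (f i) := by
  classical
  induction s using Finset.induction_on with
  | empty => simp [h.zero hp]
  | insert a s ha ih =>
    rw [Finset.sum_insert ha, Finset.sum_insert ha]
    exact (h.add _ _).trans (by linarith)

theorem PSN.comp {W : Type*} [AddCommGroup W] [Module 𝕜 W] (h : PSN 𝕜 p q) (L : W →ₗ[𝕜] V) :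
    PSN 𝕜 p (fun x => q (L x)) :=
  ⟨fun _ => h.nonneg _, fun x y => by rw [map_add]; exact h.add _ _,
    fun c x => by rw [map_smul]; exact h.smul _ _⟩

theorem PSN.finsum {ι : Type*} (s : Finset ι) (f : ι → V → ℝ) (h : ∀ i ∈ s, PSN 𝕜 p (f i)) :
    PSN 𝕜 p (fun x => ∑ i ∈ s, f i x) :=
  ⟨fun x => Finset.sum_nonneg fun i hi => (h i hi).nonneg x,
    fun x y => by
      rw [← Finset.sum_add_distrib]
      exact Finset.sum_le_sum fun i hi => (h i hi).add x y,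
    fun c x => by
      rw [Finset.mul_sum]
      exact Finset.sum_congr rfl fun i hi => (h i hi).smul c x⟩

theorem psn_norm (hp : 0 < p) (hp1 : p ≤ 1) : PSN 𝕜 p (fun a : 𝕜 => ‖a‖ ^ p) :=
  ⟨fun _ => Real.rpow_nonneg (norm_nonneg _) _, fun a b =>
    (Real.rpow_le_rpow (norm_nonneg _) (norm_add_le a b) hp.le).trans
      (Real.rpow_add_le_add_rpow (norm_nonneg _) (norm_nonneg _) hp.le hp1),
    fun c a => by rw [smul_eq_mul, norm_mul, Real.mul_rpow (norm_nonneg _) (norm_nonneg _)]⟩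

end PSN

variable {𝕜 : Type} [RCLike 𝕜] {M : Type*}

/-- the point mass -/
noncomputable abbrev dl (𝕜 : Type) [RCLike 𝕜] (x : M) : M →₀ 𝕜 := single x 1

/-- boundary of a finitely supported flow -/
noncomputable def bd : ((M × M) →₀ 𝕜) →ₗ[𝕜] (M →₀ 𝕜) :=
  Finsupp.linearCombination 𝕜 (fun e : M × M => dl 𝕜 e.1 - dl 𝕜 e.2)

theorem bd_single (e : M × M) (b : 𝕜) : bd (single e b) = b • (dl 𝕜 e.1 - dl 𝕜 e.2) := by
  simp [bd]

theorem bd_apply (β : (M × M) →₀ 𝕜) :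
    bd β = ∑ e ∈ β.support, β e • (dl 𝕜 e.1 - dl 𝕜 e.2) := by
  simp [bd, Finsupp.linearCombination_apply, Finsupp.sum]

/-- cost of a flow -/
noncomputable def cost (p : ℝ) (c : M → M → ℝ) (β : (M × M) →₀ 𝕜) : ℝ :=
  ∑ e ∈ β.support, ‖β e‖ ^ p * c e.1 e.2

theorem cost_eq {p : ℝ} (hp : 0 < p) (c : M → M → ℝ) (β : (M × M) →₀ 𝕜) (S : Finset (M × M))
    (hS : β.support ⊆ S) : cost p c β = ∑ e ∈ S, ‖β e‖ ^ p * c e.1 e.2 := by
  refine Finset.sum_subset hS fun e _ he => ?_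
  rw [Finsupp.notMem_support_iff.1 he]
  simp [Real.zero_rpow hp.ne']

theorem psn_cost {p : ℝ} (hp : 0 < p) (hp1 : p ≤ 1) {c : M → M → ℝ} (hc : ∀ x y, 0 ≤ c x y) :
    PSN 𝕜 p (cost (𝕜 := 𝕜) p c) := by
  classical
  refine PSN.of_le hp (fun β => Finset.sum_nonneg fun e _ =>
    mul_nonneg (Real.rpow_nonneg (norm_nonneg _) _) (hc _ _)) (fun β γ => ?_) (fun a β => ?_)
  · rw [cost_eq hp c (β + γ) (β.support ∪ γ.support) Finsupp.support_add,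
      cost_eq hp c β (β.support ∪ γ.support) Finset.subset_union_left,
      cost_eq hp c γ (β.support ∪ γ.support) Finset.subset_union_right, ← Finset.sum_add_distrib]
    refine Finset.sum_le_sum fun e _ => ?_
    rw [← add_mul]
    exact mul_le_mul_of_nonneg_right ((psn_norm hp hp1).add _ _) (hc _ _)
  · rw [cost_eq hp c (a • β) β.support Finsupp.support_smul, cost, Finset.mul_sum]
    refine Finset.sum_le_sum fun e _ => ?_
    rw [Finsupp.smul_apply, smul_eq_mul, norm_mul, Real.mul_rpow (norm_nonneg _) (norm_nonneg _),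
      mul_assoc]

theorem cost_single {p : ℝ} (hp : 0 < p) (c : M → M → ℝ) (e : M × M) (b : 𝕜) :
    cost p c (single e b) = ‖b‖ ^ p * c e.1 e.2 := by
  rw [cost_eq hp c _ {e} Finsupp.support_single_subset]
  simp

/-- supported in `K` -/
def Supp (K : Set M) (μ : M →₀ 𝕜) : Prop := ∀ x, x ∉ K → μ x = 0

theorem Supp.add {K : Set M} {μ ν : M →₀ 𝕜} (h : Supp K μ) (h' : Supp K ν) : Supp K (μ + ν) :=
  fun x hx => by simp [h x hx, h' x hx]

theorem Supp.sub {K : Set M} {μ ν : M →₀ 𝕜} (h : Supp K μ) (h' : Supp K ν) : Supp K (μ - ν) :=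
  fun x hx => by simp [h x hx, h' x hx]

theorem Supp.smul {K : Set M} {μ : M →₀ 𝕜} (h : Supp K μ) (a : 𝕜) : Supp K (a • μ) :=
  fun x hx => by simp [h x hx]

theorem Supp.mono {K L : Set M} {μ : M →₀ 𝕜} (h : Supp K μ) (hKL : K ⊆ L) : Supp L μ :=
  fun x hx => h x fun h' => hx (hKL h')

theorem supp_zero (K : Set M) : Supp K (0 : M →₀ 𝕜) := fun _ _ => rfl

theorem supp_single {K : Set M} {z : M} (hz : z ∈ K) (a : 𝕜) : Supp K (single z a) := by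
  intro x hx
  have : z ≠ x := fun h => hx (h ▸ hz)
  exact Finsupp.single_eq_of_ne this.symm

theorem eq_sum_dl (μ : M →₀ 𝕜) : μ = ∑ x ∈ μ.support, μ x • dl 𝕜 x := by
  conv_lhs => rw [← Finsupp.sum_single μ]
  simp [Finsupp.sum]

theorem PSN.eq_zero_of_supp {p : ℝ} {q : (M →₀ 𝕜) → ℝ} (h : PSN 𝕜 p q) (hp : 0 < p)
    {K : Set M} (hK : ∀ z ∈ K, q (dl 𝕜 z) = 0) {μ : M →₀ 𝕜} (hμ : Supp K μ) : q μ = 0 := by
  refine le_antisymm ?_ (h.nonneg _)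
  rw [eq_sum_dl μ]
  refine (h.sum_le hp _ _).trans (le_of_eq (Finset.sum_eq_zero fun x hx => ?_))
  have : x ∈ K := by
    by_contra h'
    exact (Finsupp.mem_support_iff.1 hx) (hμ x h')
  rw [h.smul, hK x this, mul_zero]

theorem PSN.bd_le {p : ℝ} {q : (M →₀ 𝕜) → ℝ} (h : PSN 𝕜 p q) (hp : 0 < p)
    {c : M → M → ℝ} {C : ℝ} (hq : ∀ x y, q (dl 𝕜 x - dl 𝕜 y) ≤ C * c x y)
    (β : (M × M) →₀ 𝕜) : q (bd β) ≤ C * cost p c β := by
  rw [bd_apply, cost, Finset.mul_sum]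
  refine (h.sum_le hp _ _).trans (Finset.sum_le_sum fun e _ => ?_)
  rw [h.smul]
  have := hq e.1 e.2
  have h0 : 0 ≤ ‖β e‖ ^ p := Real.rpow_nonneg (norm_nonneg _) _
  nlinarith

/-- the quotient cost -/
noncomputable def Q (p : ℝ) (c : M → M → ℝ) (K : Set M) (μ : M →₀ 𝕜) : ℝ :=
  sInf {t | ∃ β : (M × M) →₀ 𝕜, Supp K (μ - bd β) ∧ t = cost p c β}

theorem exists_flow {K : Set M} {o : M} (ho : o ∈ K) (μ : M →₀ 𝕜) :
    ∃ β : (M × M) →₀ 𝕜, Supp K (μ - bd β) := by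
  induction μ using Finsupp.induction_linear with
  | zero => exact ⟨0, by simpa using supp_zero K⟩
  | add f g hf hg =>
    obtain ⟨β, hβ⟩ := hf
    obtain ⟨γ, hγ⟩ := hg
    refine ⟨β + γ, ?_⟩
    have : f + g - bd (β + γ) = (f - bd β) + (g - bd γ) := by rw [map_add]; abel
    rw [this]
    exact hβ.add hγ
  | single x a =>
    refine ⟨single (x, o) a, ?_⟩
    have : single x a - bd (single (x, o) a) = single o a := by
      rw [bd_single]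
      simp [smul_sub]
    rw [this]
    exact supp_single ho a

section Qsec

variable {p : ℝ} {c : M → M → ℝ} {K : Set M} {o : M}

theorem Q_le (hp : 0 < p) (hp1 : p ≤ 1) (hc : ∀ x y, 0 ≤ c x y) {μ : M →₀ 𝕜}
    {β : (M × M) →₀ 𝕜} (h : Supp K (μ - bd β)) : Q p c K μ ≤ cost p c β := by
  refine csInf_le ⟨0, ?_⟩ ⟨β, h, rfl⟩
  rintro t ⟨γ, -, rfl⟩
  exact (psn_cost hp hp1 hc).nonneg γ

theorem le_Q (ho : o ∈ K) {μ : M →₀ 𝕜} {t : ℝ}
    (h : ∀ β : (M × M) →₀ 𝕜, Supp K (μ - bd β) → t ≤ cost p c β) : t ≤ Q p c K μ := by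
  obtain ⟨β, hβ⟩ := exists_flow ho μ
  refine le_csInf ⟨_, β, hβ, rfl⟩ ?_
  rintro t ⟨γ, hγ, rfl⟩
  exact h γ hγ

theorem le_mul_Q (ho : o ∈ K) {μ : M →₀ 𝕜} {t C : ℝ} (hC : 0 ≤ C)
    (h : ∀ β : (M × M) →₀ 𝕜, Supp K (μ - bd β) → t ≤ C * cost p c β) : t ≤ C * Q p c K μ := by
  rcases hC.eq_or_lt with rfl | hC
  · obtain ⟨β, hβ⟩ := exists_flow ho μ
    simpa using h β hβ
  · rw [mul_comm, ← div_le_iff₀ hC]
    refine le_Q ho fun β hβ => ?_
    rw [div_le_iff₀ hC, mul_comm]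
    exact h β hβ

theorem exists_lt_of_Q_lt (ho : o ∈ K) {μ : M →₀ 𝕜} {t : ℝ} (h : Q p c K μ < t) :
    ∃ β : (M × M) →₀ 𝕜, Supp K (μ - bd β) ∧ cost p c β < t := by
  by_contra hn
  push Not at hn
  exact absurd (le_Q ho hn) (not_le.2 h)

theorem psn_Q (hp : 0 < p) (hp1 : p ≤ 1) (hc : ∀ x y, 0 ≤ c x y) (ho : o ∈ K) :
    PSN 𝕜 p (Q (𝕜 := 𝕜) p c K) := by
  have hco := psn_cost (𝕜 := 𝕜) hp hp1 hc
  refine PSN.of_le hp (fun μ => le_Q ho fun β _ => hco.nonneg β) (fun μ ν => ?_) (fun a μ => ?_)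
  · rw [← sub_le_iff_le_add]
    refine le_Q ho fun β hβ => ?_
    rw [sub_le_comm]
    refine le_Q ho fun γ hγ => ?_
    have : Supp K (μ + ν - bd (β + γ)) := by
      have : μ + ν - bd (β + γ) = (μ - bd β) + (ν - bd γ) := by rw [map_add]; abel
      rw [this]
      exact hβ.add hγ
    have h1 := Q_le hp hp1 hc this
    have h2 := hco.add β γ
    linarith
  · refine le_mul_Q ho (Real.rpow_nonneg (norm_nonneg _) _) fun β hβ => ?_
    have : Supp K (a • μ - bd (a • β)) := by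
      rw [map_smul, ← smul_sub]
      exact hβ.smul a
    exact (Q_le hp hp1 hc this).trans (le_of_eq (hco.smul a β))

theorem Q_eq_zero (hp : 0 < p) (hp1 : p ≤ 1) (hc : ∀ x y, 0 ≤ c x y) (ho : o ∈ K)
    {μ : M →₀ 𝕜} (h : Supp K μ) : Q p c K μ = 0 := by
  refine le_antisymm ?_ ((psn_Q hp hp1 hc ho).nonneg _)
  have : Supp K (μ - bd 0) := by simpa using h
  exact (Q_le hp hp1 hc this).trans (le_of_eq ((psn_cost hp hp1 hc).zero hp))

theorem Q_edge (hp : 0 < p) (hp1 : p ≤ 1) (hc : ∀ x y, 0 ≤ c x y) (x y : M) :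
    Q p c K (dl 𝕜 x - dl 𝕜 y) ≤ c x y := by
  have : Supp K (dl 𝕜 x - dl 𝕜 y - bd (single (x, y) (1 : 𝕜))) := by
    rw [bd_single]
    simpa using supp_zero K
  refine (Q_le hp hp1 hc this).trans (le_of_eq ?_)
  rw [cost_single hp]
  simp

theorem Q_dl (hp : 0 < p) (hp1 : p ≤ 1) (hc : ∀ x y, 0 ≤ c x y) (ho : o ∈ K) (x : M) {z : M}
    (hz : z ∈ K) : Q p c K (dl 𝕜 x) ≤ c x z := by
  have h := (psn_Q (𝕜 := 𝕜) hp hp1 hc ho).le_add_sub (dl 𝕜 x) (dl 𝕜 z)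
  rw [Q_eq_zero hp hp1 hc ho (supp_single hz 1)] at h
  have := Q_edge (𝕜 := 𝕜) (K := K) hp hp1 hc x z
  linarith

/-- The universal property of `Q`. -/
theorem PSN.le_Q {q : (M →₀ 𝕜) → ℝ} (h : PSN 𝕜 p q) (hp : 0 < p) (ho : o ∈ K) {C : ℝ}
    (hC : 0 ≤ C) (hq : ∀ x y, q (dl 𝕜 x - dl 𝕜 y) ≤ C * c x y)
    (hK : ∀ z ∈ K, q (dl 𝕜 z) = 0) (μ : M →₀ 𝕜) : q μ ≤ C * Q p c K μ := by
  refine le_mul_Q ho hC fun β hβ => ?_
  have h1 := h.le_add_sub μ (bd β)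
  rw [h.eq_zero_of_supp hp hK hβ, add_zero] at h1
  exact h1.trans (h.bd_le hp hq β)

theorem Q_mono (hp : 0 < p) (hp1 : p ≤ 1) {c' : M → M → ℝ} (hc : ∀ x y, 0 ≤ c x y)
    (hcc : ∀ x y, c x y ≤ c' x y) {L : Set M} (ho : o ∈ L) (hLK : L ⊆ K) (μ : M →₀ 𝕜) :
    Q p c K μ ≤ Q p c' L μ := by
  have := (psn_Q (𝕜 := 𝕜) hp hp1 hc (hLK ho)).le_Q (c := c') hp ho zero_le_one
    (fun x y => by rw [one_mul]; exact (Q_edge hp hp1 hc x y).trans (hcc x y))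
    (fun z hz => Q_eq_zero hp hp1 hc (hLK ho) (supp_single (hLK hz) 1)) μ
  rwa [one_mul] at this

/-- approximation by an element supported in `K` -/
theorem exists_approx (hp : 0 < p) (hp1 : p ≤ 1) (hc : ∀ x y, 0 ≤ c x y) (ho : o ∈ K)
    {μ : M →₀ 𝕜} {t : ℝ} (h : Q p c K μ < t) :
    ∃ ν : M →₀ 𝕜, Supp K ν ∧ Q p c {o} (μ - ν) < t := by
  obtain ⟨β, hβ, hlt⟩ := exists_lt_of_Q_lt ho h
  refine ⟨μ - bd β, hβ, lt_of_le_of_lt (Q_le hp hp1 hc (β := β) ?_) hlt⟩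
  simpa using supp_zero ({o} : Set M)

end Qsec

/-- multiplication by a real function -/
noncomputable def mulL (φ : M → ℝ) : (M →₀ 𝕜) →ₗ[𝕜] (M →₀ 𝕜) :=
  Finsupp.linearCombination 𝕜 (fun x => (φ x : 𝕜) • dl 𝕜 x)

theorem mulL_dl (φ : M → ℝ) (x : M) : mulL φ (dl 𝕜 x) = (φ x : 𝕜) • dl 𝕜 x := by
  simp [mulL]

theorem mulL_apply (φ : M → ℝ) (μ : M →₀ 𝕜) (x : M) : mulL φ μ x = (φ x : 𝕜) * μ x := by
  classical
  induction μ using Finsupp.induction_linear with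
  | zero => simp
  | add f g hf hg => simp [hf, hg, mul_add]
  | single y a =>
    have : mulL φ (single y a) = a • ((φ y : 𝕜) • dl 𝕜 y) := by simp [mulL]
    rw [this]
    by_cases h : y = x
    · subst h
      rw [Finsupp.smul_apply, Finsupp.smul_apply, Finsupp.single_eq_same, Finsupp.single_eq_same,
        smul_eq_mul, smul_eq_mul, mul_one, mul_comm]
    · simp [h]

/-- estimate of a multiplier on one edge -/
theorem mul_edge {p : ℝ} {q : (M →₀ 𝕜) → ℝ} (h : PSN 𝕜 p q) (hp : 0 < p) (φ : M → ℝ) (x y : M)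
    (hφ : |φ y| ≤ 1) :
    q (mulL φ (dl 𝕜 x - dl 𝕜 y)) ≤ q (dl 𝕜 x - dl 𝕜 y) + |φ x - φ y| ^ p * q (dl 𝕜 x) := by
  have e : mulL φ (dl 𝕜 x - dl 𝕜 y) =
      (φ y : 𝕜) • (dl 𝕜 x - dl 𝕜 y) + ((φ x - φ y : ℝ) : 𝕜) • dl 𝕜 x := by
    rw [map_sub, mulL_dl, mulL_dl, RCLike.ofReal_sub, sub_smul, smul_sub]
    abel
  rw [e]
  refine (h.add _ _).trans ?_
  rw [h.smul, h.smul, RCLike.norm_ofReal, RCLike.norm_ofReal]
  have h1 : |φ y| ^ p ≤ 1 := Real.rpow_le_one (abs_nonneg _) hφ hp.le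
  have h2 := h.nonneg (dl 𝕜 x - dl 𝕜 y)
  nlinarith

end Pool.Agent.H13Z.FreeP
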