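import Pool.Agent.H13Z.FreeP.Rosenthal

/-!
Families that cannot be approximated near finite sets contain lower `ℓ_p` sequences.
-/

namespace Pool.Agent.H13Z.FreeP

open Finsupp Metric

variable {𝕜 : Type} [RCLike 𝕜] {M : Type*} [MetricSpace M]

/-- the cost `d(x,y)^p` -/
noncomputable def dp (p : ℝ) (x y : M) : ℝ := dist x y ^ p

theorem dp_nonneg (p : ℝ) (x y : M) : 0 ≤ dp p x y := Real.rpow_nonneg dist_nonneg _

theorem dp_comm (p : ℝ) (x y : M) : dp p x y = dp p y x := by rw [dp, dp, dist_comm]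

theorem cut_edge {p : ℝ} {q : (M →₀ 𝕜) → ℝ} (h : PSN 𝕜 p q) (hp : 0 < p)
    (hq : ∀ x y, q (dl 𝕜 x - dl 𝕜 y) ≤ dp p x y) (φ : M → ℝ) (hφ : ∀ x, |φ x| ≤ 1) {L : ℝ}
    (x y : M) (hL : |φ x - φ y| ^ p * q (dl 𝕜 x) ≤ L * dp p x y ∨
      |φ x - φ y| ^ p * q (dl 𝕜 y) ≤ L * dp p x y) :
    q (mulL φ (dl 𝕜 x - dl 𝕜 y)) ≤ (1 + L) * dp p x y := by
  rcases hL with hL | hL
  · have := mul_edge h hp φ x y (hφ y)
    have := hq x y
    linarith
  · have h1 := mul_edge h hp φ y x (hφ x)
    have h2 := hq y x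
    rw [abs_sub_comm] at h1
    rw [dp_comm] at h2
    rw [← neg_sub, map_neg, h.neg]
    linarith

theorem rpow_mul_le {p : ℝ} (hp : 0 < p) {a b t L d : ℝ} (ha : 0 ≤ a) (hb : 0 ≤ b) (hL : 0 ≤ L)
    (hd : 0 ≤ d) (ht : t ≤ b ^ p) (h : a * b ≤ L * d) : a ^ p * t ≤ L ^ p * d ^ p := by
  calc a ^ p * t ≤ a ^ p * b ^ p := by gcongr
    _ = (a * b) ^ p := (Real.mul_rpow ha hb).symm
    _ ≤ (L * d) ^ p := Real.rpow_le_rpow (mul_nonneg ha hb) h hp.le
    _ = L ^ p * d ^ p := Real.mul_rpow hL hd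

/-- conical neighbourhood of a finite set -/
def cone (o : M) (δ : ℝ) (E : Finset M) : Set M :=
  {x | infDist x (E : Set M) ≤ δ * (1 + dist x o)}

theorem mem_cone_of_mem {o : M} {δ : ℝ} (hδ : 0 < δ) {E : Finset M} {x : M} (hx : x ∈ E) :
    x ∈ cone o δ E := by
  change infDist x (E : Set M) ≤ _
  rw [infDist_zero_of_mem (by exact_mod_cast hx)]
  positivity

theorem cone_mono {o : M} {δ : ℝ} {E F : Finset M} (ho : o ∈ E) (h : E ⊆ F) :
    cone o δ E ⊆ cone o δ F := fun x hx =>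
  (infDist_le_infDist_of_subset (by exact_mod_cast h) ⟨o, by exact_mod_cast ho⟩).trans hx

/-- the conical bump function -/
noncomputable def bump (o : M) (δ : ℝ) (E : Finset M) (x : M) : ℝ :=
  max 0 (1 - infDist x (E : Set M) / (δ * (1 + dist x o)))

theorem bump_abs {o : M} {δ : ℝ} (hδ : 0 < δ) (E : Finset M) (x : M) : |bump o δ E x| ≤ 1 := by
  have : 0 ≤ infDist x (E : Set M) / (δ * (1 + dist x o)) :=
    div_nonneg infDist_nonneg (by positivity)
  rw [abs_of_nonneg (le_max_left _ _)]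
  exact max_le zero_le_one (by linarith)

theorem bump_of_mem {o : M} {δ : ℝ} {E : Finset M} {x : M} (hx : x ∈ E) : bump o δ E x = 1 := by
  rw [bump, infDist_zero_of_mem (by exact_mod_cast hx)]
  simp

theorem mem_cone_of_bump {o : M} {δ : ℝ} (hδ : 0 < δ) {E : Finset M} {x : M}
    (hx : bump o δ E x ≠ 0) : x ∈ cone o δ E := by
  by_contra h
  apply hx
  have h1 : δ * (1 + dist x o) < infDist x (E : Set M) := not_le.1 h
  have h2 : 0 < δ * (1 + dist x o) := by positivity
  have : 1 ≤ infDist x (E : Set M) / (δ * (1 + dist x o)) := by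
    rw [le_div_iff₀ h2]; linarith
  exact max_eq_left (by linarith)

theorem bump_lip {o : M} {δ : ℝ} (hδ : 0 < δ) (E : Finset M) (x y : M) (hy : y ∈ cone o δ E) :
    |bump o δ E x - bump o δ E y| * dist x o ≤ (1 + δ) / δ * dist x y := by
  set a := infDist x (E : Set M)
  set b := infDist y (E : Set M)
  set u := 1 + dist x o
  set v := 1 + dist y o
  have hu : 0 < u := by positivity
  have hv : 0 < v := by positivity
  have hb0 : 0 ≤ b := infDist_nonneg
  have hb : b ≤ δ * v := hy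
  have hab : |a - b| ≤ dist x y := by
    have := (lipschitz_infDist_pt (E : Set M)).dist_le_mul x y
    simpa [Real.dist_eq] using this
  have huv : |v - u| ≤ dist x y := by
    have := abs_dist_sub_le y x o
    rw [dist_comm y x] at this
    simpa [u, v] using this
  have h1 : |bump o δ E x - bump o δ E y| ≤ |a / (δ * u) - b / (δ * v)| := by
    have := abs_max_sub_max_le_abs (1 - a / (δ * u)) (1 - b / (δ * v)) 0
    rw [bump, bump, max_comm 0, max_comm 0]
    refine this.trans (le_of_eq ?_)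
    rw [abs_sub_comm]; congr 1; ring
  have h2 : a / (δ * u) - b / (δ * v) = ((a - b) + b / v * (v - u)) / (δ * u) := by
    field_simp; ring
  have h3 : |(a - b) + b / v * (v - u)| ≤ (1 + δ) * dist x y := by
    have h4 : b / v ≤ δ := by rw [div_le_iff₀ hv]; exact hb
    have h5 : 0 ≤ b / v := div_nonneg hb0 hv.le
    calc |(a - b) + b / v * (v - u)| ≤ |a - b| + |b / v * (v - u)| := abs_add_le _ _
      _ = |a - b| + b / v * |v - u| := by rw [abs_mul, abs_of_nonneg h5]
      _ ≤ dist x y + δ * dist x y := by gcongr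
      _ = (1 + δ) * dist x y := by ring
  have h6 : |a / (δ * u) - b / (δ * v)| ≤ (1 + δ) * dist x y / (δ * u) := by
    rw [h2, abs_div, abs_of_pos (by positivity : 0 < δ * u)]
    gcongr
  have h7 : dist x o ≤ u := by simp [u]
  calc |bump o δ E x - bump o δ E y| * dist x o ≤ (1 + δ) * dist x y / (δ * u) * u := by
        gcongr; exact h1.trans h6
    _ = (1 + δ) / δ * dist x y := by field_simp

theorem bump_edge {p : ℝ} (hp : 0 < p) (hp1 : p ≤ 1) {o : M} {δ : ℝ} (hδ : 0 < δ)
    (E : Finset M) {K : Set M} (ho : o ∈ K) (x y : M) :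
    Q p (dp p) K (mulL (bump o δ E) (dl 𝕜 x - dl 𝕜 y)) ≤
      (1 + ((1 + δ) / δ) ^ p) * dp p x y := by
  have hQ := psn_Q (𝕜 := 𝕜) hp hp1 (dp_nonneg p) ho
  refine cut_edge hQ hp (Q_edge hp hp1 (dp_nonneg p)) _ (bump_abs hδ E) x y ?_
  have hL : 0 ≤ (1 + δ) / δ := by positivity
  by_cases hy : bump o δ E y = 0
  · by_cases hx : bump o δ E x = 0
    · left
      rw [hx, hy, sub_self, abs_zero, Real.zero_rpow hp.ne', zero_mul]
      exact mul_nonneg (Real.rpow_nonneg hL _) (dp_nonneg _ _ _)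
    · right
      have := bump_lip hδ E y x (mem_cone_of_bump hδ hx)
      rw [abs_sub_comm, dist_comm y x] at this
      exact rpow_mul_le hp (abs_nonneg _) dist_nonneg hL dist_nonneg
        (Q_dl hp hp1 (dp_nonneg p) ho y ho) this
  · left
    exact rpow_mul_le hp (abs_nonneg _) dist_nonneg hL dist_nonneg
      (Q_dl hp hp1 (dp_nonneg p) ho x ho) (bump_lip hδ E x y (mem_cone_of_bump hδ hy))

theorem sum_le_two {S : Finset ℕ} {g : ℕ → ℝ} {P R : ℕ → Prop} {t : ℝ} (ht : 0 ≤ t)
    (hg : ∀ j, g j ≤ t) (h0 : ∀ j, ¬ P j → ¬ R j → g j ≤ 0)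
    (hP : ∀ i j, P i → P j → i = j) (hR : ∀ i j, R i → R j → i = j) :
    ∑ j ∈ S, g j ≤ 2 * t := by
  classical
  have key : ∀ (T : ℕ → Prop), (∀ i j, T i → T j → i = j) →
      ∑ j ∈ S, (if T j then t else 0) ≤ t := by
    intro T hT
    rw [← Finset.sum_filter, Finset.sum_const, nsmul_eq_mul]
    have : (S.filter T).card ≤ 1 := Finset.card_le_one.2 fun a ha b hb =>
      hT a b (Finset.mem_filter.1 ha).2 (Finset.mem_filter.1 hb).2
    have : ((S.filter T).card : ℝ) ≤ 1 := by exact_mod_cast this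
    nlinarith
  calc ∑ j ∈ S, g j ≤ ∑ j ∈ S, ((if P j then t else 0) + (if R j then t else 0)) := by
        refine Finset.sum_le_sum fun j _ => ?_
        have h3 := hg j
        have h4 := h0 j
        by_cases h1 : P j <;> by_cases h2 : R j
        · rw [if_pos h1, if_pos h2]; linarith
        · rw [if_pos h1, if_neg h2]; linarith
        · rw [if_neg h1, if_pos h2]; linarith
        · rw [if_neg h1, if_neg h2]; linarith [h4 h1 h2]
    _ ≤ t + t := by rw [Finset.sum_add_distrib]; exact add_le_add (key P hP) (key R hR)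
    _ = 2 * t := by ring

/-- If a bounded family cannot be approximated inside conical neighbourhoods of finite sets, it
contains a sequence with a lower `ℓ_p` estimate, with a constant depending on `ε, δ, p` only. -/
theorem caseA {p : ℝ} (hp : 0 < p) (hp1 : p ≤ 1) (o : M) {ε δ : ℝ} (hε : 0 < ε) (hδ : 0 < δ)
    {ι : Type*} (μ : ι → (M →₀ 𝕜)) {B : ℝ} (hB : ∀ i, Q p (dp p) {o} (μ i) ≤ B)
    (hfail : ∀ E : Finset M, o ∈ E → ∃ i, ε ≤ Q p (dp p) (cone o δ E) (μ i)) :
    ∃ f : ℕ → ι, Lower 𝕜 p (Q p (dp p) {o}) (ε / (2 * (2 * (1 + ((1 + δ) / δ) ^ p))))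
      (fun j => μ (f j)) := by
  classical
  have : Nonempty ι := ⟨(hfail {o} (Finset.mem_singleton_self o)).choose⟩
  choose! sel hsel using fun (E : Finset M) (h : o ∈ E) => hfail E h
  let E : ℕ → Finset M := fun n => Nat.rec {o} (fun _ F => F ∪ (μ (sel F)).support) n
  have hEs : ∀ n, E (n + 1) = E n ∪ (μ (sel (E n))).support := fun n => rfl
  have hmono : Monotone E := monotone_nat_of_le_succ fun n => by
    rw [hEs]; exact Finset.subset_union_left
  have hoE : ∀ n, o ∈ E n := fun n => hmono (Nat.zero_le n) (Finset.mem_singleton_self o)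
  have hoK : ∀ n, o ∈ cone o δ (E n) := fun n => mem_cone_of_mem hδ (hoE n)
  set L := 1 + ((1 + δ) / δ) ^ p with hL
  have hL0 : 0 < L := by positivity
  let q : ℕ → (M →₀ 𝕜) → ℝ := fun j ν =>
    Q p (dp p) (cone o δ (E j)) (mulL (bump o δ (E (j + 1))) ν)
  have hq : ∀ j, PSN 𝕜 p (q j) := fun j => (psn_Q hp hp1 (dp_nonneg p) (hoK j)).comp _
  let U : ℕ → M → Prop := fun j x => x ∈ cone o δ (E (j + 1)) ∧ x ∉ cone o δ (E j)
  have hU : ∀ x i j, U i x → U j x → i = j := by
    intro x i j hi hj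
    by_contra hne
    rcases lt_or_gt_of_ne hne with h | h
    · exact hj.2 (cone_mono (hoE _) (hmono h) hi.1)
    · exact hi.2 (cone_mono (hoE _) (hmono h) hj.1)
  have hzero : ∀ j x, ¬ U j x → q j (dl 𝕜 x) = 0 := by
    intro j x hx
    refine Q_eq_zero hp hp1 (dp_nonneg p) (hoK j) ?_
    rw [mulL_dl]
    by_cases h : bump o δ (E (j + 1)) x = 0
    · rw [h]; simpa using supp_zero _
    · have h1 := mem_cone_of_bump hδ h
      have h2 : x ∈ cone o δ (E j) := by
        by_contra h3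
        exact hx ⟨h1, h3⟩
      exact (supp_single h2 1).smul _
  have hsum : ∀ (S : Finset ℕ) ν, ∑ j ∈ S, q j ν ≤ 2 * L * Q p (dp p) {o} ν := by
    intro S
    refine (PSN.finsum S q fun j _ => hq j).le_Q hp (Set.mem_singleton o) (by positivity)
      (fun x y => ?_) (fun z hz => ?_)
    · rw [mul_assoc]
      refine sum_le_two (P := fun j => U j x) (R := fun j => U j y)
        (mul_nonneg hL0.le (dp_nonneg _ _ _)) (fun j => bump_edge hp hp1 hδ _ (hoK j) x y)
        (fun j h1 h2 => ?_) (hU x) (hU y)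
      have := (hq j).sub (dl 𝕜 x) (dl 𝕜 y)
      rw [hzero j x h1, hzero j y h2] at this
      simpa using this
    · rw [Set.mem_singleton_iff.1 hz]
      exact Finset.sum_eq_zero fun j _ => hzero j o fun h => h.2 (hoK j)
  have hx : ∀ j, ε ≤ q j (μ (sel (E j))) := by
    intro j
    have : mulL (bump o δ (E (j + 1))) (μ (sel (E j))) = μ (sel (E j)) := by
      ext x
      rw [mulL_apply]
      by_cases h : x ∈ (μ (sel (E j))).support
      · rw [bump_of_mem (by rw [hEs]; exact Finset.mem_union_right _ h)]; simp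
      · rw [Finsupp.notMem_support_iff.1 h]; simp
    change ε ≤ Q p (dp p) _ (mulL _ _)
    rw [this]
    exact hsel _ (hoE j)
  obtain ⟨f, -, hf⟩ := lower_of_family hp q hq (by positivity : 0 < 2 * L) hε hsum
    (fun j => μ (sel (E j))) (fun j => hB _) hx
  exact ⟨fun j => sel (E (f j)), hf⟩

end Pool.Agent.H13Z.FreeP
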