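import Pool.Agent.H13Z.FreeP.Round

/-!
Separated sequences that can be approximated near finite sets: a gliding hump over scales.
-/

namespace Pool.Agent.H13Z.FreeP

open Finsupp Metric Filter Topology

/-- piecewise linear cutoff -/
noncomputable def cutf (α β u : ℝ) : ℝ := max 0 (min 1 ((β - u) / (β - α)))

theorem cutf_abs (α β u : ℝ) : |cutf α β u| ≤ 1 := by
  rw [cutf, abs_of_nonneg (le_max_left _ _)]
  exact max_le zero_le_one (min_le_left _ _)

theorem cutf_one {α β u : ℝ} (h : α < β) (hu : u ≤ α) : cutf α β u = 1 := by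
  have : 1 ≤ (β - u) / (β - α) := by rw [le_div_iff₀ (by linarith)]; linarith
  rw [cutf, min_eq_left this, max_eq_right zero_le_one]

theorem cutf_zero {α β u : ℝ} (h : α < β) (hu : β ≤ u) : cutf α β u = 0 := by
  have : (β - u) / (β - α) ≤ 0 := div_nonpos_of_nonpos_of_nonneg (by linarith) (by linarith)
  exact max_eq_left ((min_le_right _ _).trans this)

theorem cutf_lip {α β : ℝ} (h : α < β) (u v : ℝ) :
    |cutf α β u - cutf α β v| ≤ |u - v| / (β - α) := by
  have h1 := abs_max_sub_max_le_abs (min 1 ((β - u) / (β - α))) (min 1 ((β - v) / (β - α))) 0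
  have h2 := abs_min_sub_min_le_max 1 ((β - u) / (β - α)) 1 ((β - v) / (β - α))
  rw [sub_self, abs_zero, max_eq_right (abs_nonneg _)] at h2
  rw [cutf, cutf, max_comm 0, max_comm 0]
  refine h1.trans (h2.trans (le_of_eq ?_))
  rw [← sub_div, abs_div, abs_of_pos (by linarith : 0 < β - α), abs_sub_comm]
  congr 2; ring

variable {𝕜 : Type} [RCLike 𝕜] {M : Type*} [MetricSpace M]

theorem cut_Q {p : ℝ} (hp : 0 < p) (hp1 : p ≤ 1) {o : M} {K : Set M} (ho : o ∈ K) {a : M → ℝ}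
    (ha0 : ∀ x, 0 ≤ a x) (ha : ∀ x y, |a x - a y| ≤ dist x y)
    (hK : ∀ x, Q p (dp p) K (dl 𝕜 x) ≤ a x ^ p) {α β : ℝ} (h : α < β) (h3 : β ≤ 3 * (β - α))
    (x y : M) :
    Q p (dp p) K (mulL (fun z => cutf α β (a z)) (dl 𝕜 x - dl 𝕜 y)) ≤ 4 * dp p x y := by
  have hQ := psn_Q (𝕜 := 𝕜) hp hp1 (dp_nonneg p) ho
  have h33 : (3 : ℝ) ^ p ≤ 3 := by
    calc (3 : ℝ) ^ p ≤ 3 ^ (1 : ℝ) := Real.rpow_le_rpow_of_exponent_le (by norm_num) hp1
      _ = 3 := Real.rpow_one 3
  have hlip : |cutf α β (a x) - cutf α β (a y)| ≤ dist x y / (β - α) :=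
    (cutf_lip h _ _).trans (div_le_div_of_nonneg_right (ha x y) (by linarith))
  have key : ∀ z, cutf α β (a z) ≠ 0 →
      |cutf α β (a x) - cutf α β (a y)| ^ p * Q p (dp p) K (dl 𝕜 z) ≤ 3 ^ p * dp p x y := by
    intro z hz
    have hz' : a z ≤ 3 * (β - α) := by
      by_contra hc
      exact hz (cutf_zero h (by linarith))
    refine rpow_mul_le hp (abs_nonneg _) (ha0 z) (by norm_num) dist_nonneg (hK z) ?_
    have hβ : 0 < β - α := by linarith
    calc |cutf α β (a x) - cutf α β (a y)| * a z ≤ dist x y / (β - α) * (3 * (β - α)) := by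
          gcongr; exact ha0 z
      _ = 3 * dist x y := by field_simp
  have := cut_edge hQ hp (Q_edge hp hp1 (dp_nonneg p)) (fun z => cutf α β (a z))
    (fun z => cutf_abs _ _ _) (L := 3 ^ p) x y (by
      by_cases hx : cutf α β (a x) = 0
      · by_cases hy : cutf α β (a y) = 0
        · left
          rw [hx, hy, sub_self, abs_zero, Real.zero_rpow hp.ne', zero_mul]
          exact mul_nonneg (by positivity) (dp_nonneg _ _ _)
        · exact Or.inr (key y hy)
      · exact Or.inl (key x hx))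
  have h0 := dp_nonneg p x y
  nlinarith

/-- closed neighbourhood of a finite set -/
def nb (r : ℝ) (E : Finset M) : Set M := {x | infDist x (E : Set M) ≤ r}

/-- points far from a finite set -/
def far (r : ℝ) (E : Finset M) : Set M := {x | r ≤ infDist x (E : Set M)}

theorem mem_nb {r : ℝ} (hr : 0 ≤ r) {E : Finset M} {x : M} (hx : x ∈ E) : x ∈ nb r E := by
  change infDist x (E : Set M) ≤ _
  rwa [infDist_zero_of_mem (by exact_mod_cast hx)]

theorem exists_near {E : Finset M} {o : M} (ho : o ∈ E) (x : M) :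
    ∃ e ∈ E, infDist x (E : Set M) = dist x e := by
  obtain ⟨e, he, h⟩ := E.finite_toSet.isCompact.exists_infDist_eq_dist
    ⟨o, by exact_mod_cast ho⟩ x
  exact ⟨e, by exact_mod_cast he, h⟩

theorem infDist_lip (E : Set M) (x y : M) : |infDist x E - infDist y E| ≤ dist x y := by
  have := (lipschitz_infDist_pt E).dist_le_mul x y
  simpa [Real.dist_eq] using this

/-- from conical neighbourhoods to ordinary neighbourhoods -/
theorem kalton_of_cone {p : ℝ} (hp : 0 < p) (hp1 : p ≤ 1) (o : M) {ι : Type*}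
    (μ : ι → (M →₀ 𝕜))
    (h : ∀ ε > 0, ∀ δ > 0, ∃ E : Finset M, o ∈ E ∧ ∀ i, Q p (dp p) (cone o δ E) (μ i) < ε)
    {ε r : ℝ} (hε : 0 < ε) (hr : 0 < r) :
    ∃ E : Finset M, o ∈ E ∧ ∀ i, Q p (dp p) (nb r E) (μ i) ≤ ε := by
  obtain ⟨E1, ho1, h1⟩ := h (ε / 9) (by positivity) (1 / 2) (by norm_num)
  obtain ⟨R, hR0, hR⟩ : ∃ R > 0, ∀ x ∈ cone o (1 / 2) E1, dist x o ≤ R := by
    obtain ⟨e0, -, he0⟩ := Finset.exists_max_image E1 (fun e => dist e o) ⟨o, ho1⟩
    refine ⟨2 * dist e0 o + 1, by positivity, fun x hx => ?_⟩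
    obtain ⟨e, he, hd⟩ := exists_near ho1 x
    have h2 : infDist x (E1 : Set M) ≤ 1 / 2 * (1 + dist x o) := hx
    have h3 := dist_triangle x e o
    have h4 := he0 e he
    linarith
  have hδ : 0 < r / (1 + 2 * R) := by positivity
  obtain ⟨E, ho, h2⟩ := h (ε / 9) (by positivity) _ hδ
  refine ⟨E, ho, fun i => ?_⟩
  have hoN : o ∈ nb r E := mem_nb hr.le ho
  let ψ : M → ℝ := fun z => cutf R (2 * R) (dist z o)
  have hRR : R < 2 * R := by linarith
  have hN := psn_Q (𝕜 := 𝕜) hp hp1 (dp_nonneg p) hoN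
  have hedge : ∀ x y, Q p (dp p) (nb r E) (mulL ψ (dl 𝕜 x - dl 𝕜 y)) ≤ 4 * dp p x y :=
    cut_Q hp hp1 hoN (fun _ => dist_nonneg) (fun x y => abs_dist_sub_le x y o)
      (fun x => Q_dl hp hp1 (dp_nonneg p) hoN x hoN) hRR (by linarith)
  have b1 := (hN.comp (mulL ψ)).le_Q (c := dp p) hp (mem_cone_of_mem hδ ho) (by norm_num) hedge
    (fun z hz => by
      refine Q_eq_zero hp hp1 (dp_nonneg p) hoN ?_
      rw [mulL_dl]
      by_cases hz2 : 2 * R ≤ dist z o
      · have : ψ z = 0 := cutf_zero hRR hz2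
        rw [this]; simpa using supp_zero _
      · refine (supp_single ?_ 1).smul _
        have h3 : infDist z (E : Set M) ≤ r / (1 + 2 * R) * (1 + dist z o) := hz
        refine h3.trans ?_
        calc r / (1 + 2 * R) * (1 + dist z o) ≤ r / (1 + 2 * R) * (1 + 2 * R) := by
              gcongr; linarith
          _ = r := by field_simp) (μ i)
  have b2 := (hN.comp (LinearMap.id - mulL ψ)).le_Q (c := dp p) hp
    (mem_cone_of_mem (by norm_num : (0 : ℝ) < 1 / 2) ho1) (C := 5) (by norm_num)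
    (fun x y => by
      have h3 := hN.sub (dl 𝕜 x - dl 𝕜 y) (mulL ψ (dl 𝕜 x - dl 𝕜 y))
      have h4 := hedge x y
      have h5 := Q_edge (𝕜 := 𝕜) (K := nb r E) hp hp1 (dp_nonneg p) x y
      change Q p (dp p) (nb r E) ((dl 𝕜 x - dl 𝕜 y) - mulL ψ (dl 𝕜 x - dl 𝕜 y)) ≤ _
      linarith)
    (fun z hz => by
      change Q p (dp p) (nb r E) (dl 𝕜 z - mulL ψ (dl 𝕜 z)) = 0
      have : ψ z = 1 := cutf_one hRR (hR z hz)
      rw [mulL_dl, this]
      simpa using hN.zero hp) (μ i)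
  have b3 := hN.le_add_sub (μ i) (mulL ψ (μ i))
  change Q p (dp p) (nb r E) (μ i - mulL ψ (μ i)) ≤ _ at b2
  have := h1 i
  have := h2 i
  linarith

theorem exists_sep (A : Finset M) : ∃ s > 0, ∀ x ∈ A, ∀ y ∈ A, dist x y < s → x = y := by
  classical
  by_cases h : A.offDiag.Nonempty
  · obtain ⟨e, he, hmin⟩ := Finset.exists_min_image A.offDiag (fun e => dist e.1 e.2) h
    refine ⟨dist e.1 e.2, dist_pos.2 (Finset.mem_offDiag.1 he).2.2, fun x hx y hy hlt => ?_⟩
    by_contra hne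
    exact absurd (hmin (x, y) (Finset.mem_offDiag.2 ⟨hx, hy, hne⟩)) (not_le.2 hlt)
  · refine ⟨1, one_pos, fun x hx y hy _ => ?_⟩
    by_contra hne
    exact h ⟨(x, y), Finset.mem_offDiag.2 ⟨hx, hy, hne⟩⟩

theorem coeff_bound {p : ℝ} (hp : 0 < p) (hp1 : p ≤ 1) {o : M} {E : Finset M} (ho : o ∈ E)
    {s : ℝ} (hs : 0 < s) (hE : ∀ x ∈ E, ∀ y ∈ E, dist x y < s → x = y) {e : M} (he : e ∈ E)
    (heo : e ≠ o) {ν : M →₀ ℝ} (hν : Supp (E : Set M) ν) :
    |ν e| ^ p ≤ (1 / s) ^ p * Q p (dp p) {o} ν := by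
  let f : M → ℝ := fun x => cutf 0 s (dist x e)
  have hf0 : ∀ x ∈ E, x ≠ e → f x = 0 := fun x hx hne =>
    cutf_zero hs (not_lt.1 fun h => hne (hE x hx e he h))
  let L : (M →₀ ℝ) →ₗ[ℝ] ℝ := Finsupp.linearCombination ℝ f
  have hL : ∀ x, L (dl ℝ x) = f x := fun x => by simp [L]
  have h1 := ((psn_norm (𝕜 := ℝ) hp hp1).comp L).le_Q (c := dp p) hp (Set.mem_singleton o)
    (C := (1 / s) ^ p) (by positivity)
    (fun x y => by
      rw [map_sub, hL, hL, dp, ← Real.mul_rpow (by positivity) dist_nonneg]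
      refine Real.rpow_le_rpow (norm_nonneg _) ?_ hp.le
      refine (cutf_lip hs _ _).trans ?_
      rw [sub_zero, one_div, inv_mul_eq_div]
      exact div_le_div_of_nonneg_right (abs_dist_sub_le x y e) hs.le)
    (fun z hz => by
      rw [Set.mem_singleton_iff.1 hz, hL, hf0 o ho heo.symm]
      simp [Real.zero_rpow hp.ne']) ν
  have h2 : L ν = ν e := by
    rw [Finsupp.linearCombination_apply, Finsupp.sum, Finset.sum_eq_single e]
    · have : f e = 1 := cutf_one hs (by simp)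
      rw [this]; simp
    · intro x hx hne
      have : x ∈ E := by
        by_contra hc
        exact (Finsupp.mem_support_iff.1 hx) (hν x (by exact_mod_cast hc))
      rw [hf0 x this hne]; simp
    · intro h; rw [Finsupp.notMem_support_iff.1 h]; simp
  rwa [h2] at h1

theorem far_from_finite {p : ℝ} (hp : 0 < p) (hp1 : p ≤ 1) {o : M} (μ : ℕ → (M →₀ ℝ)) {B δ : ℝ}
    (hδ : 0 < δ) (hB : ∀ i, Q p (dp p) {o} (μ i) ≤ B)
    (hsep : ∀ i j, i ≠ j → δ ≤ Q p (dp p) {o} (μ i - μ j)) (E : Finset M) (ho : o ∈ E) :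
    ∃ i, δ / 4 ≤ Q p (dp p) (E : Set M) (μ i) := by
  classical
  by_contra hn
  push Not at hn
  have hoE : o ∈ (E : Set M) := by exact_mod_cast ho
  choose ν hν hν' using fun i => exists_approx hp hp1 (dp_nonneg p) hoE (hn i)
  have hN := psn_Q (𝕜 := ℝ) hp hp1 (dp_nonneg p) (Set.mem_singleton o)
  obtain ⟨s, hs, hE⟩ := exists_sep E
  let v : ℕ → (E → ℝ) := fun i e => if e.1 = o then 0 else ν i e
  set D := ((1 / s) ^ p * (B + δ / 4)) ^ p⁻¹ with hD
  have hνB : ∀ i, Q p (dp p) {o} (ν i) ≤ B + δ / 4 := by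
    intro i
    have h1 := hN.le_add_sub (ν i) (μ i)
    rw [hN.sub_comm] at h1
    linarith [hB i, hν' i]
  have hB0 : 0 ≤ B + δ / 4 := (hN.nonneg _).trans (hνB 0)
  have hD0 : 0 ≤ D := by positivity
  have hv : ∀ i, v i ∈ closedBall (0 : E → ℝ) D := by
    intro i
    rw [mem_closedBall, dist_zero_right, pi_norm_le_iff_of_nonneg hD0]
    intro e
    by_cases h : e.1 = o
    · simp [v, h, hD0]
    · have h1 := coeff_bound hp hp1 ho hs hE e.2 h (hν i)
      have h2 : |ν i e| ^ p ≤ (1 / s) ^ p * (B + δ / 4) :=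
        h1.trans (mul_le_mul_of_nonneg_left (hνB i) (by positivity))
      have h3 := Real.rpow_le_rpow (by positivity) h2 (inv_nonneg.2 hp.le)
      rw [Real.rpow_rpow_inv (abs_nonneg _) hp.ne'] at h3
      have h4 : v i e = ν i e := if_neg h
      rw [h4]; exact h3
  obtain ⟨a, -, φ, hφ, hlim⟩ := tendsto_subseq_of_bounded isBounded_closedBall hv
  let G : (E → ℝ) → ℝ := fun w => ∑ e : E, ‖w e‖ ^ p * Q p (dp p) {o} (dl ℝ e.1)
  have hG : Continuous G := continuous_finsetSum _ fun e _ =>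
    (((continuous_apply e).norm).rpow_const fun _ => Or.inr hp.le).mul continuous_const
  have hG0 : G 0 = 0 := by simp [G, Real.zero_rpow hp.ne']
  have h1 : Tendsto (fun k => v (φ (k + 1)) - v (φ k)) atTop (𝓝 0) := by
    have := ((tendsto_add_atTop_iff_nat 1).2 hlim).sub hlim
    simpa using this
  have h2 := (hG.tendsto 0).comp h1
  rw [hG0] at h2
  obtain ⟨k, hk⟩ := (h2.eventually (gt_mem_nhds (half_pos hδ))).exists
  have h3 : Q p (dp p) {o} (ν (φ (k + 1)) - ν (φ k)) ≤ G (v (φ (k + 1)) - v (φ k)) := by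
    have e1 : ν (φ (k + 1)) - ν (φ k) = ∑ e : E, (ν (φ (k + 1)) - ν (φ k)) e • dl ℝ e.1 := by
      rw [Finset.sum_coe_sort E (fun x => (ν (φ (k + 1)) - ν (φ k)) x • dl ℝ x)]
      conv_lhs => rw [eq_sum_dl (ν (φ (k + 1)) - ν (φ k))]
      refine Finset.sum_subset (fun x hx => ?_) (fun x _ hx => ?_)
      · by_contra hc
        exact (Finsupp.mem_support_iff.1 hx) (((hν _).sub (hν _)) x (by exact_mod_cast hc))
      · rw [Finsupp.notMem_support_iff.1 hx, zero_smul]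
    rw [e1]
    refine (hN.sum_le hp _ _).trans (Finset.sum_le_sum fun e _ => ?_)
    rw [hN.smul]
    by_cases h : e.1 = o
    · rw [Q_eq_zero hp hp1 (dp_nonneg p) (Set.mem_singleton o) (supp_single (by simp [h]) 1)]
      simp
    · simp [v, h]
  have h4 := hsep (φ (k + 1)) (φ k) (hφ (Nat.lt_succ_self k)).ne'
  have h5 : μ (φ (k + 1)) - μ (φ k) = (μ (φ (k + 1)) - ν (φ (k + 1))) +
      (ν (φ (k + 1)) - ν (φ k)) - (μ (φ k) - ν (φ k)) := by abel
  have h6 := hN.sub ((μ (φ (k + 1)) - ν (φ (k + 1))) + (ν (φ (k + 1)) - ν (φ k)))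
    (μ (φ k) - ν (φ k))
  have h7 := hN.add (μ (φ (k + 1)) - ν (φ (k + 1))) (ν (φ (k + 1)) - ν (φ k))
  rw [← h5] at h6
  have := hν' (φ (k + 1))
  have := hν' (φ k)
  simp only [Function.comp] at hk
  linarith

theorem scale_lower {p : ℝ} (hp : 0 < p) (hp1 : p ≤ 1) {o : M} {E : Finset M} (ho : o ∈ E)
    {r s : ℝ} (hs : 0 < s) (hsr : s ≤ r / 4) {μ : M →₀ ℝ} (hμ : Supp (nb (r / 2) E) μ)
    (hA : ∀ x ∈ (μ.support : Set M) ∪ E, ∀ y ∈ (μ.support : Set M) ∪ E, dist x y < s → x = y) :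
    Q p (dp p) (E : Set M) μ ≤ 48 * Q p (om p s) ((E : Set M) ∪ far r E) μ := by
  classical
  have hoE : o ∈ (E : Set M) := by exact_mod_cast ho
  have hr : 0 < r := by linarith
  refine le_mul_Q (o := o) (Or.inl hoE) (by norm_num : (0 : ℝ) ≤ 48) fun β hβ => ?_
  obtain ⟨ρ, hρ1, hρ2, hρ3⟩ := rounding hp hp1 o hs _ hA β
  let ψ : M → ℝ := fun z => cutf (r / 2) (3 * r / 4) (infDist z (E : Set M))
  have hlt : r / 2 < 3 * r / 4 := by linarith
  have hE := psn_Q (𝕜 := ℝ) hp hp1 (dp_nonneg p) hoE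
  have hq1 := hE.comp (mulL ψ)
  have b1 := hq1.le_Q (c := dp p) hp (Set.mem_singleton o) (C := 4) (by norm_num)
    (cut_Q hp hp1 hoE (fun _ => infDist_nonneg) (infDist_lip _)
      (fun x => by
        obtain ⟨e, he, hd⟩ := exists_near ho x
        rw [hd]
        exact Q_dl hp hp1 (dp_nonneg p) hoE x (by exact_mod_cast he)) hlt (by linarith))
    (fun z hz => by
      refine Q_eq_zero hp hp1 (dp_nonneg p) hoE ?_
      rw [mulL_dl, Set.mem_singleton_iff.1 hz]
      exact (supp_single hoE 1).smul _) (Finsupp.lmapDomain ℝ ℝ ρ (bd β))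
  have hq2 := hq1.comp (Finsupp.lmapDomain ℝ ℝ ρ)
  have b2 := hq2.eq_zero_of_supp hp (K := (E : Set M) ∪ far r E) (fun z hz => by
    refine Q_eq_zero hp hp1 (dp_nonneg p) hoE ?_
    rw [Finsupp.lmapDomain_apply, Finsupp.mapDomain_single]
    change Supp _ (mulL ψ (dl ℝ (ρ z)))
    rw [mulL_dl]
    rcases hz with hz | hz
    · rw [hρ1 z (Or.inr hz)]
      exact (supp_single hz 1).smul _
    · have h1 : r ≤ infDist z (E : Set M) := hz
      have h2 := infDist_lip (E : Set M) z (ρ z)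
      have h3 := hρ2 z
      have : ψ (ρ z) = 0 := cutf_zero hlt (by linarith [(abs_le.1 h2).2])
      rw [this]; simpa using supp_zero _) hβ
  have b3 := hq2.le_add_sub μ (bd β)
  have e1 : Finsupp.lmapDomain ℝ ℝ ρ μ = μ := by
    rw [Finsupp.lmapDomain_apply, Finsupp.mapDomain_congr (g := id) (fun x hx =>
      hρ1 x (Or.inl (by exact_mod_cast hx))), Finsupp.mapDomain_id]
  have e2 : mulL ψ μ = μ := by
    ext x
    rw [mulL_apply]
    by_cases h : x ∈ nb (r / 2) E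
    · have : ψ x = 1 := cutf_one hlt h
      rw [this]; simp
    · rw [hμ x h]; simp
  rw [e1, e2, b2] at b3
  linarith

theorem scale_step {p : ℝ} (hp : 0 < p) (hp1 : p ≤ 1) {o : M} (μ : ℕ → (M →₀ ℝ)) {B δ : ℝ}
    (hδ : 0 < δ) (hB : ∀ i, Q p (dp p) {o} (μ i) ≤ B)
    (hsep : ∀ i j, i ≠ j → δ ≤ Q p (dp p) {o} (μ i - μ j))
    (hK : ∀ ε > 0, ∀ r > 0, ∃ E : Finset M, o ∈ E ∧ ∀ i, Q p (dp p) (nb r E) (μ i) ≤ ε)
    (r : ℝ) (hr : 0 < r) : ∃ (E : Finset M) (i : ℕ) (s : ℝ), o ∈ E ∧ 0 < s ∧ s ≤ r ∧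
      δ / 400 ≤ Q p (om p s) ((E : Set M) ∪ far r E) (μ i) := by
  classical
  obtain ⟨E, ho, hE⟩ := hK (δ / 800) (by positivity) (r / 2) (by positivity)
  obtain ⟨i, hi⟩ := far_from_finite hp hp1 μ hδ hB hsep E ho
  have hoE : o ∈ (E : Set M) := by exact_mod_cast ho
  obtain ⟨ν, hν, hν'⟩ := exists_approx hp hp1 (dp_nonneg p) (mem_nb (by positivity) ho)
    (lt_of_le_of_lt (hE i) (by linarith : δ / 800 < δ / 400 - δ / 1600))
  obtain ⟨s0, hs0, hA⟩ := exists_sep (ν.support ∪ E)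
  have hs : 0 < min s0 (r / 4) := lt_min hs0 (by positivity)
  refine ⟨E, i, min s0 (r / 4), ho, hs, (min_le_right _ _).trans (by linarith), ?_⟩
  have h1 := scale_lower hp hp1 ho hs (min_le_right _ _) hν (fun x hx y hy hlt =>
    hA x (by simpa using hx) y (by simpa using hy) (hlt.trans_le (min_le_left _ _)))
  have h2 := (psn_Q (𝕜 := ℝ) hp hp1 (dp_nonneg p) hoE).le_add_sub (μ i) ν
  have h3 : Q p (dp p) (E : Set M) (μ i - ν) ≤ Q p (dp p) {o} (μ i - ν) :=
    Q_mono hp hp1 (dp_nonneg p) (fun _ _ => le_rfl) (Set.mem_singleton o) (by simpa using ho) _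
  have hq := psn_Q (𝕜 := ℝ) (K := (E : Set M) ∪ far r E) hp hp1 (om_nonneg p hs) (Or.inl hoE)
  have h4 := hq.le_add_sub ν (μ i)
  rw [hq.sub_comm] at h4
  have h5 : Q p (om p (min s0 (r / 4))) ((E : Set M) ∪ far r E) (μ i - ν) ≤
      Q p (dp p) {o} (μ i - ν) :=
    Q_mono hp hp1 (om_nonneg p hs) (om_le_dp hp1) (Set.mem_singleton o)
      (by simpa using Or.inl ho) _
  linarith

theorem exists_lam {p : ℝ} (hp : 0 < p) (hp1 : p < 1) {t : ℝ} (ht : 0 < t) :
    ∃ l : ℝ, 0 < l ∧ l ≤ 1 ∧ 2 * l ^ p ≤ t ∧ l ^ (1 - p) ≤ t := by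
  have hq : 0 < 1 - p := by linarith
  refine ⟨min 1 (min ((t / 2) ^ p⁻¹) (t ^ (1 - p)⁻¹)), by positivity, min_le_left _ _, ?_, ?_⟩
  · have := Real.rpow_le_rpow (by positivity)
      ((min_le_right 1 _).trans (min_le_left ((t / 2) ^ p⁻¹) (t ^ (1 - p)⁻¹))) hp.le
    rw [Real.rpow_inv_rpow (by positivity) hp.ne'] at this
    linarith
  · have := Real.rpow_le_rpow (by positivity)
      ((min_le_right 1 _).trans (min_le_right ((t / 2) ^ p⁻¹) (t ^ (1 - p)⁻¹))) hq.le
    rwa [Real.rpow_inv_rpow (by positivity) hq.ne'] at this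

theorem caseB {p : ℝ} (hp : 0 < p) (hp1 : p < 1) {o : M} (μ : ℕ → (M →₀ ℝ)) {B δ : ℝ}
    (hδ : 0 < δ) (hB : ∀ i, Q p (dp p) {o} (μ i) ≤ B)
    (hsep : ∀ i j, i ≠ j → δ ≤ Q p (dp p) {o} (μ i - μ j))
    (hK : ∀ ε > 0, ∀ r > 0, ∃ E : Finset M, o ∈ E ∧ ∀ i, Q p (dp p) (nb r E) (μ i) ≤ ε) :
    ∃ c > 0, ∃ f : ℕ → ℕ, Lower ℝ p (Q p (dp p) {o}) c (fun j => μ (f j)) := by
  classical
  choose! E ix s hoE hs0 hsr hlow using scale_step hp hp1.le μ hδ hB hsep hK
  choose l hl0 hl1 hl2 hl3 using fun j : ℕ =>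
    exists_lam hp hp1 (by positivity : (0 : ℝ) < (1 / 2) ^ j)
  obtain ⟨u, hu1, hus⟩ : ∃ u : ℕ → ℝ, u 0 = 1 ∧ ∀ j, u (j + 1) = l j * s (l j * u j) :=
    ⟨fun n => Nat.rec 1 (fun j t => l j * s (l j * t)) n, rfl, fun _ => rfl⟩
  have hu0 : ∀ j, 0 < u j := by
    intro j
    induction j with
    | zero => rw [hu1]; exact one_pos
    | succ j ih => rw [hus]; exact mul_pos (hl0 j) (hs0 _ (mul_pos (hl0 j) ih))
  let r : ℕ → ℝ := fun j => l j * u j
  have hr0 : ∀ j, 0 < r j := fun j => mul_pos (hl0 j) (hu0 j)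
  have hanti : Antitone u := antitone_nat_of_succ_le fun j => by
    rw [hus]
    have h1 := hsr _ (hr0 j)
    have h2 := hs0 _ (hr0 j)
    have h3 : r j ≤ u j := mul_le_of_le_one_left (hu0 j).le (hl1 j)
    have h4 : l j * s (r j) ≤ s (r j) := mul_le_of_le_one_left h2.le (hl1 j)
    exact h4.trans (h1.trans h3)
  let q : ℕ → (M →₀ ℝ) → ℝ := fun j =>
    Q p (om p (s (r j))) ((E (r j) : Set M) ∪ far (r j) (E (r j)))
  have hoK : ∀ j, o ∈ (E (r j) : Set M) ∪ far (r j) (E (r j)) := fun j =>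
    Or.inl (by exact_mod_cast hoE _ (hr0 j))
  have hom : ∀ j (x y : M), 0 ≤ om p (s (r j)) x y := fun j => om_nonneg p (hs0 _ (hr0 j))
  have hq : ∀ j, PSN ℝ p (q j) := fun j => psn_Q hp hp1.le (hom j) (hoK j)
  have hdl : ∀ j x, q j (dl ℝ x) ≤ r j ^ p := by
    intro j x
    by_cases h : r j ≤ infDist x (E (r j) : Set M)
    · rw [show q j (dl ℝ x) = 0 from
        Q_eq_zero hp hp1.le (hom j) (hoK j)
          (supp_single (Set.mem_union_right _ (show x ∈ far (r j) (E (r j)) from h)) 1)]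
      exact Real.rpow_nonneg (hr0 j).le _
    · obtain ⟨e, he, hd⟩ := exists_near (hoE _ (hr0 j)) x
      refine (Q_dl hp hp1.le (hom j) (hoK j) x (Or.inl (by exact_mod_cast he))).trans
        ((om_le_dp hp1.le _ _).trans ?_)
      exact Real.rpow_le_rpow dist_nonneg (by linarith) hp.le
  let g : M → M → ℕ → ℝ := fun x y j =>
    if u (j + 1) ≤ dist x y ∧ dist x y < u j then dp p x y else 0
  have hedge : ∀ (j : ℕ) (x y : M), q j (dl ℝ x - dl ℝ y) ≤
      g x y j + (1 / 2 : ℝ) ^ j * dp p x y := by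
    intro j x y
    dsimp only [g]
    have h0 := dp_nonneg p x y
    have h1 : q j (dl ℝ x - dl ℝ y) ≤ om p (s (r j)) x y := Q_edge hp hp1.le (hom j) x y
    split_ifs with hw
    · have : 0 ≤ (1 / 2 : ℝ) ^ j * dp p x y := by positivity
      have h2 : om p (s (r j)) x y ≤ dp p x y := om_le_dp hp1.le x y
      linarith
    · rw [zero_add]
      rcases not_and_or.1 hw with h | h
      · have hd : dist x y < l j * s (r j) := by rw [hus] at h; exact not_le.1 h
        have hs := hs0 _ (hr0 j)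
        refine h1.trans ((om_le_lin hp1.le hs x y).trans ?_)
        rcases (dist_nonneg (x := x) (y := y)).eq_or_lt with h2 | h2
        · rw [← h2, zero_mul]; positivity
        · have e1 : dist x y * s (r j) ^ (p - 1) = (dist x y / s (r j)) ^ (1 - p) * dp p x y := by
            rw [dp, Real.div_rpow h2.le hs.le, div_mul_eq_mul_div, ← Real.rpow_add h2,
              show 1 - p + p = 1 by ring, Real.rpow_one, show p - 1 = -(1 - p) by ring,
              Real.rpow_neg hs.le, div_eq_mul_inv]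
          rw [e1]
          refine mul_le_mul_of_nonneg_right (le_trans ?_ (hl3 j)) h0
          refine Real.rpow_le_rpow (by positivity) ?_ (by linarith)
          rw [div_le_iff₀ hs]; exact hd.le
      · have hd : u j ≤ dist x y := not_lt.1 h
        have h2 := (hq j).sub (dl ℝ x) (dl ℝ y)
        have h3 : r j ^ p ≤ l j ^ p * dp p x y := by
          rw [dp, ← Real.mul_rpow (hl0 j).le dist_nonneg]
          exact Real.rpow_le_rpow (hr0 j).le (mul_le_mul_of_nonneg_left hd (hl0 j).le) hp.le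
        have h4 := mul_le_mul_of_nonneg_right (hl2 j) h0
        linarith [hdl j x, hdl j y]
  have hsum : ∀ (S : Finset ℕ) ν, ∑ j ∈ S, q j ν ≤ 4 * Q p (dp p) {o} ν := by
    intro S
    refine (PSN.finsum S q fun j _ => hq j).le_Q hp (Set.mem_singleton o) (by norm_num)
      (fun x y => ?_) (fun z hz => ?_)
    · have h0 := dp_nonneg p x y
      refine (Finset.sum_le_sum fun j _ => hedge j x y).trans ?_
      rw [Finset.sum_add_distrib, ← Finset.sum_mul]
      have h1 := sum_le_two (S := S) (g := g x y)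
        (P := fun j => u (j + 1) ≤ dist x y ∧ dist x y < u j) (R := fun _ => False) h0
        (fun j => by dsimp only [g]; split_ifs <;> linarith)
        (fun j h _ => by dsimp only [g]; rw [if_neg h])
        (fun i j hi hj => by
          by_contra hne
          rcases lt_or_gt_of_ne hne with h | h
          · linarith [hanti (Nat.succ_le_of_lt h), hi.1, hj.2]
          · linarith [hanti (Nat.succ_le_of_lt h), hj.1, hi.2]) (fun _ _ h => h.elim)
      have h2 := mul_le_mul_of_nonneg_right (sum_half_pow_le S) h0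
      linarith
    · rw [Set.mem_singleton_iff.1 hz]
      exact Finset.sum_eq_zero fun j _ =>
        Q_eq_zero hp hp1.le (hom j) (hoK j) (supp_single (hoK j) 1)
  obtain ⟨f, -, hf⟩ := lower_of_family hp q hq (by norm_num : (0 : ℝ) < 4)
    (by positivity : 0 < δ / 400) hsum (fun j => μ (ix (r j))) (fun j => hB _)
    (fun j => hlow _ (hr0 j))
  exact ⟨_, by positivity, fun j => ix (r (f j)), hf⟩

/-- The Schur `p`-property at the level of finitely supported elements. -/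
theorem core {p : ℝ} (hp : 0 < p) (hp1 : p < 1) {o : M} (μ : ℕ → (M →₀ ℝ)) {B δ : ℝ}
    (hδ : 0 < δ) (hB : ∀ i, Q p (dp p) {o} (μ i) ≤ B)
    (hsep : ∀ i j, i ≠ j → δ ≤ Q p (dp p) {o} (μ i - μ j)) :
    ∃ c > 0, ∃ f : ℕ → ℕ, Lower ℝ p (Q p (dp p) {o}) c (fun j => μ (f j)) := by
  by_cases h : ∀ ε > 0, ∀ δ > 0, ∃ E : Finset M, o ∈ E ∧
      ∀ i, Q p (dp p) (cone o δ E) (μ i) < ε
  · exact caseB hp hp1 μ hδ hB hsep fun ε hε r hr => kalton_of_cone hp hp1.le o μ h hε hr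
  · push Not at h
    obtain ⟨ε, hε, δ', hδ', h⟩ := h
    obtain ⟨f, hf⟩ := caseA hp hp1.le o hε hδ' μ hB h
    exact ⟨_, by positivity, f, hf⟩

end Pool.Agent.H13Z.FreeP
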