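import Mathlib

/-!
Definitions: p-Banach spaces, Lipschitz free p-spaces, the Schur p-property, Kalton's property.
-/

namespace Pool.Agent.H13Z.FreeP

universe u

/-- `N` is a complete `p`-norm on the vector space `X`, i.e. `(X, N)` is a `p`-Banach space. -/
structure IsPBanach (𝕜 : Type) [RCLike 𝕜] (p : ℝ) {X : Type u} [AddCommGroup X] [Module 𝕜 X]
    (N : X → ℝ) : Prop where
  nonneg : ∀ x, 0 ≤ N x
  eq_zero : ∀ x, N x = 0 → x = 0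
  smul : ∀ (c : 𝕜) (x : X), N (c • x) = ‖c‖ * N x
  tri : ∀ x y, N (x + y) ^ p ≤ N x ^ p + N y ^ p
  complete : ∀ s : ℕ → X, (∀ ε > 0, ∃ K : ℕ, ∀ m ≥ K, ∀ n ≥ K, N (s m - s n) < ε) →
    ∃ z, Filter.Tendsto (fun n => N (s n - z)) Filter.atTop (nhds 0)

/-- `(F, N)` with the map `δ` is the Lipschitz free `p`-space over the pointed metric space
`(M, o)`: a `p`-Banach space, `δ` is an isometric embedding with `δ o = 0`, and every
`L`-Lipschitz map `f` into a `p`-Banach space with `f o = 0` is `T ∘ δ` for a linear `T` of norm at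
most `L`, which is the only bounded linear map with `T ∘ δ = f`. -/
structure IsFreeP (𝕜 : Type) [RCLike 𝕜] (p : ℝ) {M : Type u} [MetricSpace M] (o : M)
    {F : Type u} [AddCommGroup F] [Module 𝕜 F] (N : F → ℝ) (δ : M → F) : Prop where
  banach : IsPBanach 𝕜 p N
  base : δ o = 0
  isom : ∀ x y, N (δ x - δ y) = dist x y
  univ : ∀ (Y : Type u) [AddCommGroup Y] [Module 𝕜 Y] (NY : Y → ℝ), IsPBanach 𝕜 p NY →
    ∀ (f : M → Y) (L : ℝ), 0 ≤ L → f o = 0 → (∀ x y, NY (f x - f y) ≤ L * dist x y) →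
      ∃ T : F →ₗ[𝕜] Y, (∀ x, T (δ x) = f x) ∧ (∀ z, NY (T z) ≤ L * N z) ∧
        ∀ T' : F →ₗ[𝕜] Y, (∀ x, T' (δ x) = f x) → (∃ C : ℝ, ∀ z, NY (T' z) ≤ C * N z) → T' = T

/-- The sequence `x` is equivalent to the canonical basis of `ℓ_p`. -/
def EquivLpBasis (𝕜 : Type) [RCLike 𝕜] (p : ℝ) {X : Type u} [AddCommGroup X] [Module 𝕜 X]
    (N : X → ℝ) (x : ℕ → X) : Prop :=
  ∃ c C : ℝ, 0 < c ∧ c ≤ C ∧ ∀ a : ℕ →₀ 𝕜,
    c * (∑ n ∈ a.support, ‖a n‖ ^ p) ^ (1 / p) ≤ N (∑ n ∈ a.support, a n • x n) ∧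
      N (∑ n ∈ a.support, a n • x n) ≤ C * (∑ n ∈ a.support, ‖a n‖ ^ p) ^ (1 / p)

/-- The Schur `p`-property: every infinite, bounded, uniformly separated set contains a sequence
equivalent to the canonical basis of `ℓ_p`. -/
def SchurP (p : ℝ) {X : Type u} [AddCommGroup X] [Module ℝ X] (N : X → ℝ) : Prop :=
  ∀ A : Set X, A.Infinite → (∃ B : ℝ, ∀ x ∈ A, N x ≤ B) →
    (∃ η : ℝ, 0 < η ∧ ∀ x ∈ A, ∀ y ∈ A, x ≠ y → η ≤ N (x - y)) →
      ∃ x : ℕ → X, (∀ n, x n ∈ A) ∧ EquivLpBasis ℝ p N x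

/-- The closed linear span of `δ '' K`. -/
def closedSpan (𝕜 : Type) [RCLike 𝕜] {M F : Type u} [AddCommGroup F] [Module 𝕜 F] (N : F → ℝ)
    (δ : M → F) (K : Set M) : Set F :=
  {z | ∀ ε > 0, ∃ w ∈ Submodule.span 𝕜 (δ '' K), N (z - w) < ε}

/-- Kalton's property of a subset `W` of the free space. -/
def KaltonProp (𝕜 : Type) [RCLike 𝕜] {M F : Type u} [MetricSpace M] [AddCommGroup F] [Module 𝕜 F]
    (N : F → ℝ) (δ : M → F) (W : Set F) : Prop :=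
  ∀ ε : ℝ, 0 < ε → ∀ r : ℝ, 0 < r → ∃ E : Finset M, ∀ w ∈ W,
    ∃ v ∈ closedSpan 𝕜 N δ {x | ∃ e ∈ E, dist x e ≤ r}, ∃ b : F, N b ≤ 1 ∧ w = v + (ε : 𝕜) • b

end Pool.Agent.H13Z.FreeP
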