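import Pool.Agent.H13Z.FreeP.CaseB
import Pool.Agent.H13Z.FreeP.Defs

/-!
The completion of the finitely supported functions and the norm formula in a free p-space.
-/

namespace Pool.Agent.H13Z.FreeP

open Finsupp Filter Topology

universe u

section PB

variable {𝕜 : Type} [RCLike 𝕜] {p : ℝ} {X : Type u} [AddCommGroup X] [Module 𝕜 X] {N : X → ℝ}

theorem IsPBanach.psn (h : IsPBanach 𝕜 p N) : PSN 𝕜 p (fun x => N x ^ p) :=
  ⟨fun x => Real.rpow_nonneg (h.nonneg x) _, h.tri, fun c x => by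
    rw [h.smul, Real.mul_rpow (norm_nonneg _) (h.nonneg x)]⟩

theorem rpow_lt_iff' {p a b : ℝ} (hp : 0 < p) (ha : 0 ≤ a) (hb : 0 ≤ b) :
    a ^ p < b ↔ a < b ^ p⁻¹ := (Real.lt_rpow_inv_iff_of_pos ha hb hp).symm

theorem rpow_le_iff' {p a b : ℝ} (hp : 0 < p) (ha : 0 ≤ a) (hb : 0 ≤ b) :
    a ^ p ≤ b ↔ a ≤ b ^ p⁻¹ := (Real.le_rpow_inv_iff_of_pos ha hb hp).symm

/-- a complete normed group with a `p`-homogeneous norm gives a `p`-Banach space -/
theorem isPBanach_of_norm {Y : Type u} [NormedAddCommGroup Y] [Module 𝕜 Y] [CompleteSpace Y]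
    (hp : 0 < p) (h : ∀ (c : 𝕜) (y : Y), ‖c • y‖ = ‖c‖ ^ p * ‖y‖) :
    IsPBanach 𝕜 p (fun y : Y => ‖y‖ ^ p⁻¹) where
  nonneg y := Real.rpow_nonneg (norm_nonneg _) _
  eq_zero y hy := by
    rwa [Real.rpow_eq_zero (norm_nonneg _) (inv_ne_zero hp.ne'), norm_eq_zero] at hy
  smul c y := by
    rw [h, Real.mul_rpow (by positivity) (norm_nonneg _),
      Real.rpow_rpow_inv (norm_nonneg _) hp.ne']
  tri x y := by
    simp only [Real.rpow_inv_rpow (norm_nonneg _) hp.ne']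
    exact norm_add_le x y
  complete s hs := by
    have : CauchySeq s := by
      refine Metric.cauchySeq_iff.2 fun ε hε => ?_
      obtain ⟨K, hK⟩ := hs (ε ^ p⁻¹) (by positivity)
      refine ⟨K, fun m hm n hn => ?_⟩
      rw [dist_eq_norm]
      exact (Real.rpow_lt_rpow_iff (norm_nonneg _) hε.le (inv_pos.2 hp)).1 (hK m hm n hn)
    obtain ⟨z, hz⟩ := cauchySeq_tendsto_of_complete this
    refine ⟨z, ?_⟩
    have h1 := tendsto_iff_norm_sub_tendsto_zero.1 hz
    have h2 := h1.rpow_const (p := p⁻¹) (Or.inr (inv_nonneg.2 hp.le))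
    rwa [Real.zero_rpow (inv_ne_zero hp.ne')] at h2

end PB

/-- finitely supported functions with the free `p`-seminorm -/
def PP (𝕜 : Type) [RCLike 𝕜] (_p : ℝ) {M : Type u} (_o : M) : Type u := M →₀ 𝕜

variable {𝕜 : Type} [RCLike 𝕜] {p : ℝ} {M : Type u} [MetricSpace M] {o : M}

noncomputable instance instSemiPP [hp : Fact (0 < p)] [hp1 : Fact (p ≤ 1)] :
    SeminormedAddCommGroup (PP 𝕜 p o) :=
  letI : AddCommGroup (PP 𝕜 p o) := inferInstanceAs (AddCommGroup (M →₀ 𝕜))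
  AddGroupSeminorm.toSeminormedAddCommGroup
    { toFun := fun μ : M →₀ 𝕜 => Q p (dp p) {o} μ
      map_zero' := (psn_Q (𝕜 := 𝕜) hp.out hp1.out (dp_nonneg p) (Set.mem_singleton o)).zero hp.out
      add_le' := (psn_Q (𝕜 := 𝕜) hp.out hp1.out (dp_nonneg p) (Set.mem_singleton o)).add
      neg' := (psn_Q (𝕜 := 𝕜) hp.out hp1.out (dp_nonneg p) (Set.mem_singleton o)).neg }

noncomputable instance instModPP [Fact (0 < p)] [Fact (p ≤ 1)] : Module 𝕜 (PP 𝕜 p o) :=
  inferInstanceAs (Module 𝕜 (M →₀ 𝕜))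

theorem norm_PP [Fact (0 < p)] [Fact (p ≤ 1)] (μ : PP 𝕜 p o) :
    ‖μ‖ = Q (𝕜 := 𝕜) p (dp p) {o} μ := rfl

theorem norm_smul_PP [hp : Fact (0 < p)] [hp1 : Fact (p ≤ 1)] (c : 𝕜) (μ : PP 𝕜 p o) :
    ‖c • μ‖ = ‖c‖ ^ p * ‖μ‖ :=
  (psn_Q (𝕜 := 𝕜) hp.out hp1.out (dp_nonneg p) (Set.mem_singleton o)).smul c μ

instance instUCPP [Fact (0 < p)] [Fact (p ≤ 1)] : UniformContinuousConstSMul 𝕜 (PP 𝕜 p o) :=
  ⟨fun c => (LipschitzWith.of_dist_le_mul (K := ⟨‖c‖ ^ p, by positivity⟩) fun x y => by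
    rw [dist_eq_norm, dist_eq_norm, ← smul_sub, norm_smul_PP]; rfl).uniformContinuous⟩

/-- the completion -/
abbrev FF (𝕜 : Type) [RCLike 𝕜] (p : ℝ) {M : Type u} [MetricSpace M] (o : M) [Fact (0 < p)]
    [Fact (p ≤ 1)] : Type u := UniformSpace.Completion (PP 𝕜 p o)

theorem norm_smul_FF [Fact (0 < p)] [Fact (p ≤ 1)] (c : 𝕜) (y : FF 𝕜 p o) :
    ‖c • y‖ = ‖c‖ ^ p * ‖y‖ := by
  induction y using UniformSpace.Completion.induction_on with
  | hp => exact isClosed_eq (continuous_const_smul c).norm (continuous_const.mul continuous_norm)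
  | ih a =>
    rw [← UniformSpace.Completion.coe_smul, UniformSpace.Completion.norm_coe,
      UniformSpace.Completion.norm_coe, norm_smul_PP]

theorem banach_FF [hp : Fact (0 < p)] [Fact (p ≤ 1)] :
    IsPBanach 𝕜 p (fun y : FF 𝕜 p o => ‖y‖ ^ p⁻¹) := isPBanach_of_norm hp.out norm_smul_FF

/-- the canonical linear map into the completion -/
noncomputable def toFF [Fact (0 < p)] [Fact (p ≤ 1)] : (M →₀ 𝕜) →ₗ[𝕜] FF 𝕜 p o where
  toFun μ := ((show PP 𝕜 p o from μ : PP 𝕜 p o) : FF 𝕜 p o)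
  map_add' μ ν := UniformSpace.Completion.coe_add (α := PP 𝕜 p o) μ ν
  map_smul' c μ := UniformSpace.Completion.coe_smul (M := 𝕜) (X := PP 𝕜 p o) c μ

theorem norm_toFF [Fact (0 < p)] [Fact (p ≤ 1)] (μ : M →₀ 𝕜) :
    ‖toFF (p := p) (o := o) μ‖ = Q p (dp p) {o} μ :=
  UniformSpace.Completion.norm_coe (E := PP 𝕜 p o) μ

variable {F : Type u} [AddCommGroup F] [Module 𝕜 F] {N : F → ℝ} {δ : M → F}

theorem IsFreeP.formula (h : IsFreeP 𝕜 p o N δ) (hp : 0 < p) (hp1 : p ≤ 1) (μ : M →₀ 𝕜) :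
    N (Finsupp.linearCombination 𝕜 δ μ) ^ p = Q p (dp p) {o} μ := by
  have : Fact (0 < p) := ⟨hp⟩
  have : Fact (p ≤ 1) := ⟨hp1⟩
  refine le_antisymm ?_ ?_
  · have := (h.banach.psn.comp (Finsupp.linearCombination 𝕜 δ)).le_Q (c := dp p) hp
      (Set.mem_singleton o) zero_le_one
      (fun x y => by simp [h.isom, dp])
      (fun z hz => by
        rw [Set.mem_singleton_iff.1 hz]
        simpa [h.base] using h.banach.psn.zero hp) μ
    rwa [one_mul] at this
  · obtain ⟨T, hT, hb, -⟩ := h.univ (FF 𝕜 p o) _ banach_FF (fun x => toFF (dl 𝕜 x)) 1 zero_le_one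
      (by
        rw [← norm_eq_zero, norm_toFF]
        exact Q_eq_zero hp hp1 (dp_nonneg p) (Set.mem_singleton o)
          (supp_single (Set.mem_singleton o) 1))
      (fun x y => by
        rw [← map_sub, norm_toFF, one_mul]
        have h1 := Q_edge (𝕜 := 𝕜) (K := {o}) hp hp1 (dp_nonneg p) x y
        have h2 := Real.rpow_le_rpow ((psn_Q hp hp1 (dp_nonneg p)
          (Set.mem_singleton o)).nonneg _) h1 (inv_nonneg.2 hp.le)
        rwa [dp, Real.rpow_rpow_inv dist_nonneg hp.ne'] at h2)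
    have e : T (Finsupp.linearCombination 𝕜 δ μ) = toFF μ := by
      have : T ∘ₗ Finsupp.linearCombination 𝕜 δ = toFF := by
        refine Finsupp.lhom_ext' fun x => LinearMap.ext_ring ?_
        simp [hT]
      exact LinearMap.congr_fun this μ
    have h1 := hb (Finsupp.linearCombination 𝕜 δ μ)
    rw [e, norm_toFF, one_mul] at h1
    have h2 := Real.rpow_le_rpow (Real.rpow_nonneg ((psn_Q hp hp1 (dp_nonneg p)
      (Set.mem_singleton o)).nonneg _) _) h1 hp.le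
    rwa [Real.rpow_inv_rpow ((psn_Q hp hp1 (dp_nonneg p)
      (Set.mem_singleton o)).nonneg _) hp.ne'] at h2

theorem IsFreeP.dense (h : IsFreeP 𝕜 p o N δ) (hp : 0 < p) (z : F) (ε : ℝ) (hε : 0 < ε) :
    ∃ μ : M →₀ 𝕜, N (z - Finsupp.linearCombination 𝕜 δ μ) ^ p < ε := by
  have hq := h.banach.psn
  let Y : Submodule 𝕜 F :=
    { carrier := {z | ∀ ε > 0, ∃ μ : M →₀ 𝕜, N (z - Finsupp.linearCombination 𝕜 δ μ) ^ p < ε}
      zero_mem' := fun ε hε => ⟨0, by simpa [hq.zero hp] using hε⟩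
      add_mem' := by
        intro a b ha hb ε hε
        obtain ⟨μ, hμ⟩ := ha (ε / 2) (half_pos hε)
        obtain ⟨ν, hν⟩ := hb (ε / 2) (half_pos hε)
        refine ⟨μ + ν, ?_⟩
        have := hq.add (a - Finsupp.linearCombination 𝕜 δ μ) (b - Finsupp.linearCombination 𝕜 δ ν)
        rw [map_add, ← sub_add_sub_comm]
        linarith
      smul_mem' := by
        intro c a ha ε hε
        have h0 : 0 ≤ ‖c‖ ^ p := by positivity
        obtain ⟨μ, hμ⟩ := ha (ε / (‖c‖ ^ p + 1)) (by positivity)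
        refine ⟨c • μ, ?_⟩
        have h1 := hq.smul c (a - Finsupp.linearCombination 𝕜 δ μ)
        have h2 := hq.nonneg (a - Finsupp.linearCombination 𝕜 δ μ)
        rw [lt_div_iff₀ (by positivity)] at hμ
        rw [map_smul, ← smul_sub]
        nlinarith }
  have hY : IsPBanach 𝕜 p (fun y : Y => N y) :=
    { nonneg := fun y => h.banach.nonneg _
      eq_zero := fun y hy => Subtype.ext (h.banach.eq_zero _ hy)
      smul := fun c y => h.banach.smul c y
      tri := fun x y => h.banach.tri x y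
      complete := by
        intro s hs
        obtain ⟨z, hz⟩ := h.banach.complete (fun n => s n) hs
        refine ⟨⟨z, fun ε hε => ?_⟩, hz⟩
        have h1 := hz.rpow_const (p := p) (Or.inr hp.le)
        rw [Real.zero_rpow hp.ne'] at h1
        obtain ⟨n, hn⟩ := (h1.eventually (gt_mem_nhds (half_pos hε))).exists
        obtain ⟨μ, hμ⟩ := (s n).2 (ε / 2) (half_pos hε)
        refine ⟨μ, ?_⟩
        have h2 := hq.sub ((s n : F) - Finsupp.linearCombination 𝕜 δ μ) (s n - z)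
        rw [sub_sub_sub_cancel_left] at h2
        linarith }
  have hδ : ∀ x, δ x ∈ Y := fun x ε hε => ⟨dl 𝕜 x, by simpa [hq.zero hp] using hε⟩
  obtain ⟨T, hT, hb, -⟩ := h.univ Y _ hY (fun x => ⟨δ x, hδ x⟩) 1 zero_le_one
    (Subtype.ext h.base) (fun x y => by rw [one_mul]; exact (h.isom x y).le)
  obtain ⟨T0, -, -, hu⟩ := h.univ F _ h.banach δ 1 zero_le_one h.base
    (fun x y => by rw [one_mul]; exact (h.isom x y).le)
  have e1 := hu LinearMap.id (fun _ => rfl) ⟨1, fun z => by simp⟩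
  have e2 := hu (Y.subtype ∘ₗ T) (fun x => by simp [hT]) ⟨1, hb⟩
  have e3 : z = (T z : F) := LinearMap.congr_fun (e1.trans e2.symm) z
  rw [e3]
  exact (T z).2 ε hε

end Pool.Agent.H13Z.FreeP
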