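import Pool.Agent.H13Z.FreeP.Defs

/-!
The approximation property of a quasi-normed space.
-/

namespace Pool.Agent.H13Z.FreeP

universe u

/-- `C` is compact for the metrizable topology of `N`: every sequence in `C` has a subsequence
converging to a point of `C`. -/
def CompactFor {X : Type u} [AddCommGroup X] (N : X → ℝ) (C : Set X) : Prop :=
  ∀ s : ℕ → X, (∀ n, s n ∈ C) → ∃ z ∈ C, ∃ φ : ℕ → ℕ, StrictMono φ ∧
    Filter.Tendsto (fun n => N (s (φ n) - z)) Filter.atTop (nhds 0)

/-- The approximation property: the identity is approximated uniformly on compact sets by bounded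
linear operators of finite rank. -/
def HasAP {X : Type u} [AddCommGroup X] [Module ℝ X] (N : X → ℝ) : Prop :=
  ∀ C : Set X, CompactFor N C → ∀ ε : ℝ, 0 < ε → ∃ T : X →ₗ[ℝ] X,
    (∃ c : ℝ, ∀ x, N (T x) ≤ c * N x) ∧ FiniteDimensional ℝ (LinearMap.range T) ∧
      ∀ x ∈ C, N (T x - x) < ε

end Pool.Agent.H13Z.FreeP
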