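import Pool.Agent.H13Z.FreeP.Main

/-!
Existence of the Lipschitz free p-space: `IsFreeP` is satisfied by the completion of the finitely
supported functions, for every pointed metric space and every `0 < p ≤ 1`.
-/

namespace Pool.Agent.H13Z.FreeP

open Finsupp Filter Topology

universe u

variable {𝕜 : Type} [RCLike 𝕜] {p : ℝ} {M : Type u} [MetricSpace M] {o : M}

theorem Q_edge_eq (hp : 0 < p) (hp1 : p ≤ 1) (x y : M) :
    Q p (dp p) {o} (dl 𝕜 x - dl 𝕜 y) = dp p x y := by
  refine le_antisymm (Q_edge hp hp1 (dp_nonneg p) x y) ?_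
  let L : (M →₀ 𝕜) →ₗ[𝕜] 𝕜 :=
    Finsupp.linearCombination 𝕜 (fun z => ((dist z y - dist o y : ℝ) : 𝕜))
  have hL : ∀ a b, L (dl 𝕜 a - dl 𝕜 b) = ((dist a y - dist b y : ℝ) : 𝕜) := fun a b => by
    simp [L]
  have h1 := ((psn_norm (𝕜 := 𝕜) hp hp1).comp L).le_Q (c := dp p) hp (Set.mem_singleton o)
    zero_le_one
    (fun a b => by
      rw [hL, RCLike.norm_ofReal, one_mul]
      exact Real.rpow_le_rpow (abs_nonneg _) (abs_dist_sub_le a b y) hp.le)
    (fun z hz => by
      rw [Set.mem_singleton_iff.1 hz]
      simp [L, Real.zero_rpow hp.ne']) (dl 𝕜 x - dl 𝕜 y)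
  rw [hL, RCLike.norm_ofReal, one_mul, dist_self, sub_zero, abs_of_nonneg dist_nonneg] at h1
  exact h1

theorem isFreeP_FF [hp : Fact (0 < p)] [hp1 : Fact (p ≤ 1)] :
    IsFreeP 𝕜 p o (fun y : FF 𝕜 p o => ‖y‖ ^ p⁻¹) (fun x => toFF (dl 𝕜 x)) where
  banach := banach_FF
  base := by
    rw [← norm_eq_zero, norm_toFF]
    exact Q_eq_zero hp.out hp1.out (dp_nonneg p) (Set.mem_singleton o)
      (supp_single (Set.mem_singleton o) 1)
  isom x y := by
    rw [← map_sub, norm_toFF, Q_edge_eq hp.out hp1.out, dp,
      Real.rpow_rpow_inv dist_nonneg hp.out.ne']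
  univ Y _ _ NY hY f L hL hf0 hf := by
    have hq := hY.psn
    letI : NormedAddCommGroup Y := AddGroupNorm.toNormedAddCommGroup
      { toFun := fun y => NY y ^ p
        map_zero' := hq.zero hp.out
        add_le' := hq.add
        neg' := hq.neg
        eq_zero_of_map_eq_zero' := fun y hy =>
          hY.eq_zero y ((Real.rpow_eq_zero (hY.nonneg y) hp.out.ne').1 hy) }
    have hnorm : ∀ y : Y, ‖y‖ = NY y ^ p := fun _ => rfl
    have : CompleteSpace Y := Metric.complete_of_cauchySeq_tendsto fun s hs => by
      obtain ⟨z, hz⟩ := hY.complete s fun ε hε => by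
        obtain ⟨K, hK⟩ := Metric.cauchySeq_iff.1 hs (ε ^ p) (by have := hp.out; positivity)
        refine ⟨K, fun m hm n hn => ?_⟩
        have := hK m hm n hn
        rw [dist_eq_norm, hnorm] at this
        exact (Real.rpow_lt_rpow_iff (hY.nonneg _) hε.le hp.out).1 this
      refine ⟨z, tendsto_iff_norm_sub_tendsto_zero.2 ?_⟩
      have h1 := hz.rpow_const (p := p) (Or.inr hp.out.le)
      rwa [Real.zero_rpow hp.out.ne'] at h1
    have hsm : ∀ c : 𝕜, Continuous fun y : Y => c • y := fun c =>
      (LipschitzWith.of_dist_le_mul (K := ⟨‖c‖ ^ p, by positivity⟩) fun x y => by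
        rw [dist_eq_norm, dist_eq_norm, ← smul_sub, hnorm, hnorm, hq.smul]; rfl).continuous
    let T0 : PP 𝕜 p o →ₗ[𝕜] Y := Finsupp.linearCombination 𝕜 f
    have hT0 : ∀ μ : PP 𝕜 p o, ‖T0 μ‖ ≤ L ^ p * ‖μ‖ := fun μ =>
      (hq.comp (Finsupp.linearCombination 𝕜 f)).le_Q (c := dp p) hp.out (Set.mem_singleton o)
        (by positivity)
        (fun x y => by
          rw [dp, ← Real.mul_rpow hL dist_nonneg]
          refine Real.rpow_le_rpow (hY.nonneg _) ?_ hp.out.le
          simpa using hf x y)
        (fun z hz => by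
          rw [Set.mem_singleton_iff.1 hz]
          simpa [hf0] using hq.zero hp.out) μ
    have huc : UniformContinuous T0 :=
      (LipschitzWith.of_dist_le_mul (K := ⟨L ^ p, by positivity⟩) fun x y => by
        rw [dist_eq_norm, dist_eq_norm, ← map_sub]; exact hT0 _).uniformContinuous
    let E : FF 𝕜 p o → Y := UniformSpace.Completion.extension T0
    have hE : ∀ μ : PP 𝕜 p o, E μ = T0 μ := UniformSpace.Completion.extension_coe huc
    have hEc : Continuous E := UniformSpace.Completion.continuous_extension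
    let T : FF 𝕜 p o →ₗ[𝕜] Y :=
      { toFun := E
        map_add' := fun a b => by
          induction a, b using UniformSpace.Completion.induction_on₂ with
          | hp =>
            exact isClosed_eq (hEc.comp continuous_add)
              ((hEc.comp continuous_fst).add (hEc.comp continuous_snd))
          | ih a b => rw [← UniformSpace.Completion.coe_add, hE, hE, hE, map_add]
        map_smul' := fun c a => by
          induction a using UniformSpace.Completion.induction_on with
          | hp => exact isClosed_eq (hEc.comp (continuous_const_smul c)) ((hsm c).comp hEc)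
          | ih a => rw [← UniformSpace.Completion.coe_smul, hE, hE, map_smul]; rfl }
    refine ⟨T, fun x => ?_, fun z => ?_, fun T' hT' ⟨C, hC⟩ => ?_⟩
    · refine (hE (dl 𝕜 x)).trans ?_
      exact (Finsupp.linearCombination_single 𝕜 1 x).trans (one_smul _ _)
    · have h1 : ‖E z‖ ≤ L ^ p * ‖z‖ := by
        induction z using UniformSpace.Completion.induction_on with
        | hp => exact isClosed_le hEc.norm (continuous_const.mul continuous_norm)
        | ih a => rw [hE, UniformSpace.Completion.norm_coe]; exact hT0 a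
      have h2 := (rpow_le_iff' hp.out (hY.nonneg _) (by positivity)).1 (hnorm _ ▸ h1)
      rwa [Real.mul_rpow (by positivity) (norm_nonneg _), Real.rpow_rpow_inv hL hp.out.ne'] at h2
    · have hc' : Continuous T' :=
        (LipschitzWith.of_dist_le_mul (K := ⟨|C| ^ p, by positivity⟩) fun x y => by
          rw [dist_eq_norm, dist_eq_norm, ← map_sub, hnorm]
          have h1 : NY (T' (x - y)) ≤ |C| * ‖x - y‖ ^ p⁻¹ :=
            (hC _).trans (mul_le_mul_of_nonneg_right (le_abs_self C) (by positivity))
          have h2 := Real.rpow_le_rpow (hY.nonneg _) h1 hp.out.le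
          rwa [Real.mul_rpow (abs_nonneg _) (by positivity),
            Real.rpow_inv_rpow (norm_nonneg _) hp.out.ne'] at h2).continuous
      ext z
      induction z using UniformSpace.Completion.induction_on with
      | hp => exact isClosed_eq hc' hEc
      | ih a =>
        refine Eq.trans ?_ (hE a).symm
        have : T' ∘ₗ toFF = Finsupp.linearCombination 𝕜 f := by
          refine Finsupp.lhom_ext' fun x => LinearMap.ext_ring ?_
          simpa using hT' x
        exact LinearMap.congr_fun this a

theorem exists_isFreeP (𝕜 : Type) [RCLike 𝕜] {p : ℝ} (hp : 0 < p) (hp1 : p ≤ 1) {M : Type u}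
    [MetricSpace M] (o : M) : ∃ (F : Type u) (_ : AddCommGroup F) (_ : Module 𝕜 F) (N : F → ℝ)
      (δ : M → F), IsFreeP 𝕜 p o N δ := by
  have : Fact (0 < p) := ⟨hp⟩
  have : Fact (p ≤ 1) := ⟨hp1⟩
  exact ⟨FF 𝕜 p o, inferInstance, inferInstance, _, _, isFreeP_FF⟩

end Pool.Agent.H13Z.FreeP
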