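import Pool.Agent.H13Z.FreeP.CaseA

/-!
Reduction of a real flow to a forest and the layer structure of a rooted forest.
-/

namespace Pool.Agent.H13Z.FreeP

open Finsupp

variable {M : Type*}

/-- `e` is a leaf edge of `S` with leaf `w` and parent `π` -/
def IsLeaf (S : Finset (M × M)) (e : M × M) (w π : M) : Prop :=
  e ∈ S ∧ (e = (w, π) ∨ e = (π, w)) ∧ w ≠ π ∧ ∀ e' ∈ S, e' ≠ e → e'.1 ≠ w ∧ e'.2 ≠ w

theorem exists_dep (S : Finset (M × M)) (hS : S.Nonempty) (hno : ∀ e w π, ¬ IsLeaf S e w π) :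
    ∃ γ : (M × M) →₀ ℝ, γ ≠ 0 ∧ γ.support ⊆ S ∧ bd γ = 0 := by
  classical
  by_cases hloop : ∃ e ∈ S, e.1 = e.2
  · obtain ⟨e, he, h⟩ := hloop
    refine ⟨single e 1, by simp, Finsupp.support_single_subset.trans (by simpa using he), ?_⟩
    rw [bd_single, h]; simp
  push Not at hloop
  by_contra hn
  have hli : LinearIndepOn ℝ (fun e : M × M => dl ℝ e.1 - dl ℝ e.2) (S : Set (M × M)) := by
    rw [linearIndepOn_iff]
    intro l hl h0
    by_contra hne
    exact hn ⟨l, hne, by exact_mod_cast (Finsupp.mem_supported ℝ l).1 hl, h0⟩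
  set V := S.image Prod.fst ∪ S.image Prod.snd with hV
  have h1 : ∀ e ∈ S, e.1 ∈ V := fun e he =>
    Finset.mem_union_left _ (Finset.mem_image_of_mem _ he)
  have h2 : ∀ e ∈ S, e.2 ∈ V := fun e he =>
    Finset.mem_union_right _ (Finset.mem_image_of_mem _ he)
  have hdeg : ∀ w ∈ V, 2 ≤ (S.filter fun e => e.1 = w).card + (S.filter fun e => e.2 = w).card := by
    intro w hw
    obtain ⟨e, he, hew⟩ : ∃ e ∈ S, e.1 = w ∨ e.2 = w := by
      rcases Finset.mem_union.1 hw with h | h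
      · obtain ⟨e, he, h⟩ := Finset.mem_image.1 h; exact ⟨e, he, Or.inl h⟩
      · obtain ⟨e, he, h⟩ := Finset.mem_image.1 h; exact ⟨e, he, Or.inr h⟩
    obtain ⟨e', he', hne, hew'⟩ : ∃ e' ∈ S, e' ≠ e ∧ (e'.1 = w ∨ e'.2 = w) := by
      by_contra hc
      push Not at hc
      rcases hew with h | h
      · exact hno e w e.2 ⟨he, Or.inl (by rw [← h]), by rw [← h]; exact hloop e he, hc⟩
      · exact hno e w e.1 ⟨he, Or.inr (by rw [← h]), by rw [← h]; exact (hloop e he).symm, hc⟩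
    refine le_trans ?_ (Finset.card_union_le _ _)
    have hsub : ({e, e'} : Finset (M × M)) ⊆
        (S.filter fun e => e.1 = w) ∪ (S.filter fun e => e.2 = w) := by
      intro x hx
      simp only [Finset.mem_insert, Finset.mem_singleton] at hx
      simp only [Finset.mem_union, Finset.mem_filter]
      rcases hx with rfl | rfl <;> tauto
    have := Finset.card_le_card hsub
    rwa [Finset.card_pair hne.symm] at this
  have hcard : V.card ≤ S.card := by
    have e1 := Finset.card_eq_sum_card_fiberwise (f := Prod.fst) (s := S) (t := V)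
      fun e he => h1 e he
    have e2 := Finset.card_eq_sum_card_fiberwise (f := Prod.snd) (s := S) (t := V)
      fun e he => h2 e he
    have e3 := Finset.sum_le_sum hdeg
    rw [Finset.sum_add_distrib, ← e1, ← e2, Finset.sum_const, smul_eq_mul] at e3
    omega
  obtain ⟨e0, he0⟩ := hS
  set w0 := e0.1
  have hw0 : w0 ∈ V := h1 e0 he0
  set W := (V.erase w0).image fun x => dl ℝ x - dl ℝ w0 with hW
  have hmem : ∀ x ∈ V, dl ℝ x - dl ℝ w0 ∈ Submodule.span ℝ (W : Set (M →₀ ℝ)) := by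
    intro x hx
    by_cases h : x = w0
    · rw [h, sub_self]; exact Submodule.zero_mem _
    · refine Submodule.subset_span ?_
      exact_mod_cast Finset.mem_image_of_mem _ (Finset.mem_erase.2 ⟨h, hx⟩)
  have hle := linearIndependent_le_span_aux' _ hli (W : Set (M →₀ ℝ)) (by
    rintro _ ⟨⟨e, he⟩, rfl⟩
    have : dl ℝ e.1 - dl ℝ e.2 = (dl ℝ e.1 - dl ℝ w0) - (dl ℝ e.2 - dl ℝ w0) := by abel
    change dl ℝ e.1 - dl ℝ e.2 ∈ _
    rw [this]
    exact Submodule.sub_mem _ (hmem _ (h1 e he)) (hmem _ (h2 e he)))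
  simp only [Finset.coe_sort_coe, Fintype.card_coe] at hle
  have h3 : W.card ≤ V.card - 1 := by
    rw [← Finset.card_erase_of_mem hw0]; exact Finset.card_image_le
  have h4 : 0 < V.card := Finset.card_pos.2 ⟨w0, hw0⟩
  omega

theorem shift_aux {p : ℝ} (hp : 0 < p) (hp1 : p ≤ 1) {c : M → M → ℝ} (hc : ∀ x y, 0 ≤ c x y)
    (β γ : (M × M) →₀ ℝ) (hγ : γ.support ⊆ β.support) (h0 : bd γ = 0)
    (hD : ∑ e ∈ β.support, ‖β e‖ ^ p * c e.1 e.2 * (γ e / β e) ≤ 0)
    (hneg : ∃ e ∈ β.support, γ e / β e < 0) :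
    ∃ β1 : (M × M) →₀ ℝ, β1.support ⊂ β.support ∧ bd β1 = bd β ∧ cost p c β1 ≤ cost p c β := by
  classical
  obtain ⟨e1, he1, hlt⟩ := hneg
  obtain ⟨e0, he0, hmin⟩ := Finset.exists_min_image β.support (fun e => γ e / β e) ⟨e1, he1⟩
  have hr0 : γ e0 / β e0 < 0 := (hmin e1 he1).trans_lt hlt
  set l := -(γ e0 / β e0)⁻¹ with hl
  have hl0 : 0 < l := by rw [hl]; exact neg_pos.2 (inv_lt_zero.2 hr0)
  have hl1 : l * (γ e0 / β e0) = -1 := by rw [hl, neg_mul, inv_mul_cancel₀ hr0.ne]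
  have hval : ∀ e ∈ β.support, (β + l • γ) e = β e * (1 + l * (γ e / β e)) := by
    intro e he
    have := Finsupp.mem_support_iff.1 he
    rw [Finsupp.add_apply, Finsupp.smul_apply, smul_eq_mul]
    field_simp
  have hsub : (β + l • γ).support ⊆ β.support :=
    Finsupp.support_add.trans (Finset.union_subset le_rfl (Finsupp.support_smul.trans hγ))
  refine ⟨β + l • γ, ⟨hsub, fun h => ?_⟩, by rw [map_add, map_smul, h0, smul_zero, add_zero], ?_⟩
  · have := Finsupp.mem_support_iff.1 (h he0)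
    rw [hval e0 he0, hl1] at this
    simp at this
  · rw [cost_eq hp c _ β.support hsub, cost]
    have key : ∀ e ∈ β.support, ‖(β + l • γ) e‖ ^ p * c e.1 e.2 ≤
        ‖β e‖ ^ p * c e.1 e.2 + p * l * (‖β e‖ ^ p * c e.1 e.2 * (γ e / β e)) := by
      intro e he
      have h1 : -1 ≤ l * (γ e / β e) := by
        rw [← hl1]; exact mul_le_mul_of_nonneg_left (hmin e he) hl0.le
      have h2 := rpow_one_add_le_one_add_mul_self h1 hp.le hp1
      rw [hval e he, norm_mul, Real.mul_rpow (norm_nonneg _) (norm_nonneg _),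
        Real.norm_of_nonneg (by linarith : 0 ≤ 1 + l * (γ e / β e))]
      have h3 : 0 ≤ ‖β e‖ ^ p * c e.1 e.2 :=
        mul_nonneg (Real.rpow_nonneg (norm_nonneg _) _) (hc _ _)
      nlinarith
    refine (Finset.sum_le_sum key).trans ?_
    rw [Finset.sum_add_distrib, ← Finset.mul_sum]
    have : p * l * ∑ e ∈ β.support, ‖β e‖ ^ p * c e.1 e.2 * (γ e / β e) ≤ 0 :=
      mul_nonpos_of_nonneg_of_nonpos (by positivity) hD
    linarith

theorem shift {p : ℝ} (hp : 0 < p) (hp1 : p ≤ 1) {c : M → M → ℝ} (hc : ∀ x y, 0 ≤ c x y)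
    (β γ : (M × M) →₀ ℝ) (hne : γ ≠ 0) (hγ : γ.support ⊆ β.support) (h0 : bd γ = 0) :
    ∃ β1 : (M × M) →₀ ℝ, β1.support ⊂ β.support ∧ bd β1 = bd β ∧ cost p c β1 ≤ cost p c β := by
  have hw : ∀ e, 0 ≤ ‖β e‖ ^ p * c e.1 e.2 := fun e =>
    mul_nonneg (Real.rpow_nonneg (norm_nonneg _) _) (hc _ _)
  have hγ' : (-γ).support ⊆ β.support := by rwa [Finsupp.support_neg]
  have h0' : bd (-γ) = 0 := by rw [map_neg, h0, neg_zero]
  have hD' : ∑ e ∈ β.support, ‖β e‖ ^ p * c e.1 e.2 * ((-γ) e / β e) =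
      -∑ e ∈ β.support, ‖β e‖ ^ p * c e.1 e.2 * (γ e / β e) := by
    rw [← Finset.sum_neg_distrib]
    refine Finset.sum_congr rfl fun e _ => ?_
    rw [Finsupp.neg_apply]; ring
  have hex : ∀ g : (M × M) →₀ ℝ, ∑ e ∈ β.support, ‖β e‖ ^ p * c e.1 e.2 * (g e / β e) < 0 →
      ∃ e ∈ β.support, g e / β e < 0 := by
    intro g hg
    by_contra hn
    push Not at hn
    exact absurd hg (not_lt.2 (Finset.sum_nonneg fun e he => mul_nonneg (hw e) (hn e he)))
  rcases lt_trichotomy (∑ e ∈ β.support, ‖β e‖ ^ p * c e.1 e.2 * (γ e / β e)) 0 with h | h | h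
  · exact shift_aux hp hp1 hc β γ hγ h0 h.le (hex γ h)
  · obtain ⟨e, he⟩ := Finsupp.support_nonempty_iff.2 hne
    have h1 : γ e / β e ≠ 0 :=
      div_ne_zero (Finsupp.mem_support_iff.1 he) (Finsupp.mem_support_iff.1 (hγ he))
    rcases lt_or_gt_of_ne h1 with h2 | h2
    · exact shift_aux hp hp1 hc β γ hγ h0 h.le ⟨e, hγ he, h2⟩
    · refine shift_aux hp hp1 hc β (-γ) hγ' h0' (by rw [hD', h]; simp) ⟨e, hγ he, ?_⟩
      rw [Finsupp.neg_apply, neg_div]; linarith
  · exact shift_aux hp hp1 hc β (-γ) hγ' h0' (by rw [hD']; linarith)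
      (hex _ (by rw [hD']; linarith))

variable [MetricSpace M]

theorem forest {p : ℝ} (hp : 0 < p) (hp1 : p ≤ 1) {c : M → M → ℝ} (hc : ∀ x y, 0 ≤ c x y)
    {T : Type} (lv : T → ℝ → ℤ) (β : (M × M) →₀ ℝ) :
    ∃ (β' : (M × M) →₀ ℝ) (h : M → ℝ) (top : T → M → M),
      β'.support ⊆ β.support ∧ bd β' = bd β ∧ cost p c β' ≤ cost p c β ∧
      (∀ e ∈ β'.support, |h e.1 - h e.2| ≤ dist e.1 e.2) ∧
      (∀ t, ∀ e ∈ β'.support, lv t (h e.1) = lv t (h e.2) → top t e.1 = top t e.2) ∧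
      (∀ t x, dist x (top t x) ≤ h x - h (top t x) ∧ lv t (h (top t x)) = lv t (h x) ∧
        (top t x = x ∨ ∃ e ∈ β.support, top t x = e.1 ∨ top t x = e.2)) := by
  classical
  induction hn : β.support.card using Nat.strong_induction_on generalizing β with
  | _ n ih =>
  by_cases hS : β.support.Nonempty
  swap
  · rw [Finset.not_nonempty_iff_eq_empty] at hS
    refine ⟨β, fun _ => 0, fun _ x => x, le_rfl, rfl, le_rfl, ?_, ?_, ?_⟩
    · intro e he; simp [hS] at he
    · intro t e he; simp [hS] at he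
    · intro t x; simp
  by_cases hleaf : ∃ e w π, IsLeaf β.support e w π
  swap
  · push Not at hleaf
    obtain ⟨γ, hne, hγ, h0⟩ := exists_dep _ hS hleaf
    obtain ⟨β1, hlt, hbd, hcost⟩ := shift hp hp1 hc β γ hne hγ h0
    obtain ⟨β', h, top, a1, a2, a3, a4, a5, a6⟩ :=
      ih _ (hn ▸ Finset.card_lt_card hlt) β1 rfl
    refine ⟨β', h, top, a1.trans hlt.1, a2.trans hbd, a3.trans hcost, a4, a5, fun t x => ?_⟩
    obtain ⟨b1, b2, b3⟩ := a6 t x
    refine ⟨b1, b2, b3.imp id ?_⟩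
    rintro ⟨e, he, h⟩
    exact ⟨e, hlt.1 he, h⟩
  obtain ⟨e, w, π, he, hew, hwπ, hoth⟩ := hleaf
  have hsupp : (β.erase e).support = β.support.erase e := Finsupp.support_erase
  obtain ⟨β0, h0, top0, a1, a2, a3, a4, a5, a6⟩ :=
    ih _ (hn ▸ Finset.card_erase_lt_of_mem he) (β.erase e) (by rw [hsupp])
  have hav : ∀ e' ∈ (β.erase e).support, e'.1 ≠ w ∧ e'.2 ≠ w := by
    intro e' he'
    rw [hsupp, Finset.mem_erase] at he'
    exact hoth e' he'.2 he'.1
  have htop : ∀ t x, x ≠ w → top0 t x ≠ w := by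
    intro t x hx
    rcases (a6 t x).2.2 with h | ⟨e', he', h | h⟩
    · rwa [h]
    · rw [h]; exact (hav e' he').1
    · rw [h]; exact (hav e' he').2
  let h : M → ℝ := fun x => if x = w then h0 π + dist w π else h0 x
  have hw : h w = h0 π + dist w π := if_pos rfl
  have hx : ∀ x, x ≠ w → h x = h0 x := fun x hx => if_neg hx
  let top : T → M → M := fun t x =>
    if x = w then (if lv t (h w) = lv t (h0 π) then top0 t π else w) else top0 t x
  have topx : ∀ t x, x ≠ w → top t x = top0 t x := fun t x hx => if_neg hx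
  have topw : ∀ t, top t w = if lv t (h w) = lv t (h0 π) then top0 t π else w :=
    fun t => if_pos rfl
  have hsplit : β = β.erase e + single e (β e) := (Finsupp.erase_add_single e β).symm
  have hsub : (β0 + single e (β e)).support ⊆ β0.support ∪ {e} :=
    Finsupp.support_add.trans (Finset.union_subset_union le_rfl Finsupp.support_single_subset)
  have hπmem : ∃ e' ∈ β.support, π = e'.1 ∨ π = e'.2 := by
    refine ⟨e, he, ?_⟩
    rcases hew with h | h <;> simp [h]
  refine ⟨β0 + single e (β e), h, top, hsub.trans (Finset.union_subset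
    (a1.trans (by rw [hsupp]; exact Finset.erase_subset _ _)) (by simpa using he)), ?_, ?_, ?_,
    ?_, ?_⟩
  · rw [map_add, a2, ← map_add, ← hsplit]
  · refine ((psn_cost hp hp1 hc).add _ _).trans ?_
    rw [cost_single hp]
    have : cost p c β = cost p c (β.erase e) + ‖β e‖ ^ p * c e.1 e.2 := by
      rw [cost, cost, hsupp, ← Finset.add_sum_erase _ _ he, add_comm]
      congr 1
      refine Finset.sum_congr rfl fun e' he' => ?_
      rw [Finsupp.erase_ne (Finset.ne_of_mem_erase he')]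
    linarith
  · intro e' he'
    rcases Finset.mem_union.1 (hsub he') with h1 | h1
    · rw [hx _ (hav e' (a1 h1)).1, hx _ (hav e' (a1 h1)).2]; exact a4 e' h1
    · rw [Finset.mem_singleton.1 h1]
      rcases hew with h2 | h2
      · rw [h2]; dsimp only; rw [hw, hx π hwπ.symm]; simp
      · rw [h2]; dsimp only; rw [hw, hx π hwπ.symm, dist_comm π w]; simp
  · intro t e' he' hlv
    rcases Finset.mem_union.1 (hsub he') with h1 | h1
    · rw [hx _ (hav e' (a1 h1)).1, hx _ (hav e' (a1 h1)).2] at hlv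
      rw [topx _ _ (hav e' (a1 h1)).1, topx _ _ (hav e' (a1 h1)).2]; exact a5 t e' h1 hlv
    · rw [Finset.mem_singleton.1 h1] at hlv ⊢
      rcases hew with h2 | h2
      · rw [h2] at hlv ⊢; dsimp only at hlv ⊢
        rw [hx π hwπ.symm] at hlv
        rw [topw, if_pos hlv, topx _ _ hwπ.symm]
      · rw [h2] at hlv ⊢; dsimp only at hlv ⊢
        rw [hx π hwπ.symm] at hlv
        rw [topw, if_pos hlv.symm, topx _ _ hwπ.symm]
  · intro t x
    have hlift : ∀ y, (top0 t y = y ∨ ∃ e' ∈ (β.erase e).support,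
        top0 t y = e'.1 ∨ top0 t y = e'.2) →
        (top0 t y = y ∨ ∃ e' ∈ β.support, top0 t y = e'.1 ∨ top0 t y = e'.2) := by
      intro y hy
      refine hy.imp id ?_
      rintro ⟨e', he', h1⟩
      rw [hsupp] at he'
      exact ⟨e', Finset.mem_of_mem_erase he', h1⟩
    by_cases hxw : x = w
    · rw [hxw, topw]
      by_cases hl : lv t (h w) = lv t (h0 π)
      · rw [if_pos hl, hx _ (htop t π hwπ.symm)]
        obtain ⟨b1, b2, b3⟩ := a6 t π
        refine ⟨?_, by rw [b2, hl], Or.inr ?_⟩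
        · have := dist_triangle w π (top0 t π)
          rw [hw]; linarith
        · rcases hlift π b3 with h1 | h1
          · rw [h1]; exact hπmem
          · exact h1
      · rw [if_neg hl]; simp
    · rw [topx t x hxw, hx x hxw, hx _ (htop t x hxw)]
      obtain ⟨b1, b2, b3⟩ := a6 t x
      exact ⟨b1, b2, hlift x b3⟩

end Pool.Agent.H13Z.FreeP
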