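import Pool.Agent.H13Z.FreeP.Main

/-!
The molecule form of the free p-norm.
-/

namespace Pool.Agent.H13Z.FreeP

open Finsupp

variable {M : Type} [MetricSpace M]

/-- total mass -/
noncomputable def mass : (M →₀ ℝ) →ₗ[ℝ] ℝ := Finsupp.linearCombination ℝ (fun _ => (1 : ℝ))

theorem mass_eq (μ : M →₀ ℝ) : mass μ = μ.sum (fun _ a => a) := by
  simp [mass, Finsupp.linearCombination_apply]

theorem mass_single (x : M) (a : ℝ) : mass (single x a) = a := by simp [mass]

theorem mass_bd (β : (M × M) →₀ ℝ) : mass (bd β) = 0 := by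
  rw [bd_apply, map_sum]
  exact Finset.sum_eq_zero fun e _ => by simp [mass_single]

theorem isGLB_Q {p : ℝ} (hp : 0 < p) (hp1 : p ≤ 1) (o : M) (μ : M →₀ ℝ) (h0 : mass μ = 0) :
    IsGLB {t : ℝ | ∃ (n : ℕ) (b : Fin n → ℝ) (u v : Fin n → M),
      μ = ∑ j, b j • (Finsupp.single (u j) (1:ℝ) - Finsupp.single (v j) (1:ℝ)) ∧
      t = ∑ j, |b j| ^ p * dist (u j) (v j) ^ p} (Q p (dp p) {o} μ) := by
  have hQ := psn_Q (𝕜 := ℝ) hp hp1 (dp_nonneg p) (Set.mem_singleton o)
  constructor
  · rintro t ⟨n, b, u, v, rfl, rfl⟩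
    refine (hQ.sum_le hp _ _).trans (Finset.sum_le_sum fun j _ => ?_)
    rw [hQ.smul]
    exact mul_le_mul_of_nonneg_left (Q_edge hp hp1 (dp_nonneg p) _ _) (by positivity)
  · intro t ht
    refine le_Q (Set.mem_singleton o) fun β hβ => ht ?_
    have h1 : μ = bd β := by
      have h2 : μ - bd β = single o ((μ - bd β) o) := by
        ext x
        by_cases h : x = o
        · rw [h, Finsupp.single_eq_same]
        · rw [hβ x h, Finsupp.single_eq_of_ne h]
      have h3 := congrArg mass h2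
      rw [mass_single, map_sub, h0, mass_bd, sub_self] at h3
      rw [← h3, Finsupp.single_zero, sub_eq_zero] at h2
      exact h2
    let e := β.support.equivFin.symm
    refine ⟨_, fun j => β (e j), fun j => (e j).1.1, fun j => (e j).1.2, ?_, ?_⟩
    · rw [h1, bd_apply, ← Finset.sum_coe_sort]
      exact (Equiv.sum_comp e fun x => β x • (dl ℝ x.1.1 - dl ℝ x.1.2)).symm
    · rw [cost, ← Finset.sum_coe_sort]
      exact (Equiv.sum_comp e fun x => ‖β x‖ ^ p * dp p x.1.1 x.1.2).symm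

end Pool.Agent.H13Z.FreeP
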