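import Mathlib

/-!
An averaged derivative of Lipschitz functions on a normed space, in the style of the
Godefroy-Kalton lifting, controlled by difference quotients on a compact box.
-/

namespace Pool.Agent.H13Z.GK

open Filter Topology intervalIntegral

variable {X : Type} [NormedAddCommGroup X] [NormedSpace ℝ X]

theorem ii (h : C(X, ℝ)) (y v : X) (a b : ℝ) :
    IntervalIntegrable (fun s : ℝ => h (y + s • v)) MeasureTheory.volume a b :=
  (by fun_prop : Continuous fun s : ℝ => h (y + s • v)).intervalIntegrable a b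

/-- average along a segment -/
noncomputable def avg (v : X) : C(X, ℝ) →ₗ[ℝ] C(X, ℝ) where
  toFun h := ⟨fun y => ∫ s in (0 : ℝ)..1, h (y + s • v),
    continuous_parametric_intervalIntegral_of_continuous' (f := fun y (s : ℝ) => h (y + s • v))
      (by unfold Function.uncurry; fun_prop) 0 1⟩
  map_add' f g := by
    ext y
    exact integral_add (ii f y v 0 1) (ii g y v 0 1)
  map_smul' c f := by
    ext y
    exact integral_const_mul c _

theorem avg_apply (v : X) (h : C(X, ℝ)) (y : X) :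
    avg v h y = ∫ s in (0 : ℝ)..1, h (y + s • v) := rfl

/-- iterated average -/
noncomputable def Mv (u : ℕ → X) : ℕ → (C(X, ℝ) →ₗ[ℝ] C(X, ℝ))
  | 0 => LinearMap.id
  | N + 1 => avg (u N) ∘ₗ Mv u N

theorem Mv_succ (u : ℕ → X) (N : ℕ) (h : C(X, ℝ)) (y : X) :
    Mv u (N + 1) h y = ∫ s in (0 : ℝ)..1, Mv u N h (y + s • u N) := rfl

/-- translation -/
noncomputable def tr (v : X) : C(X, ℝ) →ₗ[ℝ] C(X, ℝ) where
  toFun h := ⟨fun y => h (y + v), by fun_prop⟩
  map_add' _ _ := rfl
  map_smul' _ _ := rfl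

theorem tr_apply (v : X) (h : C(X, ℝ)) (y : X) : tr v h y = h (y + v) := rfl

theorem Mv_tr (u : ℕ → X) (N : ℕ) (v : X) (h : C(X, ℝ)) (y : X) :
    Mv u N (tr v h) y = Mv u N h (y + v) := by
  induction N generalizing y with
  | zero => rfl
  | succ N ih =>
    rw [Mv_succ, Mv_succ]
    refine integral_congr fun s _ => ?_
    simp only [ih, add_right_comm]

theorem Mv_const (u : ℕ → X) (N : ℕ) (c : ℝ) (h : C(X, ℝ)) (hc : ∀ y, h y = c) (y : X) :
    Mv u N h y = c := by
  induction N generalizing y with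
  | zero => exact hc y
  | succ N ih => rw [Mv_succ]; simp [ih]

/-- bound on a box -/
def Box (u : ℕ → X) (h : C(X, ℝ)) (y : X) (N : ℕ) (r B : ℝ) : Prop :=
  ∀ ω : ℕ → ℝ, (∀ i, |ω i| ≤ r) → |h (y + ∑ i ∈ Finset.range N, ω i • u i)| ≤ B

theorem Box.step {u : ℕ → X} {h : C(X, ℝ)} {y : X} {N : ℕ} {r B : ℝ}
    (hb : Box u h y (N + 1) r B) {s : ℝ} (hs : |s| ≤ r) : Box u h (y + s • u N) N r B := by
  intro ω hω
  have := hb (Function.update ω N s) (fun i => by
    by_cases hi : i = N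
    · rwa [hi, Function.update_self]
    · rw [Function.update_of_ne hi]; exact hω i)
  rw [Finset.sum_range_succ, Function.update_self,
    Finset.sum_congr rfl (fun i hi => by
      rw [Function.update_of_ne (Finset.mem_range.1 hi).ne])] at this
  rwa [add_assoc, add_comm (s • u N)]

theorem Mv_bd {u : ℕ → X} {h : C(X, ℝ)} {N : ℕ} {r B : ℝ} (hr : 1 ≤ r) {y : X}
    (hb : Box u h y N r B) : |Mv u N h y| ≤ B := by
  induction N generalizing y with
  | zero =>
    have := hb 0 (fun i => by simp; linarith)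
    rw [Finset.sum_range_zero, add_zero] at this
    exact this
  | succ N ih =>
    rw [Mv_succ]
    have := norm_integral_le_of_norm_le_const (a := 0) (b := 1) (C := B)
      (f := fun s : ℝ => Mv u N h (y + s • u N)) fun s hs => by
        rw [Set.uIoc_of_le zero_le_one] at hs
        exact ih (hb.step (by rw [abs_of_pos hs.1]; linarith [hs.2]))
    simpa using this

theorem Mv_shift {u : ℕ → X} {h : C(X, ℝ)} {N n : ℕ} (hn : n < N) {r B a : ℝ}
    (hr : 1 + |a| ≤ r) {y : X} (hb : Box u h y N r B) :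
    |Mv u N h (y + a • u n) - Mv u N h y| ≤ 2 * |a| * B := by
  have hr1 : 1 ≤ r := by linarith [abs_nonneg a]
  induction N generalizing y with
  | zero => omega
  | succ N ih =>
    rw [Mv_succ, Mv_succ]
    rcases Nat.lt_succ_iff_lt_or_eq.1 hn with h1 | h1
    · rw [← integral_sub (ii _ _ _ _ _) (ii _ _ _ _ _)]
      have := norm_integral_le_of_norm_le_const (a := 0) (b := 1) (C := 2 * |a| * B)
        (f := fun s : ℝ => Mv u N h (y + a • u n + s • u N) - Mv u N h (y + s • u N))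
        fun s hs => by
          rw [Set.uIoc_of_le zero_le_one] at hs
          rw [add_right_comm]
          exact ih h1 (hb.step (by rw [abs_of_pos hs.1]; linarith [hs.2]))
      simpa using this
    · subst h1
      have e1 : ∫ s in (0 : ℝ)..1, Mv u n h (y + a • u n + s • u n) =
          ∫ s in a..(1 + a), Mv u n h (y + s • u n) := by
        have := integral_comp_add_right (a := 0) (b := 1)
          (fun s : ℝ => Mv u n h (y + s • u n)) a
        rw [zero_add] at this
        rw [← this]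
        refine integral_congr fun s _ => ?_
        simp only [add_smul, add_assoc, add_comm (s • u n)]
      rw [e1, integral_interval_sub_interval_comm' (ii _ _ _ _ _) (ii _ _ _ _ _) (ii _ _ _ _ _)]
      have key : ∀ c d : ℝ, |c| ≤ r → |d| ≤ r →
          |∫ s in c..d, Mv u n h (y + s • u n)| ≤ B * |d - c| := fun c d hc hd =>
        norm_integral_le_of_norm_le_const (f := fun s : ℝ => Mv u n h (y + s • u n))
          fun s hs => Mv_bd hr1 (hb.step (by
            rw [abs_le] at hc hd ⊢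
            rcases hs with ⟨h1, h2⟩
            constructor
            · exact (le_min hc.1 hd.1).trans h1.le
            · exact h2.trans (max_le hc.2 hd.2)))
      have k1 := key 1 (1 + a) (by simpa using hr1) ((abs_add_le _ _).trans (by simpa using hr))
      have k2 := key 0 a (by simp; linarith) (by linarith)
      rw [add_sub_cancel_left] at k1
      rw [sub_zero] at k2
      refine (abs_sub _ _).trans ?_
      linarith

theorem shift_span {u : ℕ → X} {w : X} (hw : w ∈ Submodule.span ℝ (Set.range u)) :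
    ∃ C : ℝ, ∃ N0 : ℕ, ∀ N ≥ N0, ∀ (h : C(X, ℝ)) (B : ℝ), (∀ y, |h y| ≤ B) → ∀ (t : ℝ) (y : X),
      |Mv u N h (y + t • w) - Mv u N h y| ≤ C * |t| * B := by
  induction hw using Submodule.span_induction with
  | mem x hx =>
    obtain ⟨n, rfl⟩ := hx
    exact ⟨2, n + 1, fun N hN h B hB t y => Mv_shift hN le_rfl fun ω _ => hB _⟩
  | zero => exact ⟨0, 0, fun N _ h B _ t y => by simp⟩
  | add x z _ _ ihx ihz =>
    obtain ⟨C1, N1, h1⟩ := ihx
    obtain ⟨C2, N2, h2⟩ := ihz
    refine ⟨C1 + C2, max N1 N2, fun N hN h B hB t y => ?_⟩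
    have a1 := h1 N (le_of_max_le_left hN) h B hB t y
    have a2 := h2 N (le_of_max_le_right hN) h B hB t (y + t • x)
    rw [smul_add, ← add_assoc]
    have := abs_sub_le (Mv u N h (y + t • x + t • z)) (Mv u N h (y + t • x)) (Mv u N h y)
    linarith
  | smul c x _ ih =>
    obtain ⟨C, N0, h1⟩ := ih
    refine ⟨C * |c|, N0, fun N hN h B hB t y => ?_⟩
    have := h1 N hN h B hB (t * c) y
    rw [smul_smul]
    refine this.trans (le_of_eq ?_)
    rw [abs_mul]; ring

/-- difference quotient at scale `2^{-k}` -/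
noncomputable def dq (k : ℕ) (x : X) : C(X, ℝ) →ₗ[ℝ] C(X, ℝ) :=
  (2 : ℝ) ^ k • (tr ((1 / 2 : ℝ) ^ k • x) - LinearMap.id)

theorem dq_apply (k : ℕ) (x : X) (f : C(X, ℝ)) (y : X) :
    dq k x f y = 2 ^ k * (f (y + (1 / 2 : ℝ) ^ k • x) - f y) := rfl

theorem dq_bd {f : C(X, ℝ)} {K : ℝ} (hf : ∀ a b, |f a - f b| ≤ K * ‖a - b‖) (k : ℕ) (x y : X) :
    |dq k x f y| ≤ K * ‖x‖ := by
  have := hf (y + (1 / 2 : ℝ) ^ k • x) y
  rw [add_sub_cancel_left, norm_smul, Real.norm_of_nonneg (by positivity)] at this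
  rw [dq_apply, abs_mul, abs_of_pos (by positivity : (0 : ℝ) < 2 ^ k)]
  calc _ ≤ 2 ^ k * (K * ((1 / 2) ^ k * ‖x‖)) := by gcongr
    _ = K * ‖x‖ := by rw [one_div, inv_pow]; field_simp

theorem dq_add (k : ℕ) (x w : X) (f : C(X, ℝ)) :
    dq k (x + w) f = tr ((1 / 2 : ℝ) ^ k • w) (dq k x f) + dq k w f := by
  ext y
  simp only [ContinuousMap.add_apply, tr_apply, dq_apply, smul_add]
  rw [add_right_comm y, add_assoc y]
  ring

theorem dq_succ (k : ℕ) (x : X) (f : C(X, ℝ)) :
    dq k x f = (1 / 2 : ℝ) • (tr ((1 / 2 : ℝ) ^ (k + 1) • x) (dq (k + 1) x f) + dq (k + 1) x f) := by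
  ext y
  simp only [ContinuousMap.add_apply, ContinuousMap.smul_apply, tr_apply, dq_apply, smul_eq_mul]
  have : y + (1 / 2 : ℝ) ^ (k + 1) • x + (1 / 2 : ℝ) ^ (k + 1) • x = y + (1 / 2 : ℝ) ^ k • x := by
    rw [add_assoc, ← add_smul]; congr 2; ring
  rw [this]; ring

/-- the approximating functionals -/
noncomputable def D (u : ℕ → X) (N k : ℕ) (x : X) (f : C(X, ℝ)) : ℝ := Mv u N (dq k x f) 0

theorem D_tele {u : ℕ → X} {f : C(X, ℝ)} {n N : ℕ} (hn : n < N) {ε : ℝ}
    (hb : ∀ j, Box u (dq (n + j) ((2 : ℝ) ^ n • u n) f) 0 N 2 (ε * (3 / 2) ^ j)) (j : ℕ) :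
    |D u N (n + j) ((2 : ℝ) ^ n • u n) f| ≤ ε * (4 - 3 * (3 / 4) ^ j) := by
  induction j with
  | zero =>
    have := Mv_bd (by norm_num) (hb 0)
    refine this.trans (le_of_eq (by ring))
  | succ j ih =>
    have e1 : (1 / 2 : ℝ) ^ (n + j + 1) • (2 : ℝ) ^ n • u n = (1 / 2 : ℝ) ^ (j + 1) • u n := by
      rw [smul_smul]; congr 1
      rw [add_assoc, pow_add, mul_right_comm, ← mul_pow]; norm_num
    have h0 : (0 : ℝ) < (1 / 2) ^ (j + 1) := by positivity
    have h1 : (1 / 2 : ℝ) ^ (j + 1) ≤ 1 := pow_le_one₀ (by norm_num) (by norm_num)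
    have h2 := Mv_shift hn (a := (1 / 2) ^ (j + 1)) (by rw [abs_of_pos h0]; linarith) (hb (j + 1))
    have h3 : D u N (n + j) ((2 : ℝ) ^ n • u n) f = 1 / 2 *
        (Mv u N (dq (n + (j + 1)) ((2 : ℝ) ^ n • u n) f) (0 + (1 / 2 : ℝ) ^ (j + 1) • u n) +
          D u N (n + (j + 1)) ((2 : ℝ) ^ n • u n) f) := by
      rw [D, dq_succ, map_smul, map_add, ContinuousMap.smul_apply, ContinuousMap.add_apply,
        Mv_tr, e1]
      rfl
    rw [abs_of_pos h0] at h2
    have e2 : 2 * (1 / 2 : ℝ) ^ (j + 1) * (ε * (3 / 2) ^ (j + 1)) = 2 * (ε * (3 / 4) ^ (j + 1)) := by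
      rw [show (3 / 4 : ℝ) = 1 / 2 * (3 / 2) by norm_num, mul_pow]; ring
    rw [e2] at h2
    change |_ - D u N (n + (j + 1)) ((2 : ℝ) ^ n • u n) f| ≤ _ at h2
    rw [abs_le] at h2 ih ⊢
    rw [pow_succ] at h2 ⊢
    constructor <;> linarith [h2.1, h2.2, ih.1, ih.2]

/-- the limiting ultrafilter -/
noncomputable def U : Ultrafilter ℕ := hyperfilter ℕ

theorem U_le : (U : Filter ℕ) ≤ atTop := by
  rw [← Nat.cofinite_eq_atTop]; exact hyperfilter_le_cofinite

theorem exists_functional (u : ℕ → X) {f : C(X, ℝ)} {K : ℝ}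
    (hf : ∀ a b, |f a - f b| ≤ K * ‖a - b‖) : ∃ L : X →L[ℝ] ℝ,
      ∀ x ∈ Submodule.span ℝ (Set.range u), Tendsto (fun k => D u k k x f) U (𝓝 (L x)) := by
  have hbd : ∀ k x, |D u k k x f| ≤ K * ‖x‖ := fun k x =>
    Mv_bd le_rfl fun ω _ => dq_bd hf k x _
  have hlim : ∀ x, ∃ α, Tendsto (fun k => D u k k x f) U (𝓝 α) := by
    intro x
    obtain ⟨α, -, hα⟩ := (isCompact_Icc (a := -(K * ‖x‖)) (b := K * ‖x‖)).ultrafilter_le_nhds
      (U.map fun k => D u k k x f) (by
        rw [Ultrafilter.coe_map, le_principal_iff, mem_map]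
        exact Eventually.of_forall fun k => abs_le.1 (hbd k x))
    exact ⟨α, hα⟩
  choose Λ hΛ using hlim
  have hΛb : ∀ x, |Λ x| ≤ K * ‖x‖ := fun x => le_of_tendsto' (hΛ x).abs fun k => hbd k x
  have hadd : ∀ x, ∀ w ∈ Submodule.span ℝ (Set.range u), Λ (x + w) = Λ x + Λ w := by
    intro x w hw
    obtain ⟨C, N0, hC⟩ := shift_span hw
    have h1 : Tendsto (fun k => D u k k (x + w) f - (D u k k x f + D u k k w f)) atTop (𝓝 0) := by
      have h2 : Tendsto (fun k : ℕ => C * (1 / 2 : ℝ) ^ k * (K * ‖x‖)) atTop (𝓝 0) := by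
        have := ((tendsto_pow_atTop_nhds_zero_of_lt_one (r := (1 / 2 : ℝ)) (by norm_num)
          (by norm_num)).const_mul C).mul_const (K * ‖x‖)
        simpa using this
      refine squeeze_zero_norm' ?_ h2
      filter_upwards [eventually_ge_atTop N0] with k hk
      have h3 := hC k hk (dq k x f) _ (dq_bd hf k x) ((1 / 2) ^ k) 0
      rw [abs_of_pos (by positivity : (0 : ℝ) < (1 / 2) ^ k)] at h3
      refine le_trans (le_of_eq ?_) h3
      rw [D, D, D, dq_add, map_add, ContinuousMap.add_apply, Mv_tr, Real.norm_eq_abs]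
      congr 1; ring
    have h4 := (hΛ (x + w)).sub ((hΛ x).add (hΛ w))
    exact sub_eq_zero.1 (tendsto_nhds_unique h4 (h1.mono_left U_le))
  let A : Submodule.span ℝ (Set.range u) →+ ℝ :=
    AddMonoidHom.mk' (fun w => Λ w) fun a b => hadd a b b.2
  have hA : Continuous A := AddMonoidHomClass.continuous_of_bound A K fun w => hΛb w
  obtain ⟨L, hL, -⟩ := exists_extension_norm_eq _ (A.toRealLinearMap hA)
  refine ⟨L, fun x hx => ?_⟩
  rw [hL ⟨x, hx⟩]
  exact hΛ x

/-- Linearisation of a finite rank Lipschitz map. -/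
theorem linearise (u : ℕ → X) (g : X → X) {K : ℝ} (hg : ∀ a b, ‖g a - g b‖ ≤ K * ‖a - b‖)
    (V : Submodule ℝ X) [FiniteDimensional ℝ V] (hV : ∀ y, g y ∈ V) {ε : ℝ}
    (hb : ∀ (n j N : ℕ) (ω : ℕ → ℝ), (∀ i, |ω i| ≤ 2) → ∀ y, y = ∑ i ∈ Finset.range N, ω i • u i →
      ‖(2 : ℝ) ^ (n + j) • (g (y + (1 / 2 : ℝ) ^ (n + j) • (2 : ℝ) ^ n • u n) - g y) -
        (2 : ℝ) ^ n • u n‖ ≤ ε * (3 / 2) ^ j) :
    ∃ S : X →L[ℝ] X, FiniteDimensional ℝ (LinearMap.range (S : X →ₗ[ℝ] X)) ∧
      ∀ n, ‖S ((2 : ℝ) ^ n • u n) - (2 : ℝ) ^ n • u n‖ ≤ 4 * ε := by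
  have hgc : Continuous g :=
    (LipschitzWith.of_dist_le' (K := K) fun a b => by
      rw [dist_eq_norm, dist_eq_norm]; exact hg a b).continuous
  let b := Module.finBasis ℝ V
  let c : Fin (Module.finrank ℝ V) → (V →L[ℝ] ℝ) := fun i =>
    LinearMap.toContinuousLinearMap (b.coord i)
  let f : Fin (Module.finrank ℝ V) → C(X, ℝ) := fun i =>
    ⟨fun y => c i ⟨g y, hV y⟩, (c i).continuous.comp (hgc.subtype_mk _)⟩
  have hf : ∀ i a a', |f i a - f i a'| ≤ ‖c i‖ * K * ‖a - a'‖ := by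
    intro i a a'
    have h1 := (c i).le_opNorm (⟨g a, hV a⟩ - ⟨g a', hV a'⟩)
    rw [map_sub] at h1
    rw [mul_assoc]
    exact h1.trans (mul_le_mul_of_nonneg_left (hg a a') (norm_nonneg _))
  choose L hL using fun i => exists_functional u (hf i)
  have hrep : ∀ y, g y = ∑ i, f i y • (b i : X) := by
    intro y
    have := congrArg Subtype.val (b.sum_repr ⟨g y, hV y⟩)
    rw [Submodule.coe_sum] at this
    exact this.symm
  refine ⟨∑ i, (L i).smulRight (b i : X), ?_, fun n => ?_⟩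
  · refine Submodule.finiteDimensional_of_le (S₂ := V) ?_
    rintro _ ⟨x, rfl⟩
    simp only [ContinuousLinearMap.coe_coe, sum_apply,
      ContinuousLinearMap.smulRight_apply]
    exact Submodule.sum_mem _ fun i _ => Submodule.smul_mem _ _ (b i).2
  set x := (2 : ℝ) ^ n • u n with hx
  have hxs : x ∈ Submodule.span ℝ (Set.range u) :=
    Submodule.smul_mem _ _ (Submodule.subset_span ⟨n, rfl⟩)
  obtain ⟨φ, hφ1, hφ2⟩ := exists_dual_vector'' ℝ ((∑ i, (L i).smulRight (b i : X)) x - x)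
  let φc : C(X, ℝ) := ⟨φ, φ.continuous⟩
  let F : C(X, ℝ) := ∑ i, φ (b i) • f i - φc
  have hF : ∀ y, F y = φ (g y - y) := by
    intro y
    simp only [F, φc, ContinuousMap.sub_apply, ContinuousMap.coe_sum, Finset.sum_apply,
      ContinuousMap.smul_apply, smul_eq_mul, ContinuousMap.coe_mk]
    rw [map_sub, hrep y, map_sum]
    simp [mul_comm]
  have hD : ∀ k, D u k k x F = ∑ i, φ (b i) * D u k k x (f i) - φ x := by
    intro k
    have h1 : D u k k x φc = φ x := Mv_const u k _ _ (fun y => by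
      simp only [dq_apply, φc, ContinuousMap.coe_mk, map_add, map_smul, smul_eq_mul]
      rw [one_div, inv_pow]; field_simp; ring) 0
    rw [← h1]
    simp [D, F, map_sub, map_sum]
  have hT : Tendsto (fun k => D u k k x F) U (𝓝 (∑ i, φ (b i) * L i x - φ x)) := by
    simp only [hD]
    exact (tendsto_finsetSum _ fun i _ => (hL i x hxs).const_mul _).sub_const _
  have hval : ∑ i, φ (b i) * L i x - φ x = ‖(∑ i, (L i).smulRight (b i : X)) x - x‖ := by
    have : (‖(∑ i, (L i).smulRight (b i : X)) x - x‖ : ℝ) = φ _ := hφ2.symm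
    rw [this]
    simp [map_sum, mul_comm]
  rw [← hval]
  refine le_of_tendsto hT ?_
  filter_upwards [U_le (eventually_gt_atTop n)] with k hk
  obtain ⟨j, rfl⟩ := Nat.exists_eq_add_of_le hk.le
  have hε : 0 ≤ ε := by
    have := (norm_nonneg _).trans (hb 0 0 0 0 (fun i => by simp) _ rfl)
    simpa using this
  have h1 := D_tele (u := u) (f := F) hk (ε := ε) (fun j' ω hω => by
    have h2 := hb n j' (n + j) ω hω _ rfl
    rw [zero_add, dq_apply, hF, hF, ← map_sub, ← smul_eq_mul, ← map_smul]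
    refine (φ.le_opNorm _).trans ((mul_le_of_le_one_left (norm_nonneg _) hφ1).trans
      (le_trans (le_of_eq ?_) h2))
    congr 1
    have : (2 : ℝ) ^ (n + j') • (1 / 2 : ℝ) ^ (n + j') • x = x := by
      rw [smul_smul, ← mul_pow]; norm_num
    rw [← hx]
    conv_rhs => rw [← this]
    rw [← smul_sub]; congr 1
    rw [this]; abel) j
  have h3 : (0 : ℝ) ≤ (3 / 4) ^ j := by positivity
  have h4 := (abs_le.1 h1).2
  nlinarith

end Pool.Agent.H13Z.GK
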