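import Pool.Agent.H13Z.FreeP.Exists

/-!
The intersection property of free p-spaces over complete metric spaces.
-/

namespace Pool.Agent.H13Z.FreeP

open Finsupp Filter Topology Metric

universe u

variable {𝕜 : Type} [RCLike 𝕜] {M : Type u} [MetricSpace M] {p : ℝ} {o : M}

theorem Q_dl_infDist (hp : 0 < p) (hp1 : p ≤ 1) {K : Set M} (ho : o ∈ K) (x : M) :
    Q p (dp p) K (dl 𝕜 x) ≤ infDist x K ^ p := by
  have hc : ContinuousAt (fun t : ℝ => t ^ p) (infDist x K) :=
    Real.continuousAt_rpow_const _ _ (Or.inr hp.le)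
  refine ge_of_tendsto (hc.tendsto.mono_left (nhdsWithin_le_nhds (s := Set.Ioi (infDist x K)))) ?_
  filter_upwards [self_mem_nhdsWithin] with t ht
  obtain ⟨z, hz, hlt⟩ := (infDist_lt_iff ⟨o, ho⟩).1 ht
  exact (Q_dl hp hp1 (dp_nonneg p) ho x hz).trans (Real.rpow_le_rpow dist_nonneg hlt.le hp.le)

/-- edge bound for a cutoff with bounded support -/
theorem cut_bdd (hp : 0 < p) (hp1 : p ≤ 1) {K L : Set M} (hoK : o ∈ K) (hoL : o ∈ L) {R δ : ℝ}
    (hδ : 0 < δ) (hL : L ⊆ closedBall o R) (x y : M) :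
    Q p (dp p) K (mulL (fun z => cutf 0 δ (infDist z L)) (dl 𝕜 x - dl 𝕜 y)) ≤
      (1 + ((R + δ) / δ) ^ p) * dp p x y := by
  have hR : 0 ≤ R := by simpa using hL hoL
  have hQ := psn_Q (𝕜 := 𝕜) hp hp1 (dp_nonneg p) hoK
  have hlip : |cutf 0 δ (infDist x L) - cutf 0 δ (infDist y L)| ≤ dist x y / δ := by
    have := cutf_lip hδ (infDist x L) (infDist y L)
    rw [sub_zero] at this
    exact this.trans (div_le_div_of_nonneg_right (infDist_lip L x y) hδ.le)
  have key : ∀ z, cutf 0 δ (infDist z L) ≠ 0 →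
      |cutf 0 δ (infDist x L) - cutf 0 δ (infDist y L)| ^ p * Q p (dp p) K (dl 𝕜 z) ≤
        ((R + δ) / δ) ^ p * dp p x y := by
    intro z hz
    have hz' : infDist z L < δ := not_le.1 fun h => hz (cutf_zero hδ h)
    obtain ⟨w, hw, hlt⟩ := (infDist_lt_iff ⟨o, hoL⟩).1 hz'
    have h1 : dist z o ≤ R + δ := by
      have := dist_triangle z w o
      have := mem_closedBall.1 (hL hw)
      linarith
    refine rpow_mul_le hp (abs_nonneg _) dist_nonneg (by positivity) dist_nonneg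
      (Q_dl hp hp1 (dp_nonneg p) hoK z hoK) ?_
    calc _ ≤ dist x y / δ * (R + δ) := by gcongr
      _ = (R + δ) / δ * dist x y := by ring
  refine cut_edge hQ hp (Q_edge hp hp1 (dp_nonneg p)) _ (fun z => cutf_abs _ _ _) x y ?_
  by_cases hx : cutf 0 δ (infDist x L) = 0
  · by_cases hy : cutf 0 δ (infDist y L) = 0
    · left
      rw [hx, hy, sub_self, abs_zero, Real.zero_rpow hp.ne', zero_mul]
      exact mul_nonneg (by positivity) (dp_nonneg _ _ _)
    · exact Or.inr (key y hy)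
  · exact Or.inl (key x hx)

/-- splitting along a multiplier -/
theorem Q_split (hp : 0 < p) (hp1 : p ≤ 1) {Z K L : Set M} (hoZ : o ∈ Z) (hoK : o ∈ K)
    (hoL : o ∈ L) (φ : M → ℝ) {C : ℝ} (hC : 0 ≤ C)
    (hedge : ∀ x y, Q p (dp p) Z (mulL φ (dl 𝕜 x - dl 𝕜 y)) ≤ C * dp p x y)
    (hK : ∀ z ∈ K, φ z = 0 ∨ z ∈ Z) (hL : ∀ z ∈ L, φ z = 1) (μ : M →₀ 𝕜) :
    Q p (dp p) Z (mulL φ μ) ≤ C * Q p (dp p) K μ ∧
      Q p (dp p) Z μ ≤ Q p (dp p) Z (mulL φ μ) + (1 + C) * Q p (dp p) L μ := by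
  have hZ := psn_Q (𝕜 := 𝕜) hp hp1 (dp_nonneg p) hoZ
  have b1 := (hZ.comp (mulL φ)).le_Q (c := dp p) hp hoK hC hedge
    (fun z hz => by
      refine Q_eq_zero hp hp1 (dp_nonneg p) hoZ ?_
      rw [mulL_dl]
      rcases hK z hz with h | h
      · rw [h]; simpa using supp_zero _
      · exact (supp_single h 1).smul _) μ
  have b2 := (hZ.comp (LinearMap.id - mulL φ)).le_Q (c := dp p) hp hoL (C := 1 + C)
    (by positivity)
    (fun x y => by
      have h3 := hZ.sub (dl 𝕜 x - dl 𝕜 y) (mulL φ (dl 𝕜 x - dl 𝕜 y))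
      have h4 := hedge x y
      have h5 := Q_edge (𝕜 := 𝕜) (K := Z) hp hp1 (dp_nonneg p) x y
      change Q p (dp p) Z ((dl 𝕜 x - dl 𝕜 y) - mulL φ (dl 𝕜 x - dl 𝕜 y)) ≤ _
      linarith)
    (fun z hz => by
      change Q p (dp p) Z (dl 𝕜 z - mulL φ (dl 𝕜 z)) = 0
      rw [mulL_dl, hL z hz]
      simpa using hZ.zero hp) μ
  have b3 := hZ.le_add_sub μ (mulL φ μ)
  change Q p (dp p) Z (μ - mulL φ μ) ≤ _ at b2
  exact ⟨b1, by linarith⟩

/-- a Cauchy sequence with an explicit modulus -/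
structure CS (p : ℝ) (o : M) (μ : ℕ → (M →₀ 𝕜)) (e : ℕ → ℝ) : Prop where
  lim : Tendsto e atTop (𝓝 0)
  bd : ∀ m l, Q p (dp p) {o} (μ m - μ l) ≤ e m + e l

/-- the limit of the sequence lies in the closed span of `K` -/
def In (p : ℝ) (μ : ℕ → (M →₀ 𝕜)) (K : Set M) : Prop :=
  Tendsto (fun m => Q p (dp p) K (μ m)) atTop (𝓝 0)

variable {μ : ℕ → (M →₀ 𝕜)} {e : ℕ → ℝ}

theorem CS.le (h : CS p o μ e) (hp : 0 < p) (hp1 : p ≤ 1) {K : Set M} (ho : o ∈ K)
    (hK : In p μ K) (m : ℕ) : Q p (dp p) K (μ m) ≤ e m := by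
  have h1 : Tendsto (fun l => Q p (dp p) K (μ l) + (e m + e l)) atTop (𝓝 (0 + (e m + 0))) :=
    hK.add (tendsto_const_nhds.add h.lim)
  rw [zero_add, add_zero] at h1
  refine ge_of_tendsto' h1 fun l => ?_
  have h2 := (psn_Q (𝕜 := 𝕜) hp hp1 (dp_nonneg p) ho).le_add_sub (μ m) (μ l)
  have h3 : Q p (dp p) K (μ m - μ l) ≤ Q p (dp p) {o} (μ m - μ l) :=
    Q_mono hp hp1 (dp_nonneg p) (fun _ _ => le_rfl) (Set.mem_singleton o) (by simpa using ho) _
  linarith [h.bd m l]

theorem CS.in_of_le (h : CS p o μ e) (hp : 0 < p) (hp1 : p ≤ 1) {K : Set M} (ho : o ∈ K)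
    {C : ℝ} (hC : ∀ m, Q p (dp p) K (μ m) ≤ C * e m) : In p μ K := by
  have h1 := h.lim.const_mul C
  rw [mul_zero] at h1
  exact squeeze_zero (fun m => (psn_Q hp hp1 (dp_nonneg p) ho).nonneg _) hC h1

theorem In.mono (hp : 0 < p) (hp1 : p ≤ 1) {K L : Set M} (ho : o ∈ K) (hK : In p μ K)
    (hKL : K ⊆ L) : In p μ L :=
  squeeze_zero (fun _ => (psn_Q hp hp1 (dp_nonneg p) (hKL ho)).nonneg _)
    (fun _ => Q_mono hp hp1 (dp_nonneg p) (fun _ _ => le_rfl) ho hKL _) hK

theorem CS.inter (h : CS p o μ e) (hp : 0 < p) (hp1 : p ≤ 1) {K L : Set M} (hoK : o ∈ K)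
    (hoL : o ∈ L) (hK : In p μ K) (hL : In p μ L) {R δ : ℝ} (hδ : 0 < δ)
    (hLR : L ⊆ closedBall o R) : In p μ (K ∩ {y | infDist y L ≤ δ}) := by
  have hR : 0 ≤ R := by simpa using hLR hoL
  have ho : o ∈ K ∩ {y | infDist y L ≤ δ} :=
    ⟨hoK, by simp [infDist_zero_of_mem hoL, hδ.le]⟩
  set C := 1 + ((R + δ) / δ) ^ p
  have hC : 0 ≤ C := by positivity
  refine h.in_of_le hp hp1 ho (C := C + (1 + C)) fun m => ?_
  obtain ⟨b1, b2⟩ := Q_split hp hp1 ho hoK hoL (fun z => cutf 0 δ (infDist z L)) hC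
    (cut_bdd hp hp1 ho hoL hδ hLR)
    (fun z hz => by
      by_cases h1 : δ ≤ infDist z L
      · exact Or.inl (cutf_zero hδ h1)
      · exact Or.inr ⟨hz, (not_le.1 h1).le⟩)
    (fun z hz => cutf_one hδ (infDist_zero_of_mem hz).le) (μ m)
  have c1 := mul_le_mul_of_nonneg_left (h.le hp hp1 hoK hK m) hC
  have c2 := mul_le_mul_of_nonneg_left (h.le hp hp1 hoL hL m) (by positivity : 0 ≤ 1 + C)
  linarith

theorem CS.of_nhds (h : CS p o μ e) (hp : 0 < p) (hp1 : p ≤ 1) {Z : Set M} (ho : o ∈ Z)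
    (hZ : IsClosed Z) (hin : ∀ δ > 0, In p μ {y | infDist y Z ≤ δ}) : In p μ Z := by
  refine h.in_of_le hp hp1 ho (C := 1 + 4) fun m => ?_
  obtain ⟨δ, hδ, hfar⟩ : ∃ δ > 0, ∀ y ∈ (μ m).support, y ∉ Z → 2 * δ ≤ infDist y Z := by
    classical
    by_cases hne : ((μ m).support.filter (· ∉ Z)).Nonempty
    · obtain ⟨y0, hy0, hmin⟩ := Finset.exists_min_image _ (fun y => infDist y Z) hne
      have := (hZ.notMem_iff_infDist_pos ⟨o, ho⟩).1 (Finset.mem_filter.1 hy0).2
      refine ⟨infDist y0 Z / 2, by positivity, fun y hy hy' => ?_⟩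
      have := hmin y (Finset.mem_filter.2 ⟨hy, hy'⟩)
      linarith
    · exact ⟨1, one_pos, fun y hy hy' => absurd ⟨y, Finset.mem_filter.2 ⟨hy, hy'⟩⟩ hne⟩
  have hlt : δ < 2 * δ := by linarith
  have hoL : o ∈ {y | infDist y Z ≤ δ} := by simp [infDist_zero_of_mem ho, hδ.le]
  obtain ⟨-, b2⟩ := Q_split hp hp1 ho ho hoL (fun z => cutf δ (2 * δ) (infDist z Z))
    (by norm_num : (0 : ℝ) ≤ 4)
    (cut_Q hp hp1 ho (fun _ => infDist_nonneg) (infDist_lip Z) (Q_dl_infDist hp hp1 ho) hlt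
      (by linarith))
    (fun z hz => Or.inr hz) (fun z hz => cutf_one hlt hz) (μ m)
  rw [Q_eq_zero hp hp1 (dp_nonneg p) ho (μ := mulL _ (μ m)) (fun y hy => by
    rw [mulL_apply]
    by_cases h1 : y ∈ (μ m).support
    · rw [cutf_zero hlt (hfar y h1 hy)]; simp
    · rw [Finsupp.notMem_support_iff.1 h1, mul_zero]), zero_add] at b2
  exact b2.trans (mul_le_mul_of_nonneg_left (h.le hp hp1 hoL (hin δ hδ) m) (by norm_num))

/-- the bounded case of the intersection theorem -/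
theorem CS.bounded [CompleteSpace M] (h : CS p o μ e) (hp : 0 < p) (hp1 : p ≤ 1) {R : ℝ}
    (hR : 0 ≤ R) (hB : In p μ (closedBall o R)) :
    ∃ Z : Set M, o ∈ Z ∧ In p μ Z ∧
      ∀ K : Set M, o ∈ K → K ⊆ closedBall o R → IsClosed K → In p μ K → Z ⊆ K := by
  classical
  let good : Set M → Prop := fun K => o ∈ K ∧ K ⊆ closedBall o R ∧ In p μ K
  have hB0 : good (closedBall o R) := ⟨mem_closedBall_self hR, le_rfl, hB⟩
  let small : ℝ → M → Prop := fun t y => ∀ K, good K → infDist y K ≤ t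
  have hfin : ∀ δ > 0, ∀ A : Finset M, ∃ K, good K ∧
      ∀ y ∈ A, ¬ small (2 * δ) y → δ ≤ infDist y K := by
    intro δ hδ A
    induction A using Finset.induction_on with
    | empty => exact ⟨_, hB0, by simp⟩
    | insert a A _ ih =>
      obtain ⟨K, hK, hK'⟩ := ih
      by_cases ha : small (2 * δ) a
      · refine ⟨K, hK, fun y hy hs => ?_⟩
        rcases Finset.mem_insert.1 hy with rfl | hy
        · exact absurd ha hs
        · exact hK' y hy hs
      · obtain ⟨L, hL, hlt⟩ : ∃ L, good L ∧ 2 * δ < infDist a L := by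
          by_contra hc
          push Not at hc
          exact ha hc
        have ho : o ∈ K ∩ {y | infDist y L ≤ δ} :=
          ⟨hK.1, by simp [infDist_zero_of_mem hL.1, hδ.le]⟩
        refine ⟨K ∩ {y | infDist y L ≤ δ}, ⟨ho, Set.inter_subset_left.trans hK.2.1,
          h.inter hp hp1 hK.1 hL.1 hK.2.2 hL.2.2 hδ hL.2.1⟩, fun y hy hs => ?_⟩
        rcases Finset.mem_insert.1 hy with rfl | hy
        · refine (le_infDist ⟨o, ho⟩).2 fun w hw => ?_
          have h1 : infDist w L ≤ δ := hw.2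
          have h2 := (abs_le.1 (infDist_lip L y w)).2
          linarith
        · exact (hK' y hy hs).trans
            (infDist_le_infDist_of_subset Set.inter_subset_left ⟨o, ho⟩)
  have hos : ∀ t, 0 ≤ t → small t o := fun t ht K hK => by
    rwa [infDist_zero_of_mem hK.1]
  have hsm : ∀ δ > 0, In p μ {y | small (2 * δ) y} := by
    intro δ hδ
    have ho : o ∈ {y | small (2 * δ) y} := hos _ (by positivity)
    set C := 1 + ((R + δ) / δ) ^ p
    have hC : 0 ≤ C := by positivity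
    refine h.in_of_le hp hp1 ho (C := 1 + C) fun m => ?_
    obtain ⟨K, hK, hK'⟩ := hfin δ hδ (μ m).support
    obtain ⟨-, b2⟩ := Q_split hp hp1 ho ho hK.1 (fun z => cutf 0 δ (infDist z K)) hC
      (cut_bdd hp hp1 ho hK.1 hδ hK.2.1) (fun z hz => Or.inr hz)
      (fun z hz => cutf_one hδ (infDist_zero_of_mem hz).le) (μ m)
    rw [Q_eq_zero hp hp1 (dp_nonneg p) ho (μ := mulL _ (μ m)) (fun y hy => by
      rw [mulL_apply]
      by_cases h1 : y ∈ (μ m).support
      · rw [cutf_zero hδ (hK' y h1 hy)]; simp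
      · rw [Finsupp.notMem_support_iff.1 h1, mul_zero]), zero_add] at b2
    exact b2.trans (mul_le_mul_of_nonneg_left (h.le hp hp1 hK.1 hK.2.2 m) (by positivity))
  have hstep : ∀ t δ, 0 < δ → ∀ y, small t y → ∃ w, small δ w ∧ dist y w ≤ t + δ := by
    intro t δ hδ y hy
    have hδ' : 0 < δ / 3 := by positivity
    have hoL : o ∈ {y | small (2 * (δ / 3)) y} := hos _ (by positivity)
    have hsub : {y | small (2 * (δ / 3)) y} ⊆ closedBall o (R + δ) := by
      intro z hz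
      have h1 : infDist z (closedBall o R) < δ := lt_of_le_of_lt (hz _ hB0) (by linarith)
      obtain ⟨w, hw, hlt⟩ := (infDist_lt_iff ⟨o, hB0.1⟩).1 h1
      have := dist_triangle z w o
      have := mem_closedBall.1 hw
      exact mem_closedBall.2 (by linarith)
    have hin := h.inter hp hp1 hB0.1 hoL hB (hsm _ hδ') (δ := δ / 4) (by positivity) hsub
    have ho : o ∈ closedBall o R ∩ {y | infDist y {y | small (2 * (δ / 3)) y} ≤ δ / 4} :=
      ⟨hB0.1, by
        change infDist o _ ≤ δ / 4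
        rw [infDist_zero_of_mem hoL]; positivity⟩
    have h1 := hy _ ⟨ho, Set.inter_subset_left, hin⟩
    obtain ⟨w, hw, hlt⟩ := (infDist_lt_iff ⟨o, ho⟩).1 (lt_of_le_of_lt h1 (by linarith : t < t + δ))
    refine ⟨w, fun K hK => ?_, hlt.le⟩
    have h2 : infDist w {y | small (2 * (δ / 3)) y} < δ / 3 := lt_of_le_of_lt hw.2 (by linarith)
    obtain ⟨v, hv, hvlt⟩ := (infDist_lt_iff ⟨o, hoL⟩).1 h2
    have h3 := hv K hK
    have h4 := (abs_le.1 (infDist_lip K w v)).2
    linarith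
  have hlimit : ∀ δ > 0, ∀ y, small δ y → ∃ w, small 0 w ∧ dist y w ≤ 3 * δ := by
    intro δ hδ y hy
    choose! nx hnx1 hnx2 using fun (n : ℕ) (z : M) (hz : small (δ / 2 ^ n) z) =>
      hstep (δ / 2 ^ n) (δ / 2 ^ (n + 1)) (by positivity) z hz
    obtain ⟨s, hs0, hss⟩ : ∃ s : ℕ → M, s 0 = y ∧ ∀ n, s (n + 1) = nx n (s n) :=
      ⟨fun n => Nat.rec y (fun n z => nx n z) n, rfl, fun _ => rfl⟩
    have hsm' : ∀ n, small (δ / 2 ^ n) (s n) := by
      intro n
      induction n with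
      | zero => simpa [hs0] using hy
      | succ n ih => rw [hss]; exact hnx1 n _ ih
    have hd : ∀ n, dist (s n) (s (n + 1)) ≤ 3 * δ / 2 / 2 ^ n := by
      intro n
      rw [hss]
      refine (hnx2 n _ (hsm' n)).trans (le_of_eq ?_)
      rw [pow_succ]; field_simp; ring
    obtain ⟨w, hw⟩ := cauchySeq_tendsto_of_complete (cauchySeq_of_le_geometric_two hd)
    refine ⟨w, fun K hK => ?_, by simpa [hs0] using dist_le_of_le_geometric_two_of_tendsto₀ hd hw⟩
    have h1 : Tendsto (fun n => infDist (s n) K) atTop (𝓝 (infDist w K)) :=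
      ((continuous_infDist_pt K).tendsto w).comp hw
    have h2 : Tendsto (fun n : ℕ => δ / 2 ^ n) atTop (𝓝 0) :=
      tendsto_const_nhds.div_atTop (tendsto_pow_atTop_atTop_of_one_lt one_lt_two)
    exact le_of_tendsto_of_tendsto' h1 h2 fun n => hsm' n K hK
  have ho0 : o ∈ {y | small 0 y} := hos 0 le_rfl
  refine ⟨{y | small 0 y}, ho0, ?_, fun K hoK hKR hKc hK y hy => ?_⟩
  · refine h.of_nhds hp hp1 ho0 ?_ fun δ hδ => ?_
    · have : {y | small 0 y} = ⋂ K ∈ {K | good K}, {y | infDist y K ≤ 0} := by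
        ext y; simp [small]
      rw [this]
      exact isClosed_biInter fun K _ => isClosed_le (continuous_infDist_pt K) continuous_const
    · have ho6 : o ∈ {y | small (2 * (δ / 6)) y} := hos _ (by positivity)
      refine (hsm (δ / 6) (by positivity)).mono hp hp1 ho6 fun y hy => ?_
      obtain ⟨w, hw, hd⟩ := hlimit _ (by positivity) y hy
      have hw' : w ∈ {y | small 0 y} := hw
      exact (infDist_le_dist_of_mem hw').trans (by linarith)
  · exact (hKc.mem_iff_infDist_zero ⟨o, hoK⟩).2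
      (le_antisymm (hy K ⟨hoK, hKR, hK⟩) infDist_nonneg)

theorem CS.iInter [CompleteSpace M] (h : CS p o μ e) (hp : 0 < p) (hp1 : p ≤ 1) {ι : Type*}
    (K : ι → Set M) (hoK : ∀ i, o ∈ K i) (hc : ∀ i, IsClosed (K i)) (hK : ∀ i, In p μ (K i)) :
    In p μ (⋂ i, K i) := by
  have ho : o ∈ ⋂ i, K i := Set.mem_iInter.2 hoK
  refine h.in_of_le hp hp1 ho (C := 4) fun m => ?_
  obtain ⟨R, hR0, hR⟩ : ∃ R > 0, ∀ x ∈ (μ m).support, dist x o ≤ R := by
    obtain ⟨R, hR⟩ := ((μ m).support.finite_toSet.isBounded.subset_closedBall o)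
    exact ⟨max R 1, by positivity, fun x hx =>
      (mem_closedBall.1 (hR (by exact_mod_cast hx))).trans (le_max_left _ _)⟩
  let ψ : M → ℝ := fun z => cutf R (2 * R) (dist z o)
  have hRR : R < 2 * R := by linarith
  have hedge : ∀ {L : Set M}, o ∈ L → ∀ x y,
      Q p (dp p) L (mulL ψ (dl 𝕜 x - dl 𝕜 y)) ≤ 4 * dp p x y := fun hoL =>
    cut_Q hp hp1 hoL (fun _ => dist_nonneg) (fun x y => abs_dist_sub_le x y o)
      (fun x => Q_dl hp hp1 (dp_nonneg p) hoL x hoL) hRR (by linarith)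
  have hcut : ∀ {L : Set M}, o ∈ L → ∀ ν : M →₀ 𝕜,
      Q p (dp p) (L ∩ closedBall o (2 * R)) (mulL ψ ν) ≤ 4 * Q p (dp p) L ν := by
    intro L hoL ν
    have ho' : o ∈ L ∩ closedBall o (2 * R) := ⟨hoL, mem_closedBall_self (by linarith)⟩
    exact (Q_split hp hp1 ho' hoL (Set.mem_singleton o) ψ (by norm_num) (hedge ho')
      (fun z hz => by
        by_cases h1 : 2 * R ≤ dist z o
        · exact Or.inl (cutf_zero hRR h1)
        · exact Or.inr ⟨hz, (not_le.1 h1).le⟩)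
      (fun z hz => cutf_one hRR (by rw [Set.mem_singleton_iff.1 hz, dist_self]; exact hR0.le))
      ν).1
  have h' : CS p o (fun l => mulL ψ (μ l)) (fun l => 4 * e l) :=
    ⟨by simpa using h.lim.const_mul 4, fun a b => by
      have h1 := hcut (Set.mem_singleton o) (μ a - μ b)
      rw [Set.inter_eq_left.2 (by simp; linarith), map_sub] at h1
      linarith [h.bd a b]⟩
  have hin : ∀ {L : Set M}, o ∈ L → In p μ L →
      In p (fun l => mulL ψ (μ l)) (L ∩ closedBall o (2 * R)) := fun hoL hL =>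
    h'.in_of_le hp hp1 ⟨hoL, mem_closedBall_self (by linarith)⟩ (C := 1) fun l => by
      have := hcut hoL (μ l)
      have := h.le hp hp1 hoL hL l
      linarith
  have huniv : In p μ Set.univ := by
    unfold In
    simp only [Q_eq_zero hp hp1 (dp_nonneg p) (Set.mem_univ o)
      (fun x hx => absurd (Set.mem_univ x) hx)]
    exact tendsto_const_nhds
  obtain ⟨Z, hoZ, hZ, hmin⟩ := h'.bounded hp hp1 (R := 2 * R) (by linarith)
    (by simpa using hin (Set.mem_univ o) huniv)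
  have hZK : Z ⊆ ⋂ i, K i := Set.subset_iInter fun i =>
    (hmin (K i ∩ closedBall o (2 * R)) ⟨hoK i, mem_closedBall_self (by linarith)⟩
      Set.inter_subset_right
      ((hc i).inter isClosed_closedBall) (hin (hoK i) (hK i))).trans Set.inter_subset_left
  have h1 := h'.le hp hp1 ho (hZ.mono hp hp1 hoZ hZK) m
  have e2 : mulL ψ (μ m) = μ m := by
    ext x
    rw [mulL_apply]
    by_cases h : x ∈ (μ m).support
    · have : ψ x = 1 := cutf_one hRR (hR x h)
      rw [this]; simp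
    · rw [Finsupp.notMem_support_iff.1 h]; simp
  rwa [e2] at h1

variable {F : Type u} [AddCommGroup F] [Module 𝕜 F] {N : F → ℝ} {δ : M → F}

theorem IsFreeP.iInter [CompleteSpace M] (h : IsFreeP 𝕜 p o N δ) (hp : 0 < p) (hp1 : p ≤ 1)
    {ι : Type*} (K : ι → Set M) (hc : ∀ i, IsClosed (K i)) (z : F)
    (hz : ∀ i, z ∈ closedSpan 𝕜 N δ (K i)) : z ∈ closedSpan 𝕜 N δ (⋂ i, K i) := by
  classical
  have hn := h.banach.psn
  have hN0 := h.banach.nonneg
  set I := Finsupp.linearCombination 𝕜 δ with hI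
  choose ν hν using fun k : ℕ => h.dense hp z (1 / ((k : ℝ) + 1)) (by positivity)
  have hcs : CS p o ν (fun k => N (z - I (ν k)) ^ p) :=
    ⟨squeeze_zero (fun k => hn.nonneg _) (fun k => (hν k).le)
      tendsto_one_div_add_atTop_nhds_zero_nat, fun a b => by
      have h1 := hn.sub (z - I (ν b)) (z - I (ν a))
      rw [sub_sub_sub_cancel_left, ← map_sub, h.formula hp hp1] at h1
      linarith⟩
  have hin : ∀ i, In p ν (insert o (K i)) := by
    intro i
    have ho := Set.mem_insert o (K i)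
    refine hcs.in_of_le hp hp1 ho (C := 1) fun m => ?_
    rw [one_mul]
    refine le_of_forall_pos_le_add fun ε hε => ?_
    obtain ⟨w, hw, hlt⟩ := hz i (ε ^ p⁻¹) (by positivity)
    obtain ⟨σ, hσ, rfl⟩ := (Finsupp.mem_span_image_iff_linearCombination 𝕜).1 hw
    have hσ' : Supp (insert o (K i)) σ := fun x hx =>
      (Finsupp.mem_supported' 𝕜 σ).1 hσ x fun h' => hx (Set.mem_insert_of_mem _ h')
    have h1 := (psn_Q (𝕜 := 𝕜) hp hp1 (dp_nonneg p) ho).le_add_sub (ν m) σ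
    rw [Q_eq_zero hp hp1 (dp_nonneg p) ho hσ'] at h1
    have h2 : Q p (dp p) (insert o (K i)) (ν m - σ) ≤ Q p (dp p) {o} (ν m - σ) :=
      Q_mono hp hp1 (dp_nonneg p) (fun _ _ => le_rfl) (Set.mem_singleton o) (by simp) _
    have h3 := hn.sub (z - I σ) (z - I (ν m))
    rw [sub_sub_sub_cancel_left, ← map_sub, h.formula hp hp1] at h3
    have h4 := (rpow_lt_iff' hp (hN0 _) hε.le).2 hlt
    linarith
  have hfin := hcs.iInter hp hp1 (fun i => insert o (K i)) (fun i => Set.mem_insert _ _)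
    (fun i => isClosed_singleton.union (hc i)) hin
  have ho : o ∈ ⋂ i, insert o (K i) := Set.mem_iInter.2 fun i => Set.mem_insert _ _
  intro ε hε
  have hε' : 0 < ε ^ p / 2 := by positivity
  obtain ⟨m, hm1, hm2⟩ := ((hfin.eventually (gt_mem_nhds hε')).and
    (hcs.lim.eventually (gt_mem_nhds hε'))).exists
  obtain ⟨σ, hσ, hlt⟩ := exists_approx hp hp1 (dp_nonneg p) ho hm1
  refine ⟨I σ, ?_, ?_⟩
  · rw [hI, Finsupp.linearCombination_apply, Finsupp.sum]
    refine Submodule.sum_mem _ fun x hx => Submodule.smul_mem _ _ ?_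
    by_cases hxo : x = o
    · rw [hxo, h.base]; exact Submodule.zero_mem _
    · refine Submodule.subset_span ⟨x, Set.mem_iInter.2 fun i => ?_, rfl⟩
      have hx' : x ∈ ⋂ i, insert o (K i) := by
        by_contra hc
        exact (Finsupp.mem_support_iff.1 hx) (hσ x hc)
      exact (Set.mem_iInter.1 hx' i).resolve_left hxo
  · have h1 := hn.add (z - I (ν m)) (I (ν m - σ))
    rw [h.formula hp hp1, map_sub, sub_add_sub_cancel] at h1
    exact (Real.rpow_lt_rpow_iff (hN0 _) hε.le hp).1 (by linarith)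

end Pool.Agent.H13Z.FreeP
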