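import Pool.Agent.H13Z.FreeP.Compl

/-!
Main theorems: the Schur p-property of free p-spaces and its consequences.
-/

namespace Pool.Agent.H13Z.FreeP

open Finsupp Filter Topology

universe u

section Low

variable {𝕜 : Type} [RCLike 𝕜] {p : ℝ} {V : Type*} [AddCommGroup V] [Module 𝕜 V] {n : V → ℝ}

theorem Lower.shift {c : ℝ} {x : ℕ → V} (h : Lower 𝕜 p n c x) (J : ℕ) :
    Lower 𝕜 p n c (fun j => x (j + J)) := by
  intro S a
  have := h (S.map (addRightEmbedding J)) (fun k => a (k - J))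
  simpa [Finset.sum_map] using this

theorem Lower.perturb (hn : PSN 𝕜 p n) (hp : 0 < p) {c τ : ℝ} {x y : ℕ → V}
    (h : Lower 𝕜 p n c y) (hτ : ∀ j, n (x j - y j) ≤ τ) : Lower 𝕜 p n (c - τ) x := by
  intro S a
  have h1 := h S a
  have h2 := hn.sub (∑ j ∈ S, a j • x j) (∑ j ∈ S, a j • (x j - y j))
  have e : ∑ j ∈ S, a j • x j - ∑ j ∈ S, a j • (x j - y j) = ∑ j ∈ S, a j • y j := by
    rw [← Finset.sum_sub_distrib]
    refine Finset.sum_congr rfl fun j _ => ?_
    rw [smul_sub]; abel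
  rw [e] at h2
  have h3 := hn.sum_le hp S (fun j => a j • (x j - y j))
  have h4 : ∑ j ∈ S, n (a j • (x j - y j)) ≤ τ * ∑ j ∈ S, ‖a j‖ ^ p := by
    rw [Finset.mul_sum]
    refine Finset.sum_le_sum fun j _ => ?_
    rw [hn.smul, mul_comm τ]
    exact mul_le_mul_of_nonneg_left (hτ j) (by positivity)
  linarith

theorem Lower.injective (hn : PSN 𝕜 p n) (hp : 0 < p) {c : ℝ} (hc : 0 < c) {x : ℕ → V}
    (h : Lower 𝕜 p n c x) : Function.Injective x := by
  classical
  intro i j hij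
  by_contra hne
  have := h {i, j} (fun k => if k = i then 1 else -1)
  rw [Finset.sum_pair hne, Finset.sum_pair hne, if_pos rfl, if_neg (Ne.symm hne), hij] at this
  simp [hn.zero hp] at this
  linarith

end Low

theorem equiv_of_lower {𝕜 : Type} [RCLike 𝕜] {p : ℝ} {X : Type u} [AddCommGroup X] [Module 𝕜 X]
    {N : X → ℝ} (hp : 0 < p) (hN0 : ∀ x, 0 ≤ N x) (hn : PSN 𝕜 p (fun x => N x ^ p)) {c B : ℝ}
    (hc : 0 < c) {x : ℕ → X} (h : Lower 𝕜 p (fun x => N x ^ p) c x) (hB : ∀ j, N (x j) ≤ B) :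
    EquivLpBasis 𝕜 p N x := by
  have hB0 : 0 ≤ B := (hN0 _).trans (hB 0)
  refine ⟨c ^ p⁻¹, max (c ^ p⁻¹) B, by positivity, le_max_left _ _, fun a => ?_⟩
  have hs : 0 ≤ ∑ n ∈ a.support, ‖a n‖ ^ p := Finset.sum_nonneg fun _ _ => by positivity
  rw [one_div]
  constructor
  · have h1 := Real.rpow_le_rpow (by positivity) (h a.support a) (inv_nonneg.2 hp.le)
    rwa [Real.mul_rpow hc.le hs, Real.rpow_rpow_inv (hN0 _) hp.ne'] at h1
  · have h1 := hn.sum_le hp a.support (fun j => a j • x j)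
    have h2 : ∑ j ∈ a.support, N (a j • x j) ^ p ≤ B ^ p * ∑ n ∈ a.support, ‖a n‖ ^ p := by
      rw [Finset.mul_sum]
      refine Finset.sum_le_sum fun j _ => ?_
      rw [hn.smul, mul_comm (B ^ p)]
      exact mul_le_mul_of_nonneg_left (Real.rpow_le_rpow (hN0 _) (hB j) hp.le) (by positivity)
    have h3 := (rpow_le_iff' hp (hN0 _) (by positivity)).1 (h1.trans h2)
    rw [Real.mul_rpow (by positivity) hs, Real.rpow_rpow_inv hB0 hp.ne'] at h3
    exact h3.trans (mul_le_mul_of_nonneg_right (le_max_right _ _) (by positivity))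

theorem schur_of_model {p : ℝ} (hp : 0 < p) (hp1 : p < 1) {M : Type*} [MetricSpace M] (o : M)
    {F : Type u} [AddCommGroup F] [Module ℝ F] {N : F → ℝ} (hN0 : ∀ x, 0 ≤ N x)
    (hn : PSN ℝ p (fun x => N x ^ p)) (ι : (M →₀ ℝ) →ₗ[ℝ] F)
    (hι : ∀ μ, N (ι μ) ^ p = Q p (dp p) {o} μ)
    (hd : ∀ z, ∀ ε > 0, ∃ μ, N (z - ι μ) ^ p < ε) : SchurP p N := by
  rintro A hA ⟨B, hB⟩ ⟨η, hη, hsep⟩
  let x := hA.natEmbedding A
  set δ := η ^ p with hδ
  have hδ0 : 0 < δ := by positivity
  choose μ hμ using fun k : ℕ => hd (x k) (δ / 4 * (1 / ((k : ℝ) + 1))) (by positivity)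
  have hμ' : ∀ k, N (x k - ι (μ k)) ^ p ≤ δ / 4 := fun k => (hμ k).le.trans
    (mul_le_of_le_one_right (by positivity) (by
      rw [div_le_one (by positivity)]; linarith [Nat.cast_nonneg (α := ℝ) k]))
  obtain ⟨c, hc, f, hf⟩ := core hp hp1 (o := o) μ (B := B ^ p + δ / 4) (half_pos hδ0)
    (fun i => by
      have h1 := hn.le_add_sub (ι (μ i)) (x i)
      rw [hn.sub_comm, hι] at h1
      have h2 := Real.rpow_le_rpow (hN0 _) (hB _ (x i).2) hp.le
      linarith [hμ' i])
    (fun i j hij => by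
      have h1 : (x i : F) ≠ x j := fun h => hij (x.injective (Subtype.ext h))
      have h2 := Real.rpow_le_rpow hη.le (hsep _ (x i).2 _ (x j).2 h1) hp.le
      have e : (x i : F) - x j =
          (x i - ι (μ i)) + ι (μ i - μ j) - (x j - ι (μ j)) := by rw [map_sub]; abel
      have h3 := hn.sub ((x i - ι (μ i)) + ι (μ i - μ j)) (x j - ι (μ j))
      have h4 := hn.add (x i - ι (μ i)) (ι (μ i - μ j))
      rw [← e] at h3
      rw [hι] at h4
      linarith [hμ' i, hμ' j])
  have hinj : Function.Injective f := (hf.injective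
    (psn_Q hp hp1.le (dp_nonneg p) (Set.mem_singleton o)) hp hc).of_comp
  have hf' : Lower ℝ p (fun z => N z ^ p) c (fun j => ι (μ (f j))) := by
    intro S a
    refine (hf S a).trans (le_of_eq ?_)
    rw [← hι]; simp
  have ht : Tendsto (fun j => δ / 4 * (1 / ((f j : ℝ) + 1))) atTop (𝓝 0) := by
    have := (tendsto_one_div_add_atTop_nhds_zero_nat (𝕜 := ℝ)).comp hinj.nat_tendsto_atTop
    simpa using this.const_mul (δ / 4)
  obtain ⟨J, hJ⟩ := eventually_atTop.1 (ht.eventually (gt_mem_nhds (half_pos hc)))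
  refine ⟨fun j => x (f (j + J)), fun j => (x _).2, ?_⟩
  have h1 := (hf'.shift J).perturb hn hp (x := fun j => x (f (j + J))) (τ := c / 2)
    (fun j => (hμ _).le.trans (hJ _ (Nat.le_add_left J j)).le)
  exact equiv_of_lower hp hN0 hn (by linarith) h1 fun j => hB _ (x _).2

theorem IsFreeP.schur {p : ℝ} (hp : 0 < p) (hp1 : p < 1) {M : Type u} [MetricSpace M] {o : M}
    {F : Type u} [AddCommGroup F] [Module ℝ F] {N : F → ℝ} {δ : M → F}
    (h : IsFreeP ℝ p o N δ) : SchurP p N :=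
  schur_of_model hp hp1 o h.banach.nonneg h.banach.psn _ (h.formula hp hp1.le) (h.dense hp)

/-- A space with the Schur `p`-property, `p < 1`, contains no infinite-dimensional normed space. -/
theorem SchurP.finiteDimensional {p : ℝ} (hp : 0 < p) (hp1 : p < 1) {F : Type u} [AddCommGroup F]
    [Module ℝ F] {N : F → ℝ} (h : SchurP p N) {X : Type*} [NormedAddCommGroup X] [NormedSpace ℝ X]
    (T : X →ₗ[ℝ] F) {c C : ℝ} (hc : 0 < c) (h1 : ∀ x, c * ‖x‖ ≤ N (T x))
    (h2 : ∀ x, N (T x) ≤ C * ‖x‖) : FiniteDimensional ℝ X := by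
  classical
  by_contra hX
  obtain ⟨R, f, hR, hf1, hf2⟩ := exists_seq_norm_le_one_le_norm_sub hX
  have hsep : ∀ i j, i ≠ j → c ≤ N (T (f i) - T (f j)) := fun i j hij => by
    rw [← map_sub]
    exact (le_mul_of_one_le_right hc.le (hf2 hij)).trans (h1 _)
  have hN0 : N 0 ≤ 0 := by simpa using h2 0
  have hinj : Function.Injective fun i => T (f i) := by
    intro i j hij
    by_contra hne
    have := hsep i j hne
    rw [show T (f i) = T (f j) from hij, sub_self] at this
    linarith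
  have hC : 0 ≤ C := by
    have h3 : 1 ≤ ‖f 0 - f 1‖ := hf2 (by norm_num)
    have h4 := (h1 (f 0 - f 1)).trans (h2 _)
    nlinarith
  obtain ⟨x, hx, a, b, ha, -, hab⟩ := h (Set.range fun i => T (f i))
    (Set.infinite_range_of_injective hinj)
    ⟨C * R, by
      rintro _ ⟨i, rfl⟩
      exact (h2 _).trans (mul_le_mul_of_nonneg_left (hf1 i) hC)⟩
    ⟨c, hc, by
      rintro _ ⟨i, rfl⟩ _ ⟨j, rfl⟩ hne
      exact hsep i j fun h => hne (by rw [h])⟩
  choose g hg using hx
  have key : ∀ m : ℕ, a * (m : ℝ) ^ (1 / p) ≤ C * R * m := by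
    intro m
    let v : ℕ →₀ ℝ := Finsupp.onFinset (Finset.range m) (fun k => if k < m then 1 else 0)
      (fun k hk => by by_contra h; simp_all)
    have hv : ∀ k, v k = if k < m then 1 else 0 := fun k => rfl
    have hs : v.support = Finset.range m := by
      ext k; simp [hv]
    have h3 := (hab v).1
    rw [hs] at h3
    have e1 : ∑ n ∈ Finset.range m, ‖v n‖ ^ p = m := by
      rw [Finset.sum_congr rfl (g := fun _ => (1 : ℝ))]
      · simp
      · intro k hk; simp [hv, Finset.mem_range.1 hk]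
    have e2 : ∑ n ∈ Finset.range m, v n • x n = T (∑ n ∈ Finset.range m, f (g n)) := by
      rw [map_sum]
      refine Finset.sum_congr rfl fun k hk => ?_
      simp [hv, Finset.mem_range.1 hk, ← hg k]
    rw [e1, e2] at h3
    refine h3.trans ((h2 _).trans ?_)
    rw [mul_assoc]
    refine mul_le_mul_of_nonneg_left ((norm_sum_le _ _).trans ?_) hC
    refine (Finset.sum_le_sum fun k _ => hf1 (g k)).trans (le_of_eq ?_)
    simp [mul_comm]
  have hq : 0 < 1 / p - 1 := by rw [sub_pos, lt_div_iff₀ hp]; linarith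
  have ht := ((tendsto_rpow_atTop hq).comp tendsto_natCast_atTop_atTop).const_mul_atTop ha
  obtain ⟨m, hm1, hm2⟩ := ((ht.eventually_gt_atTop (C * R)).and (eventually_gt_atTop 0)).exists
  have hm0 : (0 : ℝ) < m := by exact_mod_cast hm2
  have h5 := key m
  simp only [Function.comp] at hm1
  rw [Real.rpow_sub_one hm0.ne', ← mul_div_assoc, lt_div_iff₀ hm0] at hm1
  linarith

theorem IsFreeP.kalton {𝕜 : Type} [RCLike 𝕜] {p : ℝ} (hp : 0 < p) (hp1 : p ≤ 1) {M : Type u}
    [MetricSpace M] {o : M} (hM : ∃ D : ℝ, ∀ x y : M, dist x y ≤ D)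
    {F : Type u} [AddCommGroup F] [Module 𝕜 F] {N : F → ℝ} {δ : M → F}
    (h : IsFreeP 𝕜 p o N δ) (W : Set F) (hW : ∃ B : ℝ, ∀ w ∈ W, N w ≤ B)
    (hK : ¬ KaltonProp 𝕜 N δ W) : ∃ x : ℕ → F, (∀ n, x n ∈ W) ∧ EquivLpBasis 𝕜 p N x := by
  obtain ⟨D, hD⟩ := hM
  obtain ⟨B, hB⟩ := hW
  have hD0 : 0 ≤ D := dist_nonneg.trans (hD o o)
  have hn := h.banach.psn
  have hN0 := h.banach.nonneg
  unfold KaltonProp at hK
  push Not at hK
  obtain ⟨ε, hε, r, hr, hK⟩ := hK
  set d := r / (1 + D) with hd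
  have hd0 : 0 < d := by positivity
  set c := ε ^ p / 2 / (2 * (2 * (1 + ((1 + d) / d) ^ p))) with hc
  have hc0 : 0 < c := by positivity
  have hτ : 0 < min (ε ^ p / 2) (c / 2) := by positivity
  choose μ hμ using fun w : W => h.dense hp w _ hτ
  obtain ⟨f, hf⟩ := caseA hp hp1 o (ε := ε ^ p / 2) (by positivity) hd0 μ
    (B := B ^ p + ε ^ p / 2)
    (fun i => by
      have h1 := hn.le_add_sub (Finsupp.linearCombination 𝕜 δ (μ i)) i
      rw [hn.sub_comm, h.formula hp hp1] at h1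
      have h2 := Real.rpow_le_rpow (hN0 _) (hB _ i.2) hp.le
      linarith [hμ i, min_le_left (ε ^ p / 2) (c / 2)])
    (fun E ho => by
      obtain ⟨w, hw, hfar⟩ := hK E
      refine ⟨⟨w, hw⟩, not_lt.1 fun hlt => ?_⟩
      obtain ⟨ν, hν, hν'⟩ := exists_approx hp hp1 (dp_nonneg p) (mem_cone_of_mem hd0 ho) hlt
      set v := Finsupp.linearCombination 𝕜 δ ν with hv
      have h1 : N (w - v) ^ p ≤ ε ^ p := by
        have h2 := hn.add (w - Finsupp.linearCombination 𝕜 δ (μ ⟨w, hw⟩))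
          (Finsupp.linearCombination 𝕜 δ (μ ⟨w, hw⟩ - ν))
        rw [h.formula hp hp1, map_sub, sub_add_sub_cancel] at h2
        have h3 := hμ ⟨w, hw⟩
        have h4 := min_le_left (ε ^ p / 2) (c / 2)
        dsimp only at h3
        linarith
      have h2 : N (w - v) ≤ ε := (Real.rpow_le_rpow_iff (hN0 _) hε.le hp).1 h1
      have hε' : (ε : 𝕜) ≠ 0 := by exact_mod_cast hε.ne'
      refine hfar v (fun t ht => ⟨v, ?_, ?_⟩) ((ε : 𝕜)⁻¹ • (w - v)) ?_ ?_
      · rw [hv, Finsupp.linearCombination_apply, Finsupp.sum]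
        refine Submodule.sum_mem _ fun x hx => Submodule.smul_mem _ _
          (Submodule.subset_span ⟨x, ?_, rfl⟩)
        have hx' : x ∈ cone o d E := by
          by_contra hc
          exact (Finsupp.mem_support_iff.1 hx) (hν x hc)
        obtain ⟨e, he, hde⟩ := exists_near ho x
        refine ⟨e, he, ?_⟩
        have h3 : Metric.infDist x (E : Set M) ≤ d * (1 + dist x o) := hx'
        rw [← hde]
        refine h3.trans ?_
        calc d * (1 + dist x o) ≤ d * (1 + D) := by gcongr; exact hD x o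
          _ = r := by rw [hd]; field_simp
      · have := h.banach.smul 0 0
        rw [sub_self]
        simp only [smul_zero, norm_zero, zero_mul] at this
        rwa [this]
      · rw [h.banach.smul, norm_inv, RCLike.norm_ofReal, abs_of_pos hε, inv_mul_le_iff₀ hε]
        simpa using h2
      · rw [smul_smul, mul_inv_cancel₀ hε', one_smul]; abel)
  have hf' : Lower 𝕜 p (fun z => N z ^ p) c
      (fun j => Finsupp.linearCombination 𝕜 δ (μ (f j))) := by
    intro S a
    refine (hf S a).trans (le_of_eq ?_)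
    rw [← h.formula hp hp1]; simp
  have h1 := hf'.perturb hn hp (x := fun j => (f j : F)) (τ := c / 2)
    (fun j => (hμ _).le.trans (min_le_right _ _))
  exact ⟨fun j => f j, fun j => (f j).2,
    equiv_of_lower hp hN0 hn (by linarith) h1 fun j => hB _ (f j).2⟩

end Pool.Agent.H13Z.FreeP
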