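import Pool.Agent.H13Z.FreeP.Exists
import Pool.Agent.H13Z.FreeP.DefsAP
import Pool.Agent.H13Z.FreeP.GK
import Pool.Agent.H812R2.AP.NoAP

/-!
If the free p-space over a Banach space has the approximation property, finite rank operators on
the Banach space approximate the identity on null sequences.  Davie's space gives a free p-space
without the approximation property.
-/

namespace Pool.Agent.H13Z.FreeP

open Filter Topology

variable {p : ℝ}

/-- the normed group attached to a `p`-Banach space -/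
@[reducible] noncomputable def IsPBanach.grp {F : Type} [AddCommGroup F] [Module ℝ F] {N : F → ℝ}
    (h : IsPBanach ℝ p N) (hp : 0 < p) : NormedAddCommGroup F :=
  AddGroupNorm.toNormedAddCommGroup
    { toFun := fun y => N y ^ p
      map_zero' := h.psn.zero hp
      add_le' := h.psn.add
      neg' := h.psn.neg
      eq_zero_of_map_eq_zero' := fun y hy =>
        h.eq_zero y ((Real.rpow_eq_zero (h.nonneg y) hp.ne').1 hy) }

theorem isPBanach_norm (hp : 0 < p) (hp1 : p ≤ 1) (X : Type) [NormedAddCommGroup X]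
    [NormedSpace ℝ X] [CompleteSpace X] : IsPBanach ℝ p (fun x : X => ‖x‖) where
  nonneg := norm_nonneg
  eq_zero _ := norm_eq_zero.1
  smul := norm_smul
  tri x y := (Real.rpow_le_rpow (norm_nonneg _) (norm_add_le x y) hp.le).trans
    (Real.rpow_add_le_add_rpow (norm_nonneg _) (norm_nonneg _) hp.le hp1)
  complete s hs := by
    obtain ⟨z, hz⟩ := cauchySeq_tendsto_of_complete (u := s) (Metric.cauchySeq_iff.2 fun ε hε => by
      simpa only [dist_eq_norm] using hs ε hε)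
    exact ⟨z, tendsto_iff_norm_sub_tendsto_zero.1 hz⟩

theorem exists_compact {F : Type} [AddCommGroup F] [Module ℝ F] {N : F → ℝ}
    (h : IsPBanach ℝ p N) (hp : 0 < p) {X : Type} [MetricSpace X] {K : Set X} (hK : IsCompact K)
    {ι : Type} (c : ι → X → F) (w : ι → ℝ) (hw : Tendsto w cofinite (𝓝 0))
    (hc : ∀ i y, N (c i y) ≤ w i) (hl : ∀ i, ∃ L : ℝ, ∀ y z, N (c i y - c i z) ≤ L * dist y z) :
    ∃ C : Set F, CompactFor N C ∧ ∀ i, ∀ y ∈ K, c i y ∈ C := by
  let _ := h.grp hp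
  have hnorm : ∀ y : F, ‖y‖ = N y ^ p := fun _ => rfl
  have : CompleteSpace F := Metric.complete_of_cauchySeq_tendsto fun s hs => by
    obtain ⟨z, hz⟩ := h.complete s fun ε hε => by
      obtain ⟨K, hK⟩ := Metric.cauchySeq_iff.1 hs (ε ^ p) (by positivity)
      refine ⟨K, fun m hm n hn => ?_⟩
      have := hK m hm n hn
      rw [dist_eq_norm, hnorm] at this
      exact (Real.rpow_lt_rpow_iff (h.nonneg _) hε.le hp).1 this
    refine ⟨z, tendsto_iff_norm_sub_tendsto_zero.2 ?_⟩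
    have h1 := hz.rpow_const (p := p) (Or.inr hp.le)
    rwa [Real.zero_rpow hp.ne'] at h1
  have hcont : ∀ i, Continuous (c i) := by
    intro i
    obtain ⟨L, hL⟩ := hl i
    refine continuous_iff_continuousAt.2 fun z => tendsto_iff_norm_sub_tendsto_zero.2 ?_
    have h1 : Tendsto (fun y => (L * dist y z) ^ p) (𝓝 z) (𝓝 ((L * dist z z) ^ p)) :=
      (((continuous_const.mul (continuous_id.dist continuous_const)).tendsto z)).rpow_const
        (Or.inr hp.le)
    rw [dist_self, mul_zero, Real.zero_rpow hp.ne'] at h1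
    exact squeeze_zero (fun _ => norm_nonneg _)
      (fun y => Real.rpow_le_rpow (h.nonneg _) (hL y z) hp.le) h1
  have htb : TotallyBounded (⋃ i, c i '' K) := by
    refine Metric.totallyBounded_iff.2 fun ε hε => ?_
    have hfin : {i | ¬ w i < ε ^ p⁻¹}.Finite :=
      hw.eventually (gt_mem_nhds (by positivity : 0 < ε ^ p⁻¹))
    obtain ⟨t, ht, hcov⟩ := Metric.totallyBounded_iff.1
      (hfin.isCompact_biUnion fun i _ => hK.image (hcont i)).totallyBounded ε hε
    refine ⟨insert 0 t, ht.insert _, fun z hz => ?_⟩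
    obtain ⟨i, y, hy, rfl⟩ : ∃ i, ∃ y ∈ K, c i y = z := by simpa using hz
    rw [Set.biUnion_insert]
    by_cases hi : w i < ε ^ p⁻¹
    · left
      rw [mem_ball_zero_iff, hnorm]
      exact (rpow_lt_iff' hp (h.nonneg _) hε.le).2 ((hc i y).trans_lt hi)
    · exact Or.inr (hcov (Set.mem_biUnion (t := fun i => c i '' K) hi ⟨y, hy, rfl⟩))
  have hC : IsCompact (closure (⋃ i, c i '' K)) :=
    htb.closure.isCompact_of_isClosed isClosed_closure
  refine ⟨closure (⋃ i, c i '' K), fun s hs => ?_, fun i y hy =>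
    subset_closure (Set.mem_iUnion.2 ⟨i, y, hy, rfl⟩)⟩
  obtain ⟨z, hz, φ, hφ, hlim⟩ := hC.tendsto_subseq hs
  refine ⟨z, hz, φ, hφ, ?_⟩
  have h1 := (tendsto_iff_norm_sub_tendsto_zero.1 hlim).rpow_const (p := p⁻¹)
    (Or.inr (inv_nonneg.2 hp.le))
  rw [Real.zero_rpow (inv_ne_zero hp.ne')] at h1
  refine h1.congr fun n => ?_
  rw [hnorm, Real.rpow_rpow_inv (h.nonneg _) hp.ne']
  rfl

theorem approx_of_hasAP (hp : 0 < p) (hp1 : p ≤ 1) {X : Type} [NormedAddCommGroup X]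
    [NormedSpace ℝ X] [CompleteSpace X] {F : Type} [AddCommGroup F] [Module ℝ F] {N : F → ℝ}
    {δ : X → F} (h : IsFreeP ℝ p (0 : X) N δ) (hAP : HasAP N) (x : ℕ → X)
    (hx : Tendsto x atTop (𝓝 0)) {ε : ℝ} (hε : 0 < ε) :
    ∃ S : X →L[ℝ] X, FiniteDimensional ℝ (LinearMap.range (S : X →ₗ[ℝ] X)) ∧
      ∀ n, ‖S (x n) - x n‖ ≤ 4 * ε := by
  have hb := h.banach
  obtain ⟨B, hB⟩ : ∃ B, ∀ n, ‖x n‖ ≤ B := by
    obtain ⟨B, hB⟩ := hx.norm.bddAbove_range
    exact ⟨B, fun n => hB ⟨n, rfl⟩⟩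
  let u : ℕ → X := fun n => (1 / 2 : ℝ) ^ n • x n
  have hux : ∀ n, (2 : ℝ) ^ n • u n = x n := fun n => by
    simp only [u]; rw [smul_smul, ← mul_pow]; norm_num
  let Y : (ℕ → Set.Icc (-2 : ℝ) 2) → X := fun ω => ∑' i, (ω i : ℝ) • u i
  have hY : Continuous Y := by
    refine continuous_tsum (u := fun i => 2 * B * (1 / 2) ^ i) (fun i => by fun_prop)
      (summable_geometric_two.mul_left _) fun i ω => ?_
    have h1 : |(ω i : ℝ)| ≤ 2 := abs_le.2 (ω i).2
    simp only [u]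
    rw [norm_smul, norm_smul, Real.norm_eq_abs, Real.norm_of_nonneg (by positivity)]
    calc |(ω i : ℝ)| * ((1 / 2) ^ i * ‖x i‖) ≤ 2 * ((1 / 2) ^ i * B) := by gcongr; exact hB i
      _ = _ := by ring
  have hbox : ∀ (N : ℕ) (ω : ℕ → ℝ), (∀ i, |ω i| ≤ 2) →
      ∑ i ∈ Finset.range N, ω i • u i ∈ Set.range Y := by
    intro N ω hω
    refine ⟨fun i => if i < N then ⟨ω i, abs_le.1 (hω i)⟩ else ⟨0, by norm_num⟩, ?_⟩
    simp only [Y]
    rw [tsum_eq_sum (s := Finset.range N) fun i hi => by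
      rw [if_neg (by simpa using hi)]; simp]
    exact Finset.sum_congr rfl fun i hi => by rw [if_pos (Finset.mem_range.1 hi)]
  let c : ℕ × ℕ → X → F := fun a y => ((2 / 3 : ℝ) ^ a.2 * 2 ^ (a.1 + a.2)) •
    (δ (y + (1 / 2 : ℝ) ^ (a.1 + a.2) • x a.1) - δ y)
  have hw : Tendsto (fun a : ℕ × ℕ => ‖x a.1‖ * (2 / 3 : ℝ) ^ a.2) cofinite (𝓝 0) :=
    tendsto_mul_cofinite_nhds_zero (f := fun n => ‖x n‖) (g := fun j => (2 / 3 : ℝ) ^ j)
      (by rw [Nat.cofinite_eq_atTop]; simpa using hx.norm)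
      (by rw [Nat.cofinite_eq_atTop]
          exact tendsto_pow_atTop_nhds_zero_of_lt_one (by norm_num) (by norm_num))
  obtain ⟨C, hC, hcC⟩ := exists_compact hb hp (isCompact_range hY) c _ hw
    (fun a y => by
      simp only [c]
      rw [hb.smul, h.isom, dist_eq_norm, add_sub_cancel_left, norm_smul,
        Real.norm_of_nonneg (by positivity), Real.norm_of_nonneg (by positivity)]
      refine le_of_eq ?_
      rw [one_div, inv_pow]; field_simp)
    (fun a => by
      refine ⟨(2 / 3 : ℝ) ^ a.2 * 2 ^ (a.1 + a.2) * 2 ^ p⁻¹, fun y z => ?_⟩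
      simp only [c]
      rw [← smul_sub, hb.smul, Real.norm_of_nonneg (by positivity), mul_assoc _ (2 ^ p⁻¹)]
      refine mul_le_mul_of_nonneg_left ?_ (by positivity)
      have h1 := hb.psn.sub (δ (y + (1 / 2 : ℝ) ^ (a.1 + a.2) • x a.1) -
        δ (z + (1 / 2 : ℝ) ^ (a.1 + a.2) • x a.1)) (δ y - δ z)
      rw [h.isom, h.isom, dist_add_right, sub_sub_sub_comm, ← two_mul] at h1
      have h2 := (rpow_le_iff' hp (hb.nonneg _) (by positivity)).1 h1
      rwa [Real.mul_rpow (by norm_num) (by positivity),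
        Real.rpow_rpow_inv dist_nonneg hp.ne'] at h2)
  obtain ⟨T, ⟨cT, hT⟩, hfin, happ⟩ := hAP C hC ε hε
  obtain ⟨β, hβ, hβb, -⟩ := h.univ X _ (isPBanach_norm hp hp1 X) id 1 zero_le_one rfl
    (fun a b => by simp [dist_eq_norm])
  simp only [one_mul, id] at hβ hβb
  have := hfin
  obtain ⟨S, hS, hS'⟩ := GK.linearise u (fun y => β (T (δ y))) (K := cT)
    (fun a b => by
      rw [← map_sub, ← map_sub]
      refine (hβb _).trans ((hT _).trans (le_of_eq ?_))
      rw [h.isom, dist_eq_norm])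
    ((LinearMap.range T).map β) (fun y => ⟨_, ⟨_, rfl⟩, rfl⟩) (ε := ε)
    (fun n j N ω hω y hy => by
      have h1 := happ _ (hcC (n, j) y (hy ▸ hbox N ω hω))
      have h2 := (hβb _).trans h1.le
      have e : β (T (c (n, j) y) - c (n, j) y) = (2 / 3 : ℝ) ^ j •
          ((2 : ℝ) ^ (n + j) • (β (T (δ (y + (1 / 2 : ℝ) ^ (n + j) • x n))) - β (T (δ y))) -
            x n) := by
        have e1 : (2 : ℝ) ^ (n + j) • (1 / 2 : ℝ) ^ (n + j) • x n = x n := by
          rw [smul_smul, ← mul_pow]; norm_num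
        simp only [c, map_sub, map_smul, hβ, add_sub_cancel_left, mul_smul, e1]
        rw [smul_sub ((2 / 3 : ℝ) ^ j)]
      rw [e, norm_smul, Real.norm_of_nonneg (by positivity)] at h2
      rw [hux]
      have h3 : (3 / 2 : ℝ) ^ j * (2 / 3) ^ j = 1 := by rw [← mul_pow]; norm_num
      calc _ = (3 / 2 : ℝ) ^ j * ((2 / 3) ^ j * _) := by rw [← mul_assoc, h3, one_mul]
        _ ≤ (3 / 2 : ℝ) ^ j * ε := by gcongr
        _ = _ := mul_comm _ _)
  exact ⟨S, hS, fun n => hux n ▸ hS' n⟩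

open Pool.Agent.H812R2.AP in
theorem davie_not_AP (hp : 0 < p) (hp1 : p ≤ 1) (s : Sys) {F : Type} [AddCommGroup F]
    [Module ℝ F] {N : F → ℝ} {δ : s.XT ℝ → F} (h : IsFreeP ℝ p (0 : s.XT ℝ) N δ) :
    ¬ HasAP N := by
  intro hAP
  have : Infinite Sys.Idx := Infinite.of_injective (fun k : ℕ => (⟨k, 0⟩ : Sys.Idx))
    fun a b hab => congrArg Sigma.fst hab
  obtain ⟨e⟩ : Nonempty (ℕ ≃ Option Sys.Idx) := nonempty_equiv_of_countable
  let f : Option Sys.Idx → s.XT ℝ := fun o => o.elim (s.EX ℝ 0 0) (s.psi ℝ)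
  have hf : Tendsto f cofinite (𝓝 0) := by
    intro U hU
    have h1 : (s.psi ℝ ⁻¹' U)ᶜ.Finite := s.tendsto_psi ℝ hU
    refine ((h1.image some).insert none).subset fun o ho => ?_
    cases o with
    | none => exact Set.mem_insert _ _
    | some i => exact Set.mem_insert_of_mem _ ⟨i, ho, rfl⟩
  have hx : Tendsto (f ∘ e) atTop (𝓝 0) := by
    rw [← Nat.cofinite_eq_atTop]
    exact hf.comp e.injective.tendsto_cofinite
  obtain ⟨S, hS, hS'⟩ := approx_of_hasAP hp hp1 h hAP _ hx (ε := 1 / 30) (by norm_num)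
  obtain ⟨x, hx, hfar⟩ := s.far S hS
  have key : ∀ o, ‖S (f o) - f o‖ ≤ 4 * (1 / 30) := fun o => by
    simpa using hS' (e.symm o)
  rcases hx with rfl | rfl | ⟨i, rfl⟩
  · have := key none
    simp only [f, Option.elim] at this
    linarith
  · simp at hfar; linarith
  · have := key (some i)
    simp only [f, Option.elim] at this
    linarith

theorem exists_not_AP : ∃ (M : Type) (_ : MetricSpace M) (o : M), ∀ p : ℝ, 0 < p → p ≤ 1 →
    ∃ (F : Type) (_ : AddCommGroup F) (_ : Module ℝ F) (N : F → ℝ) (δ : M → F),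
      IsFreeP ℝ p o N δ ∧ ¬ HasAP N := by
  obtain ⟨s⟩ := Pool.Agent.H812R2.AP.exists_sys
  refine ⟨s.XT ℝ, inferInstance, 0, fun p hp hp1 => ?_⟩
  obtain ⟨F, _, _, N, δ, h⟩ := exists_isFreeP ℝ hp hp1 (0 : s.XT ℝ)
  exact ⟨F, _, _, N, δ, h, davie_not_AP hp hp1 s h⟩

end Pool.Agent.H13Z.FreeP
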