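import Pool.Agent.H13Z.FreeP.Basic

/-!
A disjointification lemma in the style of Rosenthal and its use for lower `ℓ_p` estimates.
-/

namespace Pool.Agent.H13Z.FreeP

open Filter Topology

theorem sum_half_pow_le (S : Finset ℕ) : ∑ k ∈ S, (1 / 2 : ℝ) ^ k ≤ 2 := by
  have h := summable_geometric_two.sum_le_tsum S (fun i _ => by positivity)
  rwa [tsum_geometric_two] at h

theorem tendsto_of_sum_le (f : ℕ → ℝ) (h0 : ∀ m, 0 ≤ f m) (B : ℝ)
    (hB : ∀ S : Finset ℕ, ∑ m ∈ S, f m ≤ B) : Tendsto f atTop (𝓝 0) :=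
  (summable_of_sum_le h0 hB).tendsto_atTop_zero

/-- Disjointification of a nonnegative matrix with bounded column sums. -/
theorem rosenthal (a : ℕ → ℕ → ℝ) (h0 : ∀ m n, 0 ≤ a m n) (B : ℝ)
    (hB : ∀ n (S : Finset ℕ), ∑ m ∈ S, a m n ≤ B) {ε : ℝ} (hε : 0 < ε) :
    ∃ f : ℕ → ℕ, StrictMono f ∧
      ∀ j (S : Finset ℕ), ∑ i ∈ S.erase j, a (f i) (f j) ≤ ε := by
  classical
  let U : Ultrafilter ℕ := hyperfilter ℕ
  have hU : (U : Filter ℕ) ≤ atTop := by
    rw [← Nat.cofinite_eq_atTop]; exact hyperfilter_le_cofinite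
  have hlim : ∀ m, ∃ α, Tendsto (fun n => a m n) U (𝓝 α) := by
    intro m
    have hle : ∀ n, a m n ∈ Set.Icc 0 B := fun n => ⟨h0 m n, by simpa using hB n {m}⟩
    obtain ⟨α, -, hα⟩ := isCompact_Icc.ultrafilter_le_nhds (U.map fun n => a m n)
      (by
        rw [Ultrafilter.coe_map, le_principal_iff, mem_map]
        exact Eventually.of_forall hle)
    exact ⟨α, hα⟩
  choose α hα using hlim
  have hα0 : ∀ m, 0 ≤ α m := fun m => ge_of_tendsto' (hα m) fun n => h0 m n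
  have hαB : ∀ S : Finset ℕ, ∑ m ∈ S, α m ≤ B := fun S =>
    le_of_tendsto' (tendsto_finsetSum S fun m _ => hα m) fun n => hB n S
  have hαt := tendsto_of_sum_le α hα0 B hαB
  have hat : ∀ n, Tendsto (fun m => a m n) atTop (𝓝 0) := fun n =>
    tendsto_of_sum_le _ (fun m => h0 m n) B (hB n)
  set w : ℕ → ℝ := fun k => ε / 4 * (1 / 2) ^ k with hw
  have hw0 : ∀ k, 0 < w k := fun k => by positivity
  obtain ⟨g, hg1, hg2⟩ := exists_seq_of_forall_finset_exists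
    (fun x : ℕ × ℕ => α x.2 < w x.1)
    (fun x y : ℕ × ℕ => x.1 < y.1 ∧ x.2 < y.2 ∧ a x.2 y.2 ≤ 2 * w x.1 ∧ a y.2 x.2 ≤ 2 * w y.1)
    (by
      intro s hs
      let l := s.sup Prod.fst + 1
      have e1 : ∀ᶠ y in (U : Filter ℕ), α y < w l := hU (hαt.eventually (gt_mem_nhds (hw0 l)))
      have e2 : ∀ᶠ y in (U : Filter ℕ), ∀ x ∈ s,
          x.2 < y ∧ a x.2 y ≤ 2 * w x.1 ∧ a y x.2 ≤ 2 * w l := by
        rw [eventually_all_finset]
        intro x hx
        have f1 : ∀ᶠ y in (U : Filter ℕ), x.2 < y := hU (eventually_gt_atTop _)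
        have f2 : ∀ᶠ y in (U : Filter ℕ), a x.2 y < 2 * w x.1 :=
          (hα x.2).eventually (gt_mem_nhds (by have := hs x hx; have := hw0 x.1; linarith))
        have f3 : ∀ᶠ y in (U : Filter ℕ), a y x.2 < 2 * w l :=
          hU ((hat x.2).eventually (gt_mem_nhds (by have := hw0 l; linarith)))
        filter_upwards [f1, f2, f3] with y h1 h2 h3 using ⟨h1, h2.le, h3.le⟩
      obtain ⟨y, hy1, hy2⟩ := (e1.and e2).exists
      refine ⟨(l, y), hy1, fun x hx => ⟨?_, hy2 x hx⟩⟩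
      have : x.1 ≤ s.sup Prod.fst := Finset.le_sup (f := Prod.fst) hx
      exact Nat.lt_succ_of_le this)
  refine ⟨fun i => (g i).2, fun i j hij => (hg2 i j hij).2.1, fun j S => ?_⟩
  have hk : StrictMono fun i => (g i).1 := fun i j hij => (hg2 i j hij).1
  calc ∑ i ∈ S.erase j, a (g i).2 (g j).2 ≤ ∑ i ∈ S.erase j, 2 * w (g i).1 := by
        refine Finset.sum_le_sum fun i hi => ?_
        rcases lt_or_gt_of_ne (Finset.ne_of_mem_erase hi) with h | h
        · exact (hg2 i j h).2.2.1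
        · exact (hg2 j i h).2.2.2
    _ = ε / 2 * ∑ k ∈ (S.erase j).image fun i => (g i).1, (1 / 2 : ℝ) ^ k := by
        rw [Finset.sum_image (fun i _ j _ h => hk.injective h), Finset.mul_sum]
        refine Finset.sum_congr rfl fun i _ => ?_
        simp only [hw]; ring
    _ ≤ ε / 2 * 2 := by gcongr; exact sum_half_pow_le _
    _ = ε := by ring

/-- lower `ℓ_p` estimate with constant `c` -/
def Lower (𝕜 : Type) [RCLike 𝕜] (p : ℝ) {V : Type*} [AddCommGroup V] [Module 𝕜 V] (n : V → ℝ)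
    (c : ℝ) (x : ℕ → V) : Prop :=
  ∀ (S : Finset ℕ) (a : ℕ → 𝕜), c * ∑ j ∈ S, ‖a j‖ ^ p ≤ n (∑ j ∈ S, a j • x j)

theorem lower_of_family {𝕜 : Type} [RCLike 𝕜] {p : ℝ} (hp : 0 < p) {V : Type*} [AddCommGroup V]
    [Module 𝕜 V] {n : V → ℝ} (q : ℕ → V → ℝ) (hq : ∀ j, PSN 𝕜 p (q j)) {C B η : ℝ} (hC : 0 < C)
    (hη : 0 < η) (hsum : ∀ (S : Finset ℕ) v, ∑ j ∈ S, q j v ≤ C * n v) (x : ℕ → V)
    (hB : ∀ j, n (x j) ≤ B) (hx : ∀ j, η ≤ q j (x j)) :
    ∃ f : ℕ → ℕ, StrictMono f ∧ Lower 𝕜 p n (η / (2 * C)) (fun j => x (f j)) := by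
  classical
  obtain ⟨f, hf, hsmall⟩ := rosenthal (fun m k => q m (x k)) (fun m k => (hq m).nonneg _) (C * B)
    (fun k S => (hsum S _).trans (by gcongr; exact hB k)) (half_pos hη)
  refine ⟨f, hf, fun S a => ?_⟩
  set v := ∑ j ∈ S, a j • x (f j) with hv
  have h1 : ∑ i ∈ S, q (f i) v ≤ C * n v := by
    have := hsum (S.image f) v
    rwa [Finset.sum_image (fun i _ j _ h => hf.injective h)] at this
  have hp0 : ∀ j, 0 ≤ ‖a j‖ ^ p := fun j => Real.rpow_nonneg (norm_nonneg _) _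
  have h2 : ∀ i ∈ S, ‖a i‖ ^ p * η - ∑ j ∈ S.erase i, ‖a j‖ ^ p * q (f i) (x (f j)) ≤
      q (f i) v := by
    intro i hi
    have e : a i • x (f i) = v - ∑ j ∈ S.erase i, a j • x (f j) := by
      rw [hv, ← Finset.add_sum_erase S _ hi]; abel
    have h3 := (hq (f i)).sub v (∑ j ∈ S.erase i, a j • x (f j))
    rw [← e, (hq (f i)).smul] at h3
    have h4 := (hq (f i)).sum_le hp (S.erase i) (fun j => a j • x (f j))
    simp only [(hq (f i)).smul] at h4
    have h5 := mul_le_mul_of_nonneg_left (hx (f i)) (hp0 i)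
    linarith
  have h6 : ∑ i ∈ S, ∑ j ∈ S.erase i, ‖a j‖ ^ p * q (f i) (x (f j)) ≤
      ∑ j ∈ S, ‖a j‖ ^ p * (η / 2) := by
    rw [Finset.sum_comm' (t' := S) (s' := fun j => S.erase j)
      (by intro i j; simp only [Finset.mem_erase]; tauto)]
    refine Finset.sum_le_sum fun j _ => ?_
    rw [← Finset.mul_sum]
    exact mul_le_mul_of_nonneg_left (hsmall j S) (hp0 j)
  have h7 := Finset.sum_le_sum h2
  rw [Finset.sum_sub_distrib, ← Finset.sum_mul] at h7
  rw [← Finset.sum_mul] at h6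
  rw [div_mul_eq_mul_div, div_le_iff₀ (by positivity)]
  nlinarith

end Pool.Agent.H13Z.FreeP
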