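import Pool.Agent.H13Z.FreeP.Forest

/-!
Random layer cuts of a forest and the rounding lemma.
-/

namespace Pool.Agent.H13Z.FreeP

open Finsupp MeasureTheory Set

theorem cut_subset {a b : ℝ} (hab : a ≤ b) :
    {t : ℝ | ⌊a + t⌋ ≠ ⌊b + t⌋} ∩ Ico 0 1 ⊆
      Ico ((⌊a⌋ + 1 : ℝ) - b) ((⌊a⌋ + 1 : ℝ) - a) ∪ Ico ((⌊a⌋ + 2 : ℝ) - b) ((⌊a⌋ + 2 : ℝ) - a) := by
  rintro t ⟨hne, ht0, ht1⟩
  have h1 : ⌊a + t⌋ ≤ ⌊b + t⌋ := Int.floor_mono (by linarith)
  have h2 : ⌊a + t⌋ + 1 ≤ ⌊b + t⌋ := lt_of_le_of_ne h1 hne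
  have h3 : ((⌊a + t⌋ : ℝ) + 1) ≤ b + t := by
    have : ((⌊a + t⌋ + 1 : ℤ) : ℝ) ≤ (⌊b + t⌋ : ℝ) := by exact_mod_cast h2
    push_cast at this
    exact this.trans (Int.floor_le _)
  have h4 : a + t < (⌊a + t⌋ : ℝ) + 1 := Int.lt_floor_add_one _
  have h5 : ⌊a⌋ ≤ ⌊a + t⌋ := Int.floor_mono (by linarith)
  have h6 : ⌊a + t⌋ ≤ ⌊a⌋ + 1 := by
    rw [← Int.floor_add_one]; exact Int.floor_mono (by linarith)
  rcases h5.eq_or_lt with h | h
  · left
    rw [← h] at h3 h4
    exact ⟨by linarith, by linarith⟩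
  · right
    have h7 : ⌊a + t⌋ = ⌊a⌋ + 1 := le_antisymm h6 h
    rw [h7] at h3 h4
    push_cast at h3 h4
    exact ⟨by linarith, by linarith⟩

theorem cut_measure (a b : ℝ) :
    (volume.restrict (Ico (0 : ℝ) 1)).real {t : ℝ | ⌊a + t⌋ ≠ ⌊b + t⌋} ≤ 2 * |a - b| := by
  wlog hab : a ≤ b generalizing a b
  · have := this b a (le_of_not_ge hab)
    rw [abs_sub_comm] at this
    simpa only [ne_comm] using this
  rw [Measure.real, Measure.restrict_apply' measurableSet_Ico]
  refine ENNReal.toReal_le_of_le_ofReal (by positivity) ?_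
  refine (measure_mono (cut_subset hab)).trans ((measure_union_le _ _).trans ?_)
  rw [Real.volume_Ico, Real.volume_Ico, ← ENNReal.ofReal_add (by linarith) (by linarith)]
  refine ENNReal.ofReal_le_ofReal ?_
  rw [abs_sub_comm, abs_of_nonneg (by linarith)]
  linarith

theorem exists_good_shift {ι : Type*} (S : Finset ι) (a b w : ι → ℝ) (hw : ∀ i, 0 ≤ w i) :
    ∃ t : ℝ, ∑ i ∈ S, (if ⌊a i + t⌋ = ⌊b i + t⌋ then 0 else w i) ≤
      ∑ i ∈ S, min 1 (2 * |a i - b i|) * w i := by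
  let μ := volume.restrict (Ico (0 : ℝ) 1)
  have : IsProbabilityMeasure μ := ⟨by simp [μ]⟩
  let C : ι → Set ℝ := fun i => {t : ℝ | ⌊a i + t⌋ ≠ ⌊b i + t⌋}
  have hC : ∀ i, MeasurableSet (C i) := by
    intro i
    have m1 : Measurable fun t : ℝ => ⌊a i + t⌋ :=
      Int.measurable_floor.comp (measurable_const.add measurable_id)
    have m2 : Measurable fun t : ℝ => ⌊b i + t⌋ :=
      Int.measurable_floor.comp (measurable_const.add measurable_id)
    exact (measurableSet_eq_fun m1 m2).compl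
  have hint : ∀ i ∈ S, Integrable ((C i).indicator fun _ => w i) μ := fun i _ =>
    (integrable_const (w i)).indicator (hC i)
  obtain ⟨t, ht⟩ := exists_le_integral (integrable_finsetSum S hint)
  refine ⟨t, ?_⟩
  rw [integral_finsetSum S hint] at ht
  refine le_trans (le_of_eq (Finset.sum_congr rfl fun i _ => ?_)) (ht.trans
    (Finset.sum_le_sum fun i _ => ?_))
  · by_cases h : ⌊a i + t⌋ = ⌊b i + t⌋
    · rw [if_pos h, Set.indicator_of_notMem (by simpa [C] using h)]
    · rw [if_neg h, Set.indicator_of_mem (by simpa [C] using h)]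
  · rw [integral_indicator_const _ (hC i), smul_eq_mul]
    exact mul_le_mul_of_nonneg_right (le_min measureReal_le_one (cut_measure _ _)) (hw i)

variable {M : Type*} [MetricSpace M]

/-- the cost which is linear below the scale `s` and equals `d^p` above it -/
noncomputable def om (p s : ℝ) (x y : M) : ℝ := dist x y * max (dist x y) s ^ (p - 1)

theorem om_nonneg (p : ℝ) {s : ℝ} (hs : 0 < s) (x y : M) : 0 ≤ om p s x y :=
  mul_nonneg dist_nonneg (Real.rpow_nonneg (le_max_of_le_right hs.le) _)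

theorem om_le_dp {p : ℝ} (hp1 : p ≤ 1) {s : ℝ} (x y : M) : om p s x y ≤ dp p x y := by
  rcases (dist_nonneg (x := x) (y := y)).eq_or_lt with h | h
  · rw [om, ← h, zero_mul]; exact dp_nonneg _ _ _
  · calc om p s x y ≤ dist x y * dist x y ^ (p - 1) :=
          mul_le_mul_of_nonneg_left
            (Real.rpow_le_rpow_of_nonpos h (le_max_left _ _) (by linarith)) h.le
      _ = dp p x y := by rw [dp, Real.rpow_sub_one h.ne']; field_simp

theorem om_le_lin {p : ℝ} (hp1 : p ≤ 1) {s : ℝ} (hs : 0 < s) (x y : M) :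
    om p s x y ≤ dist x y * s ^ (p - 1) :=
  mul_le_mul_of_nonneg_left
    (Real.rpow_le_rpow_of_nonpos hs (le_max_right _ _) (by linarith)) dist_nonneg

theorem round_ineq {p s d : ℝ} (hp : 0 < p) (hp1 : p ≤ 1) (hs : 0 < s) (hd : 0 ≤ d) {u : ℝ}
    (hu : u ≤ 4 * d / s) : min 1 u * (d + 2 * s) ^ p ≤ 12 * (d * max d s ^ (p - 1)) := by
  set m := max d s with hm
  have hm0 : 0 < m := lt_max_of_lt_right hs
  have h1 : min 1 u ≤ 4 * d / m := by
    rcases le_total d s with h | h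
    · rw [hm, max_eq_right h]; exact (min_le_right _ _).trans hu
    · have hd0 : 0 < d := hs.trans_le h
      rw [hm, max_eq_left h, mul_div_assoc, div_self hd0.ne']
      exact (min_le_left _ _).trans (by norm_num)
  have h2 : (d + 2 * s) ^ p ≤ 3 * m ^ p := by
    have h3 : d + 2 * s ≤ 3 * m := by
      have := le_max_left d s
      have := le_max_right d s
      linarith
    calc (d + 2 * s) ^ p ≤ (3 * m) ^ p := Real.rpow_le_rpow (by positivity) h3 hp.le
      _ = 3 ^ p * m ^ p := Real.mul_rpow (by norm_num) hm0.le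
      _ ≤ 3 * m ^ p := by
          gcongr
          calc (3 : ℝ) ^ p ≤ 3 ^ (1 : ℝ) := Real.rpow_le_rpow_of_exponent_le (by norm_num) hp1
            _ = 3 := Real.rpow_one 3
  calc min 1 u * (d + 2 * s) ^ p ≤ 4 * d / m * (d + 2 * s) ^ p :=
        mul_le_mul_of_nonneg_right h1 (by positivity)
    _ ≤ 4 * d / m * (3 * m ^ p) := by gcongr
    _ = 12 * (d * m ^ (p - 1)) := by rw [Real.rpow_sub_one hm0.ne']; field_simp; ring

/-- The rounding lemma. -/
theorem rounding {p : ℝ} (hp : 0 < p) (hp1 : p ≤ 1) (o : M) {s : ℝ} (hs : 0 < s) (A : Set M)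
    (hA : ∀ x ∈ A, ∀ y ∈ A, dist x y < s → x = y) (β : (M × M) →₀ ℝ) :
    ∃ ρ : M → M, (∀ x ∈ A, ρ x = x) ∧ (∀ x, dist x (ρ x) ≤ s) ∧
      Q p (dp p) {o} (Finsupp.lmapDomain ℝ ℝ ρ (bd β)) ≤ 12 * cost p (om p s) β := by
  classical
  obtain ⟨β', h, top, -, a2, a3, a4, a5, a6⟩ :=
    forest hp hp1 (om_nonneg p hs) (fun (t r : ℝ) => ⌊r / (s / 2) + t⌋) β
  obtain ⟨t, ht⟩ := exists_good_shift β'.support (fun e => h e.1 / (s / 2))
    (fun e => h e.2 / (s / 2)) (fun e => ‖β' e‖ ^ p * (dist e.1 e.2 + 2 * s) ^ p)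
    (fun e => by positivity)
  have htop : ∀ x, dist x (top t x) < s / 2 := by
    intro x
    obtain ⟨b1, b2, -⟩ := a6 t x
    have h1 := Int.lt_floor_add_one (h x / (s / 2) + t)
    have h2 := Int.floor_le (h (top t x) / (s / 2) + t)
    rw [b2] at h2
    have h3 : (h x - h (top t x)) / (s / 2) < 1 := by rw [sub_div]; linarith
    rw [div_lt_one (by positivity)] at h3
    linarith
  have hclose : ∀ x y, top t x = top t y → dist x y < s := by
    intro x y hxy
    have h1 := dist_triangle_right x y (top t x)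
    have h2 := htop x
    have h3 := htop y
    rw [← hxy] at h3
    linarith
  let g : M → M := fun z => if hz : ∃ a ∈ A, top t a = z then hz.choose else z
  let ρ : M → M := fun x => g (top t x)
  have hρ : ∀ x, dist x (ρ x) ≤ s := by
    intro x
    by_cases hz : ∃ a ∈ A, top t a = top t x
    · have : ρ x = hz.choose := dif_pos hz
      rw [this]
      exact (hclose _ _ hz.choose_spec.2.symm).le
    · have : ρ x = top t x := dif_neg hz
      rw [this]
      linarith [htop x]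
  refine ⟨ρ, fun x hx => ?_, hρ, ?_⟩
  · have hz : ∃ a ∈ A, top t a = top t x := ⟨x, hx, rfl⟩
    have : ρ x = hz.choose := dif_pos hz
    rw [this]
    exact hA _ hz.choose_spec.1 _ hx (hclose _ _ hz.choose_spec.2)
  have hQ := psn_Q (𝕜 := ℝ) hp hp1 (dp_nonneg p) (mem_singleton o)
  rw [← a2, bd_apply, map_sum]
  refine (hQ.sum_le hp _ _).trans ?_
  have step1 : ∀ e ∈ β'.support,
      Q p (dp p) {o} (Finsupp.lmapDomain ℝ ℝ ρ (β' e • (dl ℝ e.1 - dl ℝ e.2))) ≤
      (if ⌊h e.1 / (s / 2) + t⌋ = ⌊h e.2 / (s / 2) + t⌋ then 0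
        else ‖β' e‖ ^ p * (dist e.1 e.2 + 2 * s) ^ p) := by
    intro e he
    have e1 : Finsupp.lmapDomain ℝ ℝ ρ (β' e • (dl ℝ e.1 - dl ℝ e.2)) =
        β' e • (dl ℝ (ρ e.1) - dl ℝ (ρ e.2)) := by
      rw [map_smul, map_sub]
      simp only [Finsupp.lmapDomain_apply, Finsupp.mapDomain_single]
    rw [e1, hQ.smul]
    split_ifs with hl
    · have : ρ e.1 = ρ e.2 := congrArg g (a5 t e he hl)
      rw [this, sub_self, hQ.zero hp, mul_zero]
    · refine mul_le_mul_of_nonneg_left ((Q_edge hp hp1 (dp_nonneg p) _ _).trans ?_) (by positivity)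
      refine Real.rpow_le_rpow dist_nonneg ?_ hp.le
      have h1 := dist_triangle4 (ρ e.1) e.1 e.2 (ρ e.2)
      have h2 := hρ e.1
      have h3 := hρ e.2
      rw [dist_comm] at h2
      linarith
  refine (Finset.sum_le_sum step1).trans (ht.trans ?_)
  refine le_trans ?_ (mul_le_mul_of_nonneg_left a3 (by norm_num))
  rw [cost, Finset.mul_sum]
  refine Finset.sum_le_sum fun e he => ?_
  have hu : 2 * |h e.1 / (s / 2) - h e.2 / (s / 2)| ≤ 4 * dist e.1 e.2 / s := by
    rw [← sub_div, abs_div, abs_of_pos (by positivity : 0 < s / 2)]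
    have := a4 e he
    calc 2 * (|h e.1 - h e.2| / (s / 2)) ≤ 2 * (dist e.1 e.2 / (s / 2)) := by gcongr
      _ = 4 * dist e.1 e.2 / s := by field_simp; ring
  have h1 := round_ineq hp hp1 hs (dist_nonneg (x := e.1) (y := e.2)) hu
  have h2 : 0 ≤ ‖β' e‖ ^ p := by positivity
  rw [om]
  nlinarith

end Pool.Agent.H13Z.FreeP
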